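import Pool.Agent.R876.WM.Stm

open MeasureTheory ProbabilityTheory Set
open scoped ENNReal NNReal Topology

namespace Pool.Agent.R876.WM

universe u v

namespace ABSaux

variable {X : Type v} [NormedAddCommGroup X] [NormedSpace ℝ X]

theorem pw {T : X →L[ℝ] X} {M : ℝ} (hM : ‖T‖ ≤ M) (hM0 : 0 ≤ M) (m : ℕ) (x : X) :
    ‖(T ^ m) x‖ ≤ M ^ m * ‖x‖ := by
  induction m with
  | zero => simp
  | succ m ih =>
    rw [pow_succ', ContinuousLinearMap.mul_apply]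
    calc ‖T ((T ^ m) x)‖ ≤ ‖T‖ * ‖(T ^ m) x‖ := T.le_opNorm _
      _ ≤ M * (M ^ m * ‖x‖) := mul_le_mul hM ih (norm_nonneg _) hM0
      _ = M ^ (m + 1) * ‖x‖ := by ring

theorem tele {T : X →L[ℝ] X} {M : ℝ} (hM : ‖T‖ ≤ M) (hM0 : 0 ≤ M) (m : ℕ) (x : X) :
    ‖x - (T ^ m) x‖ ≤ (∑ l ∈ Finset.range m, M ^ l) * ‖x - T x‖ := by
  induction m with
  | zero => simp
  | succ m ih =>
    rw [Finset.sum_range_succ, add_mul]
    have h1 : x - (T ^ (m + 1)) x = (x - (T ^ m) x) + (T ^ m) (x - T x) := by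
      rw [pow_succ, ContinuousLinearMap.mul_apply, map_sub]
      abel
    rw [h1]
    exact (norm_add_le _ _).trans (add_le_add ih (pw hM hM0 m _))

end ABSaux

theorem abs_thm : S_ABS.{v} := by
  intro C M m j hC hM hj
  set K1 : ℝ := ∑ l ∈ Finset.range m, M ^ l with hK1
  have hK10 : 0 ≤ K1 := Finset.sum_nonneg (fun l _ => pow_nonneg hM l)
  refine ⟨8 * C ^ m * 4 ^ m * K1 + C ^ m * M ^ m, by positivity, ?_⟩
  intro X _ _ _ J a G D hD hJ hJa haa ha hJM hG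
  have cJ : ∀ i, Commute J (a i) := fun i => hJa i
  have ca : ∀ i k, Commute (a i) (a k) := fun i k => haa i k
  have cJJ : ∀ i k, Commute (J * a i) (J * a k) := fun i k =>
    ((Commute.refl J).mul_right (cJ k)).mul_left ((cJ i).symm.mul_right (ca i k))
  set B : ℕ → X →L[ℝ] X := fun i => (J * a i) ^ m with hB
  have hBm : ∀ i, J ^ m * (a i) ^ m = B i := fun i => ((cJ i).mul_pow m).symm
  have hBn : ∀ i x, ‖B i x‖ ≤ M ^ m * ‖x‖ := fun i x => ABSaux.pw (hJM i) hM m x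
  have hBG : ∀ i, ‖G - B i G‖ ≤ K1 * (D * (1 / 2 ^ i) ^ j) := by
    intro i
    refine (ABSaux.tele (hJM i) hM m G).trans ?_
    exact mul_le_mul_of_nonneg_left (hG i) hK10
  have ham : ∀ i x, ‖((a i) ^ m) x‖ ≤ (C * 4 ^ i) ^ m * ‖x‖ := fun i x =>
    ABSaux.pw (ha i) (by positivity) m x
  have cB : ∀ i k, B i * B k = B k * B i := fun i k => (cJJ i k).pow_pow m m
  -- the decay
  have hdec : ∀ i : ℕ, (4 : ℝ) ^ (i * m) * (1 / 2 ^ i) ^ j ≤ (1 / 2) ^ i := by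
    intro i
    have h1 : (4 : ℝ) ^ (i * m) * (1 / 2 ^ i) ^ j = (4 ^ m * (1 / 2) ^ j) ^ i := by
      rw [mul_pow, ← pow_mul, ← pow_mul, mul_comm m i, mul_comm j i, pow_mul (1 / 2 : ℝ) i j]
      congr 2
      rw [div_pow, one_pow]
    rw [h1]
    apply pow_le_pow_left₀ (by positivity)
    obtain ⟨t, rfl⟩ : ∃ t, j = 2 * m + 1 + t := ⟨j - (2 * m + 1), by omega⟩
    have h2 : (4 : ℝ) ^ m * (1 / 2) ^ (2 * m + 1 + t) = (1 / 2) * (1 / 2) ^ t := by
      rw [pow_add, pow_add, pow_mul, pow_one]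
      have : (4 : ℝ) ^ m * (((1 / 2) ^ 2) ^ m * (1 / 2) * (1 / 2) ^ t) =
          (4 * (1 / 2) ^ 2) ^ m * ((1 / 2) * (1 / 2) ^ t) := by
        rw [mul_pow]
        ring
      rw [this]
      norm_num
    rw [h2]
    have h3 : (1 / 2 : ℝ) ^ t ≤ 1 := pow_le_one₀ (by norm_num) (by norm_num)
    linarith
  have hdec2 : ∀ i : ℕ, ((1 : ℝ) / 2 ^ i) ^ j ≤ (1 / 2) ^ i := by
    intro i
    refine le_trans ?_ (hdec i)
    have h1 : (1 : ℝ) ≤ 4 ^ (i * m) := one_le_pow₀ (by norm_num)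
    have h2 : (0 : ℝ) ≤ (1 / 2 ^ i) ^ j := by positivity
    nlinarith
  -- the terms
  set t : ℕ → X := fun i => ((a (i + 1)) ^ m + (a i) ^ m) (B (i + 1) G - B i G) with ht
  have hdiff : ∀ i, ‖B (i + 1) G - B i G‖ ≤ 2 * (K1 * (D * (1 / 2 ^ i) ^ j)) := by
    intro i
    have h1 : B (i + 1) G - B i G = (G - B i G) - (G - B (i + 1) G) := by abel
    rw [h1]
    have h2 : K1 * (D * (1 / 2 ^ (i + 1)) ^ j) ≤ K1 * (D * (1 / 2 ^ i) ^ j) := by
      apply mul_le_mul_of_nonneg_left _ hK10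
      apply mul_le_mul_of_nonneg_left _ hD
      apply pow_le_pow_left₀ (by positivity)
      apply one_div_le_one_div_of_le (by positivity)
      exact pow_le_pow_right₀ (by norm_num) (by omega)
    calc ‖(G - B i G) - (G - B (i + 1) G)‖ ≤ ‖G - B i G‖ + ‖G - B (i + 1) G‖ := norm_sub_le _ _
      _ ≤ 2 * (K1 * (D * (1 / 2 ^ i) ^ j)) := by linarith [hBG i, hBG (i + 1)]
  have htn : ∀ i, ‖t i‖ ≤ 4 * C ^ m * 4 ^ m * K1 * D * (1 / 2) ^ i := by
    intro i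
    have h1 : t i = ((a (i + 1)) ^ m) (B (i + 1) G - B i G) + ((a i) ^ m) (B (i + 1) G - B i G) :=
      rfl
    rw [h1]
    have h2 := ham (i + 1) (B (i + 1) G - B i G)
    have h3 := ham i (B (i + 1) G - B i G)
    have h4 : (C * 4 ^ i) ^ m ≤ C ^ m * 4 ^ m * 4 ^ (i * m) := by
      rw [mul_pow, ← pow_mul, mul_assoc]
      apply mul_le_mul_of_nonneg_left _ (pow_nonneg hC m)
      have h5 : (1 : ℝ) ≤ 4 ^ m := one_le_pow₀ (by norm_num)
      have h6 : (0 : ℝ) ≤ 4 ^ (i * m) := by positivity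
      nlinarith
    have h5 : (C * 4 ^ (i + 1)) ^ m = C ^ m * 4 ^ m * 4 ^ (i * m) := by
      rw [mul_pow, ← pow_mul, mul_assoc, ← pow_add]
      congr 2
      ring
    have hE : 0 ≤ ‖B (i + 1) G - B i G‖ := norm_nonneg _
    have hq : 0 ≤ C ^ m * 4 ^ m * 4 ^ (i * m) := by positivity
    calc ‖((a (i + 1)) ^ m) (B (i + 1) G - B i G) + ((a i) ^ m) (B (i + 1) G - B i G)‖
        ≤ (C * 4 ^ (i + 1)) ^ m * ‖B (i + 1) G - B i G‖ + (C * 4 ^ i) ^ m * ‖B (i + 1) G - B i G‖ :=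
          (norm_add_le _ _).trans (add_le_add h2 h3)
      _ ≤ (2 * (C ^ m * 4 ^ m * 4 ^ (i * m))) * ‖B (i + 1) G - B i G‖ := by
          rw [h5]
          nlinarith [mul_le_mul_of_nonneg_right h4 hE]
      _ ≤ (2 * (C ^ m * 4 ^ m * 4 ^ (i * m))) * (2 * (K1 * (D * (1 / 2 ^ i) ^ j))) :=
          mul_le_mul_of_nonneg_left (hdiff i) (by positivity)
      _ = 4 * C ^ m * 4 ^ m * K1 * D * (4 ^ (i * m) * (1 / 2 ^ i) ^ j) := by ring
      _ ≤ 4 * C ^ m * 4 ^ m * K1 * D * (1 / 2) ^ i :=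
          mul_le_mul_of_nonneg_left (hdec i) (by positivity)
  have hgeo : Summable (fun i : ℕ => 4 * C ^ m * 4 ^ m * K1 * D * (1 / 2 : ℝ) ^ i) :=
    (summable_geometric_of_lt_one (by norm_num) (by norm_num)).mul_left _
  have hsum : Summable t := Summable.of_norm_bounded hgeo htn
  have hnorm : ‖∑' i, t i‖ ≤ 8 * C ^ m * 4 ^ m * K1 * D := by
    have h1 := tsum_of_norm_bounded (hgeo.hasSum) htn
    rw [tsum_mul_left, tsum_geometric_of_lt_one (by norm_num) (by norm_num)] at h1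
    calc ‖∑' i, t i‖ ≤ 4 * C ^ m * 4 ^ m * K1 * D * (1 - 1 / 2)⁻¹ := h1
      _ = 8 * C ^ m * 4 ^ m * K1 * D := by norm_num; ring
  -- telescoping
  set S : ℕ → X := fun i => B i (B i G) with hS
  have hJt : ∀ i, (J ^ m) (t i) = S (i + 1) - S i := by
    intro i
    have h1 : (J ^ m) (t i) = (J ^ m * (a (i + 1)) ^ m) (B (i + 1) G - B i G) +
        (J ^ m * (a i) ^ m) (B (i + 1) G - B i G) := by
      change (J ^ m) (((a (i + 1)) ^ m) (B (i + 1) G - B i G) +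
        ((a i) ^ m) (B (i + 1) G - B i G)) = _
      rw [map_add]
      rfl
    rw [h1, hBm, hBm, map_sub, map_sub]
    have h2 : B i (B (i + 1) G) = B (i + 1) (B i G) := by
      have := congrArg (fun T : X →L[ℝ] X => T G) (cB i (i + 1))
      exact this
    rw [h2]
    simp only [hS]
    abel
  have hSlim : Filter.Tendsto S Filter.atTop (𝓝 G) := by
    rw [tendsto_iff_norm_sub_tendsto_zero]
    have h1 : ∀ n, ‖S n - G‖ ≤ (M ^ m + 1) * (K1 * D) * (1 / 2) ^ n := by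
      intro n
      have h2 : S n - G = -(B n (G - B n G)) - (G - B n G) := by
        simp only [hS, map_sub]
        abel
      rw [h2]
      have h3 := hBn n (G - B n G)
      have h4 := hBG n
      have h5 : K1 * (D * (1 / 2 ^ n) ^ j) ≤ K1 * (D * (1 / 2) ^ n) :=
        mul_le_mul_of_nonneg_left (mul_le_mul_of_nonneg_left (hdec2 n) hD) hK10
      have h6 : 0 ≤ M ^ m := pow_nonneg hM m
      calc ‖-(B n (G - B n G)) - (G - B n G)‖ ≤ ‖-(B n (G - B n G))‖ + ‖G - B n G‖ :=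
            norm_sub_le _ _
        _ = ‖B n (G - B n G)‖ + ‖G - B n G‖ := by rw [norm_neg]
        _ ≤ M ^ m * ‖G - B n G‖ + ‖G - B n G‖ := by linarith
        _ = (M ^ m + 1) * ‖G - B n G‖ := by ring
        _ ≤ (M ^ m + 1) * (K1 * (D * (1 / 2) ^ n)) :=
            mul_le_mul_of_nonneg_left (h4.trans h5) (by positivity)
        _ = (M ^ m + 1) * (K1 * D) * (1 / 2) ^ n := by ring
    have h2 : Filter.Tendsto (fun n : ℕ => (M ^ m + 1) * (K1 * D) * (1 / 2 : ℝ) ^ n)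
        Filter.atTop (𝓝 0) := by
      have := (tendsto_pow_atTop_nhds_zero_of_lt_one (r := (1 / 2 : ℝ)) (by norm_num)
        (by norm_num)).const_mul ((M ^ m + 1) * (K1 * D))
      rwa [mul_zero] at this
    exact squeeze_zero (fun n => norm_nonneg _) h1 h2
  have htsum : ∑' i, (J ^ m) (t i) = G - S 0 := by
    have hs : Summable (fun i => (J ^ m) (t i)) := hsum.map (J ^ m) (J ^ m).continuous
    have h1 := hs.hasSum.tendsto_sum_nat
    have h2 : (fun n => ∑ i ∈ Finset.range n, (J ^ m) (t i)) = fun n => S n - S 0 := by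
      funext n
      simp only [hJt]
      exact Finset.sum_range_sub S n
    rw [h2] at h1
    exact tendsto_nhds_unique h1 (hSlim.sub_const (S 0))
  refine ⟨((a 0) ^ m) (B 0 G) + ∑' i, t i, ?_, ?_⟩
  · rw [map_add, ContinuousLinearMap.map_tsum _ hsum, htsum]
    have h1 : (J ^ m) (((a 0) ^ m) (B 0 G)) = S 0 := by
      have h2 : (J ^ m) (((a 0) ^ m) (B 0 G)) = (J ^ m * (a 0) ^ m) (B 0 G) := rfl
      rw [h2, hBm]
    rw [h1]
    abel
  · have h1 := ham 0 (B 0 G)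
    rw [pow_zero, mul_one] at h1
    have h2 := hBn 0 G
    have h3 : ‖((a 0) ^ m) (B 0 G)‖ ≤ C ^ m * (M ^ m * ‖G‖) :=
      h1.trans (mul_le_mul_of_nonneg_left h2 (pow_nonneg hC m))
    have h4 : 0 ≤ 8 * C ^ m * 4 ^ m * K1 * ‖G‖ := by positivity
    have h5 : 0 ≤ C ^ m * M ^ m * D := by positivity
    calc ‖((a 0) ^ m) (B 0 G) + ∑' i, t i‖ ≤ ‖((a 0) ^ m) (B 0 G)‖ + ‖∑' i, t i‖ :=
          norm_add_le _ _
      _ ≤ C ^ m * (M ^ m * ‖G‖) + 8 * C ^ m * 4 ^ m * K1 * D := add_le_add h3 hnorm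
      _ ≤ (8 * C ^ m * 4 ^ m * K1 + C ^ m * M ^ m) * (D + ‖G‖) := by nlinarith

end Pool.Agent.R876.WM
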