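import Pool.Agent.R876.WM.Stm

open MeasureTheory ProbabilityTheory Set
open scoped ENNReal NNReal Topology

namespace Pool.Agent.R876.WM

universe v

section L2aux

variable {I : Type*} {E : Type*} [NormedAddCommGroup E]

theorem l2_hasSum (f : lp (fun _ : I => E) 2) :
    HasSum (fun i => ‖(f : I → E) i‖ ^ 2) (‖f‖ ^ 2) := by
  have h2 : 0 < (2 : ℝ≥0∞).toReal := by norm_num
  have h := lp.hasSum_norm h2 f
  simpa using h

theorem l2_mem (f : I → E) (h : Summable (fun i => ‖f i‖ ^ 2)) :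
    Memℓp (E := fun _ : I => E) f 2 := by
  apply memℓp_gen
  simpa using h

theorem l2_norm_sq (f : lp (fun _ : I => E) 2) {c : ℝ}
    (h : HasSum (fun i => ‖(f : I → E) i‖ ^ 2) c) : ‖f‖ ^ 2 = c :=
  (l2_hasSum f).unique h

end L2aux

theorem amp_thm : S_AMP.{v} := by
  intro κ E _ _ _ T
  have hsum : ∀ M : lp (fun _ : κ => E) 2, Summable (fun k => ‖T ((M : κ → E) k)‖ ^ 2) := by
    intro M
    refine Summable.of_nonneg_of_le (fun k => by positivity) (fun k => ?_)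
      ((l2_hasSum M).summable.mul_left (‖T‖ ^ 2))
    have := T.le_opNorm ((M : κ → E) k)
    calc ‖T ((M : κ → E) k)‖ ^ 2 ≤ (‖T‖ * ‖(M : κ → E) k‖) ^ 2 := by gcongr
      _ = ‖T‖ ^ 2 * ‖(M : κ → E) k‖ ^ 2 := by ring
  let L : lp (fun _ : κ => E) 2 →ₗ[ℝ] lp (fun _ : κ => E) 2 :=
    { toFun := fun M => ⟨fun k => T ((M : κ → E) k), l2_mem _ (hsum M)⟩
      map_add' := by
        intro x y
        apply lp.ext
        funext k
        simp
      map_smul' := by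
        intro c x
        apply lp.ext
        funext k
        simp }
  refine ⟨L.mkContinuous ‖T‖ ?_, ?_⟩
  · intro M
    have h1 : ‖L M‖ ^ 2 = ∑' k, ‖T ((M : κ → E) k)‖ ^ 2 := l2_norm_sq _ (hsum M).hasSum
    have h2 : ∑' k, ‖T ((M : κ → E) k)‖ ^ 2 ≤ ‖T‖ ^ 2 * ‖M‖ ^ 2 := by
      refine (Summable.tsum_le_tsum (fun k => ?_) (hsum M)
        ((l2_hasSum M).summable.mul_left (‖T‖ ^ 2))).trans_eq ?_
      · have := T.le_opNorm ((M : κ → E) k)
        calc ‖T ((M : κ → E) k)‖ ^ 2 ≤ (‖T‖ * ‖(M : κ → E) k‖) ^ 2 := by gcongr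
          _ = ‖T‖ ^ 2 * ‖(M : κ → E) k‖ ^ 2 := by ring
      · exact ((l2_hasSum M).mul_left (‖T‖ ^ 2)).tsum_eq
    rw [← h1, ← mul_pow] at h2
    exact (abs_le_of_sq_le_sq' h2 (by positivity)).2
  · intro M k
    rfl

end Pool.Agent.R876.WM
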