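import Pool.Agent.R876.WM.IND

open MeasureTheory ProbabilityTheory Set
open scoped ENNReal NNReal Topology

set_option linter.unusedSectionVars false

namespace Pool.Agent.R876.WM
universe u v
variable {Ω : Type u} [NormedAddCommGroup Ω] [NormedSpace ℝ Ω] [CompleteSpace Ω]
  [SecondCountableTopology Ω] [MeasurableSpace Ω] [BorelSpace Ω]
  (μ : Measure Ω) [IsGaussian μ]

theorem countable_of_hilbertBasis {H : Type v} [NormedAddCommGroup H] [InnerProductSpace ℝ H]
    [SecondCountableTopology H] (w : Set H) (b : HilbertBasis w ℝ H) : Countable w := by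
  have ho : Orthonormal ℝ (b : w → H) := b.orthonormal
  have hsep : ∀ i j : w, i ≠ j → 1 ≤ dist (b i) (b j) := by
    intro i j hij
    have h1 : ‖b i - b j‖ ^ 2 = 2 := by
      rw [@norm_sub_sq_real, ho.1 i, ho.1 j, ho.2 hij]
      norm_num
    rw [dist_eq_norm]
    nlinarith [norm_nonneg (b i - b j)]
  have hd : (Set.univ : Set w).PairwiseDisjoint (fun i => Metric.ball (b i) (1 / 2)) := by
    intro i _ j _ hij
    apply Metric.ball_disjoint_ball
    have := hsep i j hij
    linarith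
  have hc : (Set.univ : Set w).Countable :=
    hd.countable_of_isOpen (fun i _ => Metric.isOpen_ball)
      (fun i _ => ⟨b i, Metric.mem_ball_self (by norm_num)⟩)
  exact Set.countable_univ_iff.1 hc

theorem asm
    (hCONJ : S_CONJ.{u, v} μ)
    (hFINA : ∀ (E : Type v) [NormedAddCommGroup E] [InnerProductSpace ℝ E] [CompleteSpace E],
      S_FINA μ E)
    (hud : ∀ (I : Type v) [Countable I] (A : Ω → (L2 I →L[ℝ] L2 I)), CtsD2 μ A →
      ∀ S : Set (Ω → L2 I), (∀ p : ℕ, 2 ≤ p → UB μ p S) → UD μ 2 S → ∀ p : ℕ, 2 ≤ p →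
      UD μ p {W : Ω → L2 I | ∃ V ∈ S, W = fun ω => A ω (V ω)})
    (H : Type v) [NormedAddCommGroup H] [InnerProductSpace ℝ H] [CompleteSpace H]
    [SecondCountableTopology H] (A : Ω → (H →L[ℝ] H)) (hA : CtsD2 μ A) : IsMult μ A := by
  obtain ⟨w, b, -⟩ := exists_hilbertBasis ℝ H
  have : Countable w := countable_of_hilbertBasis w b
  let e : H ≃ₗᵢ[ℝ] L2 w := b.repr
  obtain ⟨hc1, hc2⟩ := hCONJ H (L2 w) e
  obtain ⟨hd1, -⟩ := hCONJ (L2 w) H e.symm
  have hA' := hc2 A hA
  have hm := hFINA (L2 w) _ (hud w _ hA')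
  intro p hp r
  obtain ⟨q, hq, s, C, h⟩ := hm p hp r
  refine ⟨q, hq, s, C, fun V hV U hU => ?_⟩
  have hVe : Dinf μ (fun ω => e (V ω)) := by
    intro p' hp' r'
    obtain ⟨U0, hU0⟩ := hV p' hp' r'
    exact ⟨_, hc1 _ _ _ _ hU0⟩
  obtain ⟨U', hU', hn⟩ := h _ hVe _ (hc1 _ _ _ _ hU)
  refine ⟨fun ω => e.symm (U' ω), ?_, ?_⟩
  · have := hd1 _ _ _ _ hU'
    simpa using this
  · have e1 : eLpNorm (fun ω => e.symm (U' ω)) (ENNReal.ofReal p) μ =
        eLpNorm U' (ENNReal.ofReal p) μ := by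
      apply eLpNorm_congr_norm_ae
      filter_upwards with ω
      simp
    have e2 : eLpNorm (fun ω => e (U ω)) (ENNReal.ofReal q) μ =
        eLpNorm U (ENNReal.ofReal q) μ := by
      apply eLpNorm_congr_norm_ae
      filter_upwards with ω
      simp
    rw [e1]
    rw [e2] at hn
    exact hn

end Pool.Agent.R876.WM
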