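import Pool.Agent.R876.WM.TAY

/-!
Project WM, piece AVG (helper731): averages over the angle gain one power of `J`.
-/

open MeasureTheory Set
open scoped Topology

universe u v

namespace Pool.Agent.R876.WM

namespace SB

variable {X : Type*} [NormedAddCommGroup X] [NormedSpace ℝ X] {T : ℝ → X →L[ℝ] X}
  {J : X →L[ℝ] X}

theorem contOn_smul (hT : Semi T) {c s : ℝ → ℝ} {a b : ℝ} (hc : ContinuousOn c (Icc a b))
    (hs : ContinuousOn s (Icc a b)) (hs0 : ∀ θ ∈ Icc a b, 0 ≤ s θ) (f : X) :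
    ContinuousOn (fun θ => c θ • T (s θ) f) (Icc a b) := by
  refine hc.smul ?_
  exact (hT.cont f).comp hs (fun θ hθ => hs0 θ hθ)

theorem ii (hT : Semi T) {c s : ℝ → ℝ} {a b : ℝ} (hab : a ≤ b) (hc : ContinuousOn c (Icc a b))
    (hs : ContinuousOn s (Icc a b)) (hs0 : ∀ θ ∈ Icc a b, 0 ≤ s θ) (f : X) :
    IntervalIntegrable (fun θ => c θ • T (s θ) f) volume a b := by
  have := contOn_smul hT hc hs hs0 f
  rw [← uIcc_of_le hab] at this
  exact this.intervalIntegrable

theorem exists_op (hT : Semi T) {c s : ℝ → ℝ} {a b M : ℝ} (hab : a ≤ b)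
    (hc : ContinuousOn c (Icc a b))
    (hs : ContinuousOn s (Icc a b)) (hs0 : ∀ θ ∈ Icc a b, 0 ≤ s θ)
    (hM0 : 0 ≤ M) (hM : ∀ θ ∈ Icc a b, |c θ| ≤ M) :
    ∃ A : X →L[ℝ] X, ‖A‖ ≤ M * (b - a) ∧ ∀ f, A f = ∫ θ in a..b, c θ • T (s θ) f := by
  let L : X →ₗ[ℝ] X :=
    { toFun := fun f => ∫ θ in a..b, c θ • T (s θ) f
      map_add' := fun f g => by
        simp only [map_add, smul_add]
        exact intervalIntegral.integral_add (ii hT hab hc hs hs0 f) (ii hT hab hc hs hs0 g)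
      map_smul' := fun r f => by
        simp only [map_smul, RingHom.id_apply]
        rw [← intervalIntegral.integral_smul]
        congr 1
        ext θ
        rw [smul_comm] }
  have hL : ∀ f, ‖L f‖ ≤ (M * (b - a)) * ‖f‖ := by
    intro f
    have h := intervalIntegral.norm_integral_le_of_norm_le_const (a := a) (b := b)
      (f := fun θ => c θ • T (s θ) f) (C := M * ‖f‖) (fun θ hθ => by
        rw [uIoc_of_le hab] at hθ
        have hθ' : θ ∈ Icc a b := ⟨hθ.1.le, hθ.2⟩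
        rw [norm_smul, Real.norm_eq_abs]
        exact mul_le_mul (hM θ hθ') (norm_T_le hT (hs0 θ hθ') f) (norm_nonneg _) hM0)
    rw [abs_of_nonneg (by linarith : 0 ≤ b - a)] at h
    calc ‖L f‖ ≤ M * ‖f‖ * (b - a) := h
      _ = (M * (b - a)) * ‖f‖ := by ring
  refine ⟨L.mkContinuous (M * (b - a)) hL, ?_, fun f => rfl⟩
  exact LinearMap.mkContinuous_norm_le _ (mul_nonneg hM0 (by linarith)) _

end SB

theorem tau_pos {α : ℝ} (h0 : 0 < α) (h1 : α ≤ 1) : 0 < tau α := by
  have hpi := Real.pi_gt_three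
  have hc : 0 < Real.cos α := Real.cos_pos_of_mem_Ioo ⟨by linarith, by linarith⟩
  have hc1 : Real.cos α < 1 := by
    rw [← Real.cos_zero]
    exact Real.cos_lt_cos_of_nonneg_of_le_pi (le_refl _) (by linarith) h0
  unfold tau
  have := Real.log_neg hc hc1
  linarith

theorem tau_deriv {α : ℝ} (h0 : 0 < α) (h1 : α ≤ 1) :
    HasDerivAt tau (Real.sin α / Real.cos α) α := by
  have hpi := Real.pi_gt_three
  have hc : 0 < Real.cos α := Real.cos_pos_of_mem_Ioo ⟨by linarith, by linarith⟩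
  have h := ((Real.hasDerivAt_cos α).log hc.ne').neg
  refine h.congr_deriv ?_
  rw [neg_div, neg_neg]

theorem avg_thm : S_AVG.{v} := by
  intro X _ _ _ T J hT hJ
  have hcomm : ∀ t, 0 ≤ t → J.comp (T t) = (T t).comp J := by
    intro t ht
    ext f
    exact SB.J_comm hT hJ f ht
  refine ⟨hcomm, ?_⟩
  intro i ε hi hε hiε
  have hi1 : (1 : ℝ) ≤ (i : ℝ) := by exact_mod_cast hi
  have hi0 : (0 : ℝ) < (i : ℝ) := by linarith
  have hε2 : ε ≤ 1 / 2 := by nlinarith
  have hab : ε ≤ 2 * ε := by linarith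
  have hpi := Real.pi_gt_three
  -- range of the angle
  have hrng : ∀ θ ∈ Icc ε (2 * ε), ε ≤ i * θ ∧ 0 < i * θ ∧ i * θ ≤ 1 := by
    intro θ hθ
    have h1 : ε ≤ i * θ := by nlinarith [hθ.1]
    refine ⟨h1, by linarith, ?_⟩
    have := mul_le_mul_of_nonneg_left hθ.2 hi0.le
    nlinarith
  have hcos : ∀ θ ∈ Icc ε (2 * ε), 0 < Real.cos (i * θ) := fun θ hθ =>
    Real.cos_pos_of_mem_Ioo ⟨by linarith [(hrng θ hθ).2.1], by linarith [(hrng θ hθ).2.2]⟩
  have hsin : ∀ θ ∈ Icc ε (2 * ε), 3 / 4 * ε ≤ Real.sin (i * θ) := by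
    intro θ hθ
    obtain ⟨h1, h2, h3⟩ := hrng θ hθ
    have h4 := Real.sin_gt_sub_cube h2
    have h5 : (i * θ) ^ 3 ≤ i * θ := by
      have : (i * θ) ^ 2 ≤ 1 := by nlinarith
      nlinarith
    nlinarith
  have hsin0 : ∀ θ ∈ Icc ε (2 * ε), 0 < Real.sin (i * θ) := fun θ hθ => by
    have := hsin θ hθ
    nlinarith
  have hs0 : ∀ θ ∈ Icc ε (2 * ε), 0 ≤ tau (i * θ) := fun θ hθ =>
    (tau_pos (hrng θ hθ).2.1 (hrng θ hθ).2.2).le
  have htd : ∀ θ ∈ Icc ε (2 * ε), HasDerivAt (fun θ : ℝ => tau (i * θ))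
      (Real.sin (i * θ) / Real.cos (i * θ) * i) θ := by
    intro θ hθ
    have h1 := tau_deriv (hrng θ hθ).2.1 (hrng θ hθ).2.2
    have h2 : HasDerivAt (fun θ : ℝ => (i : ℝ) * θ) (i : ℝ) θ := by
      simpa using (hasDerivAt_id θ).const_mul (i : ℝ)
    exact h1.comp θ h2
  have hsc : ContinuousOn (fun θ : ℝ => tau (i * θ)) (Icc ε (2 * ε)) := fun θ hθ =>
    (htd θ hθ).continuousAt.continuousWithinAt
  -- the two integral operators
  obtain ⟨A1, hA1, hA1'⟩ := SB.exists_op hT (c := fun _ => 1) (s := fun θ => tau (i * θ)) (M := 1)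
    hab continuousOn_const hsc hs0 zero_le_one (fun θ _ => by simp)
  have hcc : ContinuousOn (fun θ : ℝ => (1 / Real.sin (i * θ) ^ 2)) (Icc ε (2 * ε)) := by
    refine ContinuousOn.div continuousOn_const (by fun_prop) fun θ hθ => ?_
    exact (pow_pos (hsin0 θ hθ) 2).ne'
  obtain ⟨A2, hA2, hA2'⟩ := SB.exists_op hT (c := fun θ => 1 / Real.sin (i * θ) ^ 2)
    (s := fun θ => tau (i * θ)) (M := 16 / (9 * ε ^ 2))
    hab hcc hsc hs0 (by positivity) (fun θ hθ => by
      have h1 := hsin θ hθ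
      have h2 := hsin0 θ hθ
      rw [abs_of_pos (by positivity)]
      rw [div_le_div_iff₀ (by positivity) (by positivity)]
      nlinarith)
  have he1 : ε ∈ Icc ε (2 * ε) := ⟨le_refl _, hab⟩
  have he2 : 2 * ε ∈ Icc ε (2 * ε) := ⟨hab, le_refl _⟩
  -- cotangents
  set c : ℝ → ℝ := fun θ => Real.cos (i * θ) / Real.sin (i * θ) / i with hcdef
  have hc0 : ∀ θ ∈ Icc ε (2 * ε), |c θ| ≤ 4 / (3 * ε) := by
    intro θ hθ
    have h1 := hsin θ hθ
    have h2 := hsin0 θ hθ
    have h3 := hcos θ hθ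
    have h4 : Real.cos (i * θ) ≤ 1 := Real.cos_le_one _
    rw [hcdef]
    simp only
    rw [abs_of_pos (by positivity), div_div, div_le_div_iff₀ (by positivity) (by positivity)]
    have h5 : 3 / 4 * ε * 1 ≤ Real.sin (i * θ) * i := mul_le_mul h1 hi1 (by norm_num) h2.le
    nlinarith
  set a : X →L[ℝ] X := (1 / ε) • (A1 - (c (2 * ε) • T (tau (i * (2 * ε))) -
    c ε • T (tau (i * ε))) - A2) with hadef
  have haf : ∀ f, a f = (1 / ε) • ((∫ θ in ε..(2 * ε), (1 : ℝ) • T (tau (i * θ)) f) -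
      (c (2 * ε) • T (tau (i * (2 * ε))) f - c ε • T (tau (i * ε)) f) -
      ∫ θ in ε..(2 * ε), (1 / Real.sin (i * θ) ^ 2) • T (tau (i * θ)) f) := by
    intro f
    rw [hadef]
    simp only [ContinuousLinearMap.smul_apply, ContinuousLinearMap.sub_apply, hA1', hA2']
  have hacomm : ∀ B : X →L[ℝ] X, (∀ t, 0 ≤ t → B.comp (T t) = (T t).comp B) →
      ∀ f, a (B f) = B (a f) := by
    intro B hB f
    have hB' : ∀ t, 0 ≤ t → ∀ f, B (T t f) = T t (B f) := fun t ht f =>
      congrArg (fun A : X →L[ℝ] X => A f) (hB t ht)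
    rw [haf, haf, map_smul, map_sub, map_sub, map_sub, map_smul, map_smul,
      hB' _ (hs0 _ he1), hB' _ (hs0 _ he2)]
    congr 2
    · congr 1
      rw [← ContinuousLinearMap.intervalIntegral_comp_comm]
      · refine intervalIntegral.integral_congr fun θ hθ => ?_
        rw [uIcc_of_le hab] at hθ
        simp only [map_smul]
        rw [hB' _ (hs0 θ hθ)]
      · exact SB.ii hT hab continuousOn_const hsc hs0 f
    · rw [← ContinuousLinearMap.intervalIntegral_comp_comm]
      · refine intervalIntegral.integral_congr fun θ hθ => ?_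
        rw [uIcc_of_le hab] at hθ
        simp only [map_smul]
        rw [hB' _ (hs0 θ hθ)]
      · exact SB.ii hT hab hcc hsc hs0 f
  refine ⟨a, ?_, ?_, ?_⟩
  · -- norm bound
    have h1 : ‖c (2 * ε) • T (tau (i * (2 * ε)))‖ ≤ 4 / (3 * ε) := by
      rw [norm_smul, Real.norm_eq_abs]
      have := mul_le_mul (hc0 _ he2) (hT.norm_le _ (hs0 _ he2)) (norm_nonneg _)
        (by positivity : (0 : ℝ) ≤ 4 / (3 * ε))
      simpa using this
    have h2 : ‖c ε • T (tau (i * ε))‖ ≤ 4 / (3 * ε) := by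
      rw [norm_smul, Real.norm_eq_abs]
      have := mul_le_mul (hc0 _ he1) (hT.norm_le _ (hs0 _ he1)) (norm_nonneg _)
        (by positivity : (0 : ℝ) ≤ 4 / (3 * ε))
      simpa using this
    have h3 : ‖A1 - (c (2 * ε) • T (tau (i * (2 * ε))) - c ε • T (tau (i * ε))) - A2‖ ≤
        1 * (2 * ε - ε) + (4 / (3 * ε) + 4 / (3 * ε)) + 16 / (9 * ε ^ 2) * (2 * ε - ε) := by
      refine (norm_sub_le _ _).trans (add_le_add ((norm_sub_le _ _).trans (add_le_add hA1 ?_)) hA2)
      exact (norm_sub_le _ _).trans (add_le_add h1 h2)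
    rw [hadef, norm_smul, Real.norm_eq_abs, abs_of_pos (by positivity)]
    refine (mul_le_mul_of_nonneg_left h3 (by positivity)).trans ?_
    have e : 1 / ε * (1 * (2 * ε - ε) + (4 / (3 * ε) + 4 / (3 * ε)) +
        16 / (9 * ε ^ 2) * (2 * ε - ε)) = 1 + (40 / 9) / ε ^ 2 := by
      field_simp
      ring
    rw [e]
    have : (1 : ℝ) ≤ (1 / 4) / ε ^ 2 := by
      rw [le_div_iff₀ (by positivity)]
      nlinarith
    have h10 : (10 : ℝ) / ε ^ 2 = (1 / 4) / ε ^ 2 + (40 / 9) / ε ^ 2 + (191 / 36) / ε ^ 2 := by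
      ring
    rw [h10]
    have : 0 ≤ (191 / 36) / ε ^ 2 := by positivity
    linarith
  · -- the identity
    intro f
    rw [← hacomm J (fun t ht => hcomm t ht) f, haf]
    congr 1
    -- derivative of `c θ • T (tau (i θ)) (J f)`
    have hd : ∀ θ ∈ uIcc ε (2 * ε), HasDerivAt (fun θ => c θ • T (tau (i * θ)) (J f))
        ((1 : ℝ) • T (tau (i * θ)) (J f) - (1 / Real.sin (i * θ) ^ 2) • T (tau (i * θ)) (J f)
          - T (tau (i * θ)) f) θ := by
      intro θ hθ'
      rw [uIcc_of_le hab] at hθ'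
      have hs' := hsin0 θ hθ'
      have hc' := hcos θ hθ'
      have hlin : HasDerivAt (fun θ : ℝ => (i : ℝ) * θ) (i : ℝ) θ := by
        simpa using (hasDerivAt_id θ).const_mul (i : ℝ)
      have hdc : HasDerivAt c (-(1 / Real.sin (i * θ) ^ 2)) θ := by
        have h1 := ((Real.hasDerivAt_cos (i * θ)).comp θ hlin)
        have h2 := ((Real.hasDerivAt_sin (i * θ)).comp θ hlin)
        have h3 := (h1.div h2 hs'.ne').div_const (i : ℝ)
        refine h3.congr_deriv ?_
        simp only [Function.comp]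
        have hsq := Real.sin_sq_add_cos_sq (i * θ)
        field_simp
        nlinarith
      have hdT : HasDerivAt (fun θ => T (tau (i * θ)) (J f))
          ((Real.sin (i * θ) / Real.cos (i * θ) * i) •
            (T (tau (i * θ)) (J f) - T (tau (i * θ)) f)) θ := by
        have h1 := SB.hasDeriv_T_J hT hJ f (tau_pos (hrng θ hθ').2.1 (hrng θ hθ').2.2)
        exact HasDerivAt.scomp θ h1 (htd θ hθ')
      have h := hdc.smul hdT
      refine h.congr_deriv ?_
      rw [smul_smul]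
      have e : c θ * (Real.sin (i * θ) / Real.cos (i * θ) * i) = 1 := by
        rw [hcdef]
        simp only
        field_simp
      rw [e]
      simp only [one_smul, neg_smul]
      abel
    have hi1' : IntervalIntegrable (fun θ => (1 : ℝ) • T (tau (i * θ)) (J f)) volume ε (2 * ε) :=
      SB.ii hT hab continuousOn_const hsc hs0 (J f)
    have hi2' : IntervalIntegrable (fun θ => (1 / Real.sin (i * θ) ^ 2) • T (tau (i * θ)) (J f))
        volume ε (2 * ε) := SB.ii hT hab hcc hsc hs0 (J f)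
    have hi3' : IntervalIntegrable (fun θ => T (tau (i * θ)) f) volume ε (2 * ε) := by
      have := SB.ii hT hab (c := fun _ => (1 : ℝ)) continuousOn_const hsc hs0 f
      simpa using this
    have hF := intervalIntegral.integral_eq_sub_of_hasDerivAt hd ((hi1'.sub hi2').sub hi3')
    rw [intervalIntegral.integral_sub (hi1'.sub hi2') hi3',
      intervalIntegral.integral_sub hi1' hi2'] at hF
    rw [← hF]
    abel
  · intro B hB
    ext f
    simp only [ContinuousLinearMap.comp_apply]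
    exact hacomm B hB f

end Pool.Agent.R876.WM
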