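import Pool.Agent.R876.WM.Defs

/-!
Project WM: statements of the pieces.  Proofs in NOTES.md.
-/

open MeasureTheory ProbabilityTheory Set
open scoped ENNReal NNReal Topology

universe u v w

namespace Pool.Agent.R876.WM

section Gauss

variable {Ω : Type u} [NormedAddCommGroup Ω] [NormedSpace ℝ Ω] [MeasurableSpace Ω]

/-- MP: measure preserving maps -/
def S_MP (μ : Measure Ω) : Prop :=
  (∀ θ : ℝ, MeasurePreserving (fun z : Ω × Ω => Real.cos θ • z.1 + Real.sin θ • z.2)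
    (μ.prod μ) μ) ∧
  (∀ θ : ℝ, MeasurePreserving (fun z : Ω × Ω =>
      (Real.cos θ • z.1 + Real.sin θ • z.2, -Real.sin θ • z.1 + Real.cos θ • z.2))
    (μ.prod μ) (μ.prod μ))

variable (E : Type v) [NormedAddCommGroup E] [NormedSpace ℝ E]

/-- OPL: `P_t` on `L^p` -/
def S_OPL (μ : Measure Ω) : Prop :=
  ∀ p : ℝ≥0∞, 1 ≤ p → p ≠ ∞ → ∀ t : ℝ, 0 ≤ t →
    (∀ f : Ω → E, MemLp f p μ → MemLp (ou μ t f) p μ ∧ eLpNorm (ou μ t f) p μ ≤ eLpNorm f p μ) ∧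
    (∀ f g : Ω → E, f =ᵐ[μ] g → ou μ t f =ᵐ[μ] ou μ t g) ∧
    (∀ f g : Ω → E, MemLp f p μ → MemLp g p μ →
      ou μ t (fun x => f x + g x) =ᵐ[μ] fun x => ou μ t f x + ou μ t g x) ∧
    (∀ (c : ℝ) (f : Ω → E), ou μ t (fun x => c • f x) = fun x => c • ou μ t f x)

/-- OPS: semigroup law -/
def S_OPS (μ : Measure Ω) : Prop :=
  ∀ f : Ω → E, MemLp f 1 μ → ∀ s t : ℝ, 0 ≤ s → 0 ≤ t →
    ou μ s (ou μ t f) =ᵐ[μ] ou μ (s + t) f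

/-- OPC: strong continuity at `0` -/
def S_OPC (μ : Measure Ω) : Prop :=
  ∀ p : ℝ≥0∞, 1 ≤ p → p ≠ ∞ → ∀ f : Ω → E, MemLp f p μ → ∀ ε : ℝ≥0∞, 0 < ε →
    ∃ δ : ℝ, 0 < δ ∧ ∀ t : ℝ, 0 ≤ t → t ≤ δ → eLpNorm (fun x => ou μ t f x - f x) p μ ≤ ε

/-- OP: `P_t` as a contraction semigroup of operators on `L^p` -/
def S_OP (μ : Measure Ω) : Prop :=
  ∀ (p : ℝ≥0∞) [Fact (1 ≤ p)], p ≠ ∞ → ∃ T : ℝ → Lp E p μ →L[ℝ] Lp E p μ, Semi T ∧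
    ∀ t, 0 ≤ t → ∀ f : Lp E p μ, ((T t f : Lp E p μ) : Ω → E) =ᵐ[μ] ou μ t f

/-- BRI: the pointwise Bessel potential is the Bochner integral in `L^p` -/
def S_BRI (μ : Measure Ω) : Prop :=
  ∀ (p : ℝ≥0∞) [Fact (1 ≤ p)], p ≠ ∞ → ∀ T : ℝ → Lp E p μ →L[ℝ] Lp E p μ, Semi T →
    (∀ t, 0 ≤ t → ∀ f : Lp E p μ, ((T t f : Lp E p μ) : Ω → E) =ᵐ[μ] ou μ t f) →
    ∀ a : ℝ, 0 < a → ∀ U : Lp E p μ,
      ((∫ t in Set.Ioi (0 : ℝ), (t ^ (a - 1) * Real.exp (-t) / Real.Gamma a) • T t U :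
        Lp E p μ) : Ω → E) =ᵐ[μ] bes μ a U

/-- OUL: the operator package -/
def S_OUL (μ : Measure Ω) : Prop :=
  ∀ (p : ℝ≥0∞) [Fact (1 ≤ p)], p ≠ ∞ →
    ∃ (T : ℝ → Lp E p μ →L[ℝ] Lp E p μ) (J : Lp E p μ →L[ℝ] Lp E p μ), OUL μ E p T J

/-- POT: contraction and factorisation of the Bessel potentials -/
def S_POT (μ : Measure Ω) : Prop :=
  ∀ p : ℝ≥0∞, 1 ≤ p → p ≠ ∞ →
    (∀ (r : ℕ) (U V : Ω → E), U =ᵐ[μ] V → pot μ r U =ᵐ[μ] pot μ r V) ∧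
    (∀ (r : ℕ) (U : Ω → E), MemLp U p μ → MemLp (pot μ r U) p μ ∧
      eLpNorm (pot μ r U) p μ ≤ eLpNorm U p μ) ∧
    (∀ (r m : ℕ), r ≤ 2 * m → ∀ U : Ω → E, MemLp U p μ → ∃ U' : Ω → E, MemLp U' p μ ∧
      eLpNorm U' p μ ≤ eLpNorm U p μ ∧ pot μ (2 * m) U =ᵐ[μ] pot μ r U')

/-- CE: taking the expectation in the second variable -/
def S_CE (μ : Measure Ω) : Prop :=
  ∀ (p : ℝ≥0∞) [Fact (1 ≤ p)], p ≠ ∞ → ∀ T : ℝ → Lp E p μ →L[ℝ] Lp E p μ,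
    (∀ t, 0 ≤ t → ∀ f : Lp E p μ, ((T t f : Lp E p μ) : Ω → E) =ᵐ[μ] ou μ t f) →
    ∀ (f : Lp E p μ) (K : ℕ) (θ : ℝ), 1 ≤ K → 0 < θ → θ ≤ 1 / (2 * (K : ℝ)) →
      ENNReal.ofReal ‖∑ i ∈ Finset.range (K + 1), ((-1 : ℝ) ^ (K - i) * (K.choose i : ℝ)) •
        T (tau (i * θ)) f‖ ≤ eLpNorm (dif K θ (f : Ω → E)) p (μ.prod μ)

/-- DIFL: the differences in `L^p` -/
def S_DIFL (μ : Measure Ω) : Prop :=
  ∀ p : ℝ≥0∞, 1 ≤ p → ∀ f : Ω → E, MemLp f p μ → ∀ (K : ℕ) (θ : ℝ),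
    MemLp (dif K θ f) p (μ.prod μ) ∧
    eLpNorm (dif K θ f) p (μ.prod μ) ≤ ENNReal.ofReal (2 ^ K) * eLpNorm f p μ

/-- SMD: rotation smoothness implies Sobolev smoothness -/
def S_SMD (μ : Measure Ω) : Prop :=
  ∀ p : ℝ≥0∞, 1 ≤ p → p ≠ ∞ → ∀ m K j : ℕ, 1 ≤ K → 2 * m < j →
    ∃ C : ℝ, 0 ≤ C ∧ ∀ (f : Ω → E) (D : ℝ), 0 ≤ D → MemLp f p μ →
      (∀ θ : ℝ, 0 < θ → θ ≤ 1 / (2 * (K : ℝ)) →
        eLpNorm (dif K θ f) p (μ.prod μ) ≤ ENNReal.ofReal (D * θ ^ j)) →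
      ∃ U : Ω → E, MemLp U p μ ∧ f =ᵐ[μ] pot μ (2 * m) U ∧
        eLpNorm U p μ ≤ ENNReal.ofReal (C * (D + (eLpNorm f p μ).toReal))

/-- L3: uniform version of SMD -/
def S_L3 (μ : Measure Ω) : Prop :=
  ∀ p : ℕ, 2 ≤ p → ∀ S : Set (Ω → E), UB μ p S → USm μ p S → UD μ p S

/-- LYA: log-convexity of the norms (`p ≥ 2` and `2 p`) -/
def S_LYA (E : Type v) [NormedAddCommGroup E] : Prop :=
  ∀ {α : Type u} [MeasurableSpace α] (ν : Measure α) (g : α → E),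
    AEStronglyMeasurable g ν → ∀ p : ℕ, 2 ≤ p →
    eLpNorm g (p : ℝ≥0∞) ν ≤ (eLpNorm g 2 ν) ^ (1 / ((p : ℝ) - 1)) *
      (eLpNorm g ((2 * p : ℕ) : ℝ≥0∞) ν) ^ (1 - 1 / ((p : ℝ) - 1))

end Gauss

section Hilb

variable {Ω : Type u} [NormedAddCommGroup Ω] [NormedSpace ℝ Ω] [MeasurableSpace Ω]
variable (E : Type v) [NormedAddCommGroup E] [InnerProductSpace ℝ E]

/-- IPR: inner products of rotated functions -/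
def S_IPR (μ : Measure Ω) : Prop :=
  ∀ f : Ω → E, MemLp f 2 μ → ∀ α β : ℝ, |α - β| ≤ 1 →
    ∫ z : Ω × Ω, inner ℝ (f (Real.cos α • z.1 + Real.sin α • z.2))
      (f (Real.cos β • z.1 + Real.sin β • z.2)) ∂(μ.prod μ) =
    ∫ x, inner ℝ (ou μ (tau (α - β)) f x) (f x) ∂μ

/-- D2S: Sobolev smoothness implies rotation smoothness in `L²` -/
def S_D2S (μ : Measure Ω) : Prop :=
  ∀ K : ℕ, 1 ≤ K → ∃ C : ℝ, 0 ≤ C ∧ ∀ U f : Ω → E, MemLp U 2 μ → f =ᵐ[μ] pot μ (2 * K) U →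
    ∀ θ : ℝ, 0 < θ → θ ≤ 1 / (2 * (K : ℝ)) →
      eLpNorm (dif K θ f) 2 (μ.prod μ) ≤ ENNReal.ofReal (C * θ ^ K) * eLpNorm U 2 μ

/-- L1: uniform version of D2S in every `L^p` -/
def S_L1 (μ : Measure Ω) : Prop :=
  ∀ S : Set (Ω → E), (∀ p : ℕ, 2 ≤ p → UB μ p S) → UD μ 2 S → ∀ p : ℕ, 2 ≤ p → USm μ p S

end Hilb

section Prod

variable {Ω : Type u} [NormedAddCommGroup Ω] [NormedSpace ℝ Ω] [MeasurableSpace Ω]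
variable (E F : Type v) [NormedAddCommGroup E] [NormedSpace ℝ E]
  [NormedAddCommGroup F] [NormedSpace ℝ F]

/-- LEIB: Leibniz rule for the differences -/
def S_LEIB (Ω : Type u) [NormedAddCommGroup Ω] [NormedSpace ℝ Ω] : Prop :=
  ∀ (B : E →L[ℝ] E →L[ℝ] F) (V : Ω → E) (K : ℕ) (θ : ℝ) (z : Ω × Ω),
    dif K θ (fun ω => B (V ω) (V ω)) z =
      ∑ j ∈ Finset.range (K + 1), (K.choose j : ℝ) •
        B (dif j θ V z) (dif (K - j) θ V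
          (Real.cos (j * θ) • z.1 + Real.sin (j * θ) • z.2,
            -Real.sin (j * θ) • z.1 + Real.cos (j * θ) • z.2))

/-- PROD: products of rotation smooth functions -/
def S_PROD (μ : Measure Ω) : Prop :=
  ∀ (B : E →L[ℝ] E →L[ℝ] F), (∀ v w, ‖B v w‖ ≤ ‖v‖ * ‖w‖) → ∀ (S : Set (Ω → E)) (p : ℕ), 2 ≤ p →
    UB μ (2 * p) S → USm μ (2 * p) S →
    UB μ p {W : Ω → F | ∃ V ∈ S, W = fun ω => B (V ω) (V ω)} ∧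
    USm μ p {W : Ω → F | ∃ V ∈ S, W = fun ω => B (V ω) (V ω)}

/-- SLC: the potentials commute with continuous linear maps -/
def S_SLC (μ : Measure Ω) : Prop :=
  ∀ p : ℝ≥0∞, 1 ≤ p → p ≠ ∞ → ∀ (l : E →L[ℝ] F) (r : ℕ) (U : Ω → E), MemLp U p μ →
    (fun ω => l (pot μ r U ω)) =ᵐ[μ] pot μ r (fun ω => l (U ω))

end Prod

section Tens

variable {Ω : Type u} [NormedAddCommGroup Ω] [NormedSpace ℝ Ω] [MeasurableSpace Ω]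

/-- H1: ampliation -/
def S_H1 (μ : Measure Ω) (E : Type v) [NormedAddCommGroup E] [InnerProductSpace ℝ E]
    [CompleteSpace E] : Prop :=
  ∀ (κ : Type v) [Countable κ] (A : Ω → (E →L[ℝ] E)), CtsD2 μ A →
    ∀ A' : Ω → (lp (fun _ : κ => E) 2 →L[ℝ] lp (fun _ : κ => E) 2),
      (∀ ω M k, (A' ω M : κ → E) k = A ω ((M : κ → E) k)) → CtsD2 μ A'

/-- CONJ: invariance under isometries -/
def S_CONJ (μ : Measure Ω) : Prop :=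
  ∀ (E F : Type v) [NormedAddCommGroup E] [InnerProductSpace ℝ E] [CompleteSpace E]
    [NormedAddCommGroup F] [InnerProductSpace ℝ F] [CompleteSpace F] (e : E ≃ₗᵢ[ℝ] F),
    (∀ (p : ℝ≥0∞) (r : ℕ) (V U : Ω → E), IsD μ p r V U →
      IsD μ p r (fun ω => e (V ω)) (fun ω => e (U ω))) ∧
    (∀ A : Ω → (E →L[ℝ] E), CtsD2 μ A →
      CtsD2 μ (fun ω => (e.toContinuousLinearEquiv : E →L[ℝ] F).comp
        ((A ω).comp (e.symm.toContinuousLinearEquiv : F →L[ℝ] E))))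

/-- COMP: composition -/
def S_COMP (μ : Measure Ω) (E : Type v) [NormedAddCommGroup E] [InnerProductSpace ℝ E]
    [CompleteSpace E] : Prop :=
  ∀ A B : Ω → (E →L[ℝ] E), CtsD2 μ A → CtsD2 μ B → CtsD2 μ (fun ω => (A ω).comp (B ω))

/-- CUR: currying of `ℓ²` -/
def S_CUR : Prop :=
  ∀ κ I : Type v, ∃ e : L2 (κ × I) ≃ₗᵢ[ℝ] lp (fun _ : κ => L2 I) 2,
    ∀ (M : L2 (κ × I)) (k : κ) (i : I), (((e M : κ → L2 I) k : L2 I) : I → ℝ) i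
      = (M : κ × I → ℝ) (k, i)

/-- FLIP -/
def S_FLIP : Prop :=
  ∀ κ I : Type v, ∃ e : L2 (κ × I) ≃ₗᵢ[ℝ] L2 (I × κ),
    ∀ (M : L2 (κ × I)) (k : κ) (i : I), (e M : I × κ → ℝ) (i, k) = (M : κ × I → ℝ) (k, i)

/-- AMP: ampliation of an operator -/
def S_AMP : Prop :=
  ∀ (κ E : Type v) [NormedAddCommGroup E] [InnerProductSpace ℝ E] [CompleteSpace E]
    (T : E →L[ℝ] E), ∃ T' : lp (fun _ : κ => E) 2 →L[ℝ] lp (fun _ : κ => E) 2,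
      ∀ M k, (T' M : κ → E) k = T ((M : κ → E) k)

/-- TEN: tensor product of vectors -/
def S_TEN : Prop :=
  ∀ I : Type v, ∃ B : L2 I →L[ℝ] L2 I →L[ℝ] L2 (I × I),
    (∀ v w i j, (B v w : I × I → ℝ) (i, j) = (v : I → ℝ) i * (w : I → ℝ) j) ∧
    (∀ v w, ‖B v w‖ = ‖v‖ * ‖w‖)

/-- TENA: the operator `A ⊗ A` -/
def S_TENA (μ : Measure Ω) : Prop :=
  ∀ (I : Type v) [Countable I] (B : L2 I →L[ℝ] L2 I →L[ℝ] L2 (I × I)),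
    (∀ v w i j, (B v w : I × I → ℝ) (i, j) = (v : I → ℝ) i * (w : I → ℝ) j) →
    ∀ A : Ω → (L2 I →L[ℝ] L2 I), CtsD2 μ A →
      ∃ A₂ : Ω → (L2 (I × I) →L[ℝ] L2 (I × I)), CtsD2 μ A₂ ∧
        ∀ ω v w, A₂ ω (B v w) = B (A ω v) (A ω w)

/-- L4: `A` maps bounded sets of `D^2_∞` to bounded sets of `D^2_∞` -/
def S_L4 (μ : Measure Ω) (E : Type v) [NormedAddCommGroup E] [NormedSpace ℝ E] : Prop :=
  ∀ A : Ω → (E →L[ℝ] E), CtsD2 μ A → ∀ S : Set (Ω → E), UD μ 2 S →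
    UD μ 2 {W : Ω → E | ∃ V ∈ S, W = fun ω => A ω (V ω)}

/-- IND: `A` maps bounded sets of `D^∞` to bounded sets of `L^p` -/
def S_IND (μ : Measure Ω) : Prop :=
  ∀ (k : ℕ) (I : Type v) [Countable I] (A : Ω → (L2 I →L[ℝ] L2 I)), CtsD2 μ A →
    ∀ S : Set (Ω → L2 I), (∀ p : ℕ, 2 ≤ p → UB μ p S) → UD μ 2 S →
      UB μ (2 ^ (k + 1)) {W : Ω → L2 I | ∃ V ∈ S, W = fun ω => A ω (V ω)}

/-- FINA: continuity from boundedness -/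
def S_FINA (μ : Measure Ω) (E : Type v) [NormedAddCommGroup E] [NormedSpace ℝ E] : Prop :=
  ∀ A : Ω → (E →L[ℝ] E),
    (∀ S : Set (Ω → E), (∀ p : ℕ, 2 ≤ p → UB μ p S) → UD μ 2 S →
      ∀ p : ℕ, 2 ≤ p → UD μ p {W : Ω → E | ∃ V ∈ S, W = fun ω => A ω (V ω)}) →
    IsMult μ A

end Tens

section Abstract

/-- BOP: fractional Bessel potentials of a contraction semigroup -/
def S_BOP : Prop :=
  ∀ (X : Type v) [NormedAddCommGroup X] [NormedSpace ℝ X] [CompleteSpace X]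
    (T : ℝ → X →L[ℝ] X), Semi T →
    ∃ (B : ℝ → X →L[ℝ] X) (J : X →L[ℝ] X), IsJ T J ∧ ‖J‖ ≤ 1 ∧
      (∀ a, 0 < a → ‖B a‖ ≤ 1 ∧
        ∀ f, B a f = ∫ t in Set.Ioi (0 : ℝ),
          (t ^ (a - 1) * Real.exp (-t) / Real.Gamma a) • T t f) ∧
      (∀ a b, 0 < a → 0 < b → (B a).comp (B b) = B (a + b)) ∧
      (∀ m : ℕ, 1 ≤ m → J ^ m = B m)

/-- AVG: averages over the angle gain one power of `J` -/
def S_AVG : Prop :=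
  ∀ (X : Type v) [NormedAddCommGroup X] [NormedSpace ℝ X] [CompleteSpace X]
    (T : ℝ → X →L[ℝ] X) (J : X →L[ℝ] X), Semi T → IsJ T J →
    (∀ t, 0 ≤ t → J.comp (T t) = (T t).comp J) ∧
    ∀ (i : ℕ) (ε : ℝ), 1 ≤ i → 0 < ε → 2 * i * ε ≤ 1 →
      ∃ a : X →L[ℝ] X, ‖a‖ ≤ 10 / ε ^ 2 ∧
        (∀ f, J (a f) = (1 / ε) • ∫ θ in ε..(2 * ε), T (tau (i * θ)) f) ∧
        (∀ B : X →L[ℝ] X, (∀ t, 0 ≤ t → B.comp (T t) = (T t).comp B) → a.comp B = B.comp a)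

/-- ABS: dyadic summation -/
def S_ABS : Prop :=
  ∀ (C M : ℝ) (m j : ℕ), 0 ≤ C → 0 ≤ M → 2 * m < j → ∃ C' : ℝ, 0 ≤ C' ∧
    ∀ (X : Type v) [NormedAddCommGroup X] [NormedSpace ℝ X] [CompleteSpace X]
      (J : X →L[ℝ] X) (a : ℕ → X →L[ℝ] X) (G : X) (D : ℝ), 0 ≤ D → ‖J‖ ≤ 1 →
      (∀ i, J.comp (a i) = (a i).comp J) →
      (∀ i k, (a i).comp (a k) = (a k).comp (a i)) →
      (∀ i, ‖a i‖ ≤ C * 4 ^ i) → (∀ i, ‖J.comp (a i)‖ ≤ M) →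
      (∀ i, ‖G - J (a i G)‖ ≤ D * (1 / 2 ^ i) ^ j) →
      ∃ U : X, (J ^ m) U = G ∧ ‖U‖ ≤ C' * (D + ‖G‖)

/-- TAY: Taylor expansion of the semigroup -/
def S_TAY : Prop :=
  ∀ (X : Type v) [NormedAddCommGroup X] [NormedSpace ℝ X] [CompleteSpace X]
    (T : ℝ → X →L[ℝ] X) (J : X →L[ℝ] X), Semi T → IsJ T J → ‖J‖ ≤ 1 →
    ∀ (M : ℕ) (U : X), ∃ g : ℕ → X, (∀ k, ‖g k‖ ≤ 2 ^ M * ‖U‖) ∧
      ∀ t, 0 ≤ t → ‖T t ((J ^ M) U) - ∑ k ∈ Finset.range M, (t ^ k / (k.factorial : ℝ)) • g k‖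
        ≤ t ^ M / (M.factorial : ℝ) * (2 ^ M * ‖U‖)

/-- FD: double finite differences of `(tau α)^k` -/
def S_FD : Prop :=
  ∀ K k : ℕ, 1 ≤ K → ∃ C : ℝ, 0 ≤ C ∧ ∀ θ : ℝ, 0 < θ → θ ≤ 1 / (2 * (K : ℝ)) →
    |∑ a ∈ Finset.range (K + 1), ∑ b ∈ Finset.range (K + 1),
      ((-1 : ℝ) ^ (K - a) * (K.choose a : ℝ)) * ((-1 : ℝ) ^ (K - b) * (K.choose b : ℝ)) *
        (tau (a * θ - b * θ)) ^ k| ≤ C * θ ^ (2 * K)

end Abstract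

end Pool.Agent.R876.WM
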