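import Mathlib
import Pool.Agent.R876.WM.Stm

/-!
Project WM (MP_e701d5_pr), piece BOP: fractional Bessel potentials of a contraction semigroup.
-/

open MeasureTheory ProbabilityTheory Set
open scoped ENNReal NNReal Topology

universe u v

namespace Pool.Agent.R876.WM

namespace BOPx

/-- the Gamma weight on the line -/
noncomputable def W (a t : ℝ) : ℝ :=
  (Ioi (0 : ℝ)).indicator (fun t => t ^ (a - 1) * Real.exp (-t) / Real.Gamma a) t

theorem W_pos {a t : ℝ} (ht : 0 < t) : W a t = t ^ (a - 1) * Real.exp (-t) / Real.Gamma a :=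
  Set.indicator_of_mem (show t ∈ Ioi (0 : ℝ) from ht) _

theorem W_neg {a t : ℝ} (ht : t ≤ 0) : W a t = 0 :=
  Set.indicator_of_notMem (show t ∉ Ioi (0 : ℝ) from not_lt.mpr ht) _

theorem W_nonneg {a : ℝ} (ha : 0 < a) (t : ℝ) : 0 ≤ W a t := by
  rcases le_or_gt t 0 with h | h
  · rw [W_neg h]
  · rw [W_pos h]
    have := Real.Gamma_pos_of_pos ha
    positivity

theorem W_int {a : ℝ} (ha : 0 < a) : Integrable (W a) := by
  unfold W
  rw [integrable_indicator_iff measurableSet_Ioi]
  have h1 := (Real.GammaIntegral_convergent ha).div_const (Real.Gamma a)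
  refine h1.congr (Filter.Eventually.of_forall fun t => ?_)
  simp only
  ring

theorem W_mass {a : ℝ} (ha : 0 < a) : ∫ t, W a t = 1 := by
  unfold W
  rw [integral_indicator measurableSet_Ioi, integral_div]
  have h1 : ∫ t in Ioi (0 : ℝ), t ^ (a - 1) * Real.exp (-t) = Real.Gamma a := by
    rw [Real.Gamma_eq_integral ha]
    refine integral_congr_ae (Filter.Eventually.of_forall fun t => ?_)
    simp only
    ring
  rw [h1, div_self (Real.Gamma_pos_of_pos ha).ne']

theorem rbeta {a b u : ℝ} (ha : 0 < a) (hb : 0 < b) (hu : 0 < u) :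
    ∫ s in (0 : ℝ)..u, s ^ (a - 1) * (u - s) ^ (b - 1)
      = u ^ (a + b - 1) * (Real.Gamma a * Real.Gamma b / Real.Gamma (a + b)) := by
  apply Complex.ofReal_injective
  rw [← intervalIntegral.integral_ofReal]
  have h1 : ∫ s in (0 : ℝ)..u, ((s ^ (a - 1) * (u - s) ^ (b - 1) : ℝ) : ℂ)
      = ∫ s in (0 : ℝ)..u, (s : ℂ) ^ ((a : ℂ) - 1) * ((u : ℂ) - s) ^ ((b : ℂ) - 1) := by
    refine intervalIntegral.integral_congr fun s hs => ?_
    rw [Set.uIcc_of_le hu.le] at hs
    change ((s ^ (a - 1) * (u - s) ^ (b - 1) : ℝ) : ℂ)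
      = (s : ℂ) ^ ((a : ℂ) - 1) * ((u : ℂ) - s) ^ ((b : ℂ) - 1)
    rw [Complex.ofReal_mul, Complex.ofReal_cpow hs.1, Complex.ofReal_cpow (sub_nonneg.mpr hs.2)]
    push_cast
    rfl
  rw [h1, Complex.betaIntegral_scaled _ _ hu, Complex.betaIntegral_eq_Gamma_mul_div _ _
    (by simpa using ha) (by simpa using hb), ← Complex.ofReal_add, Complex.Gamma_ofReal,
    Complex.Gamma_ofReal, Complex.Gamma_ofReal]
  rw [Complex.ofReal_mul, Complex.ofReal_cpow hu.le]
  push_cast
  rfl

theorem W_conv {a b : ℝ} (ha : 0 < a) (hb : 0 < b) (u : ℝ) :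
    ∫ s, W a s * W b (u - s) = W (a + b) u := by
  rcases le_or_gt u 0 with hu | hu
  · rw [W_neg hu]
    have : ∀ s, W a s * W b (u - s) = 0 := by
      intro s
      rcases le_or_gt s 0 with h | h
      · rw [W_neg h, zero_mul]
      · rw [W_neg (show u - s ≤ 0 by linarith), mul_zero]
    simp [this]
  · have h1 : (fun s => W a s * W b (u - s)) = (Ioo (0 : ℝ) u).indicator (fun s =>
        Real.exp (-u) / (Real.Gamma a * Real.Gamma b) * (s ^ (a - 1) * (u - s) ^ (b - 1))) := by
      funext s
      by_cases hs : s ∈ Ioo (0 : ℝ) u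
      · rw [Set.indicator_of_mem hs, W_pos hs.1, W_pos (sub_pos.mpr hs.2)]
        have h2 : Real.exp (-u) = Real.exp (-s) * Real.exp (-(u - s)) := by
          rw [← Real.exp_add]
          congr 1
          ring
        rw [h2]
        have := (Real.Gamma_pos_of_pos ha).ne'
        have := (Real.Gamma_pos_of_pos hb).ne'
        field_simp
      · rw [Set.indicator_of_notMem hs]
        by_cases h0 : 0 < s
        · have h3 : u - s ≤ 0 := by
            by_contra h4
            exact hs ⟨h0, by linarith⟩
          rw [W_neg h3, mul_zero]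
        · rw [W_neg (not_lt.mp h0), zero_mul]
    rw [h1, integral_indicator measurableSet_Ioo, ← integral_Ioc_eq_integral_Ioo,
      ← intervalIntegral.integral_of_le hu.le, intervalIntegral.integral_const_mul,
      rbeta ha hb hu, W_pos hu]
    have := (Real.Gamma_pos_of_pos ha).ne'
    have := (Real.Gamma_pos_of_pos hb).ne'
    have := (Real.Gamma_pos_of_pos (add_pos ha hb)).ne'
    field_simp

section

variable {X : Type v} [NormedAddCommGroup X] [NormedSpace ℝ X]
  {T : ℝ → X →L[ℝ] X}

theorem tau_cont (hT : Semi T) (f : X) : Continuous (fun u : ℝ => T (max u 0) f) :=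
  (hT.cont f).comp_continuous (continuous_id.max continuous_const)
    (fun u => Set.mem_Ici.mpr (le_max_right u 0))

theorem tau_bdd (hT : Semi T) (f : X) (u : ℝ) : ‖T (max u 0) f‖ ≤ ‖f‖ := by
  have h1 := (T (max u 0)).le_opNorm f
  have h2 := hT.norm_le (max u 0) (le_max_right _ _)
  have h3 : 0 ≤ ‖f‖ := norm_nonneg f
  nlinarith

theorem int_W_tau (hT : Semi T) {a : ℝ} (ha : 0 < a) (f : X) :
    Integrable (fun t => W a t • T (max t 0) f) := by
  refine Integrable.mono' ((W_int ha).norm.mul_const ‖f‖) ?_ ?_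
  · exact (W_int ha).aestronglyMeasurable.smul (tau_cont hT f).aestronglyMeasurable
  · refine Filter.Eventually.of_forall fun t => ?_
    rw [norm_smul]
    exact mul_le_mul_of_nonneg_left (tau_bdd hT f t) (norm_nonneg _)

theorem int_eq (a : ℝ) (f : X) :
    ∫ t in Ioi (0 : ℝ), (t ^ (a - 1) * Real.exp (-t) / Real.Gamma a) • T t f
      = ∫ t, W a t • T (max t 0) f := by
  rw [← integral_indicator measurableSet_Ioi]
  congr 1
  funext t
  by_cases ht : t ∈ Ioi (0 : ℝ)
  · rw [Set.indicator_of_mem ht, W_pos ht, max_eq_left (le_of_lt ht)]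
  · rw [Set.indicator_of_notMem ht, W_neg (not_lt.mp ht), zero_smul]

/-- the fractional Bessel potential -/
noncomputable def BB (hT : Semi T) (a : ℝ) (ha : 0 < a) : X →L[ℝ] X :=
  LinearMap.mkContinuous
    { toFun := fun f => ∫ t, W a t • T (max t 0) f
      map_add' := by
        intro f g
        rw [← integral_add (int_W_tau hT ha f) (int_W_tau hT ha g)]
        congr 1
        funext t
        rw [map_add, smul_add]
      map_smul' := by
        intro c f
        rw [RingHom.id_apply, ← integral_smul]
        congr 1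
        funext t
        rw [map_smul, smul_comm] } 1 (by
      intro f
      rw [one_mul]
      change ‖∫ t, W a t • T (max t 0) f‖ ≤ ‖f‖
      refine (norm_integral_le_integral_norm _).trans ?_
      have h1 : ∫ t, ‖W a t • T (max t 0) f‖ ≤ ∫ t, W a t * ‖f‖ := by
        refine integral_mono (int_W_tau hT ha f).norm ((W_int ha).mul_const _) fun t => ?_
        simp only
        rw [norm_smul, Real.norm_eq_abs, abs_of_nonneg (W_nonneg ha t)]
        exact mul_le_mul_of_nonneg_left (tau_bdd hT f t) (W_nonneg ha t)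
      rw [integral_mul_const, W_mass ha, one_mul] at h1
      exact h1)

theorem BB_apply (hT : Semi T) (a : ℝ) (ha : 0 < a) (f : X) :
    BB hT a ha f = ∫ t, W a t • T (max t 0) f := rfl

theorem BB_norm (hT : Semi T) (a : ℝ) (ha : 0 < a) : ‖BB hT a ha‖ ≤ 1 :=
  LinearMap.mkContinuous_norm_le _ zero_le_one _

theorem BB_comp [CompleteSpace X] (hT : Semi T) (a b : ℝ) (ha : 0 < a) (hb : 0 < b) (f : X) :
    BB hT a ha (BB hT b hb f) = BB hT (a + b) (add_pos ha hb) f := by
  rw [BB_apply, BB_apply, BB_apply]
  have hL : ∀ s : ℝ, W a s • T (max s 0) (∫ t, W b t • T (max t 0) f)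
      = ∫ u, (W a s * W b (u - s)) • T (max u 0) f := by
    intro s
    rcases le_or_gt s 0 with hs | hs
    · simp [W_neg hs]
    · have h1 : T (max s 0) (∫ t, W b t • T (max t 0) f)
          = ∫ t, W b t • T (max (t + s) 0) f := by
        rw [← ContinuousLinearMap.integral_comp_comm _ (int_W_tau hT hb f)]
        congr 1
        funext t
        rcases le_or_gt t 0 with ht | ht
        · rw [W_neg ht, zero_smul, zero_smul, map_zero]
        · rw [map_smul, max_eq_left hs.le, max_eq_left ht.le,
            max_eq_left (add_pos ht hs).le, add_comm t s, hT.add s t hs.le ht.le]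
          rfl
      have h2 : ∫ t, W b t • T (max (t + s) 0) f = ∫ u, W b (u - s) • T (max u 0) f := by
        rw [← integral_add_right_eq_self (fun u => W b (u - s) • T (max u 0) f) s]
        congr 1
        funext t
        rw [add_sub_cancel_right]
      rw [h1, h2, ← integral_smul]
      congr 1
      funext u
      rw [smul_smul]
  simp_rw [hL]
  have hint : Integrable (Function.uncurry fun (u s : ℝ) =>
      (W a s * W b (u - s)) • T (max u 0) f) (volume.prod volume) := by
    have h1 : Integrable (fun p : ℝ × ℝ => W a p.2 * W b (p.1 - p.2)) (volume.prod volume) :=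
      (W_int ha).convolution_integrand (ContinuousLinearMap.mul ℝ ℝ) (W_int hb)
    refine Integrable.mono' (h1.norm.mul_const ‖f‖) ?_ ?_
    · exact h1.aestronglyMeasurable.smul
        ((tau_cont hT f).comp continuous_fst).aestronglyMeasurable
    · refine Filter.Eventually.of_forall fun p => ?_
      simp only [Function.uncurry]
      rw [norm_smul]
      exact mul_le_mul_of_nonneg_left (tau_bdd hT f p.1) (norm_nonneg _)
  rw [← integral_integral_swap hint]
  congr 1
  funext u
  rw [integral_smul_const, W_conv ha hb]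

end

end BOPx

open BOPx in
theorem bop_thm : S_BOP.{v} := by
  intro X _ _ _ T hT
  classical
  let B : ℝ → X →L[ℝ] X := fun a => if h : 0 < a then BB hT a h else 0
  have hB : ∀ a (ha : 0 < a), B a = BB hT a ha := fun a ha => dif_pos ha
  have hcomp : ∀ a b, 0 < a → 0 < b → (B a).comp (B b) = B (a + b) := by
    intro a b ha hb
    rw [hB a ha, hB b hb, hB (a + b) (add_pos ha hb)]
    ext1 f
    exact BB_comp hT a b ha hb f
  refine ⟨B, B 1, ?_, ?_, ?_, hcomp, ?_⟩
  · intro f
    rw [hB 1 one_pos, BB_apply, ← int_eq]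
    refine integral_congr_ae (Filter.Eventually.of_forall fun t => ?_)
    simp
  · rw [hB 1 one_pos]
    exact BB_norm hT 1 one_pos
  · intro a ha
    refine ⟨?_, fun f => ?_⟩
    · rw [hB a ha]
      exact BB_norm hT a ha
    · rw [hB a ha, BB_apply, ← int_eq]
  · intro m hm
    induction m, hm using Nat.le_induction with
    | base => simp
    | succ m hm ih =>
      rw [pow_succ, ih]
      have h1 := hcomp m 1 (by exact_mod_cast hm) one_pos
      rw [Nat.cast_succ, ← h1]
      rfl

end Pool.Agent.R876.WM
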