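import Pool.Agent.R876.WM.Stm

/-!
# Project WM (MP_e701d5_pr), piece BRI: the pointwise Bessel potential is the Bochner integral in `L^p`
-/

set_option autoImplicit false

open MeasureTheory ProbabilityTheory Set
open scoped ENNReal NNReal Topology

namespace Pool.Agent.R876.WM

universe u v

variable {Ω : Type u} [NormedAddCommGroup Ω] [NormedSpace ℝ Ω] [CompleteSpace Ω]
  [SecondCountableTopology Ω] [MeasurableSpace Ω] [BorelSpace Ω]
  (μ : Measure Ω) [IsGaussian μ]
variable (E : Type v) [NormedAddCommGroup E] [NormedSpace ℝ E] [CompleteSpace E]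

namespace BRI

/-- the weight is integrable -/
theorem w_int (a : ℝ) (ha : 0 < a) :
    IntegrableOn (fun t : ℝ => t ^ (a - 1) * Real.exp (-t) / Real.Gamma a) (Ioi 0) := by
  have h := (Real.GammaIntegral_convergent ha).div_const (Real.Gamma a)
  refine h.congr (Filter.Eventually.of_forall fun t => ?_)
  simp only []
  rw [mul_comm (Real.exp (-t))]

variable {E} {μ} in
theorem norm_int_le {p : ℝ≥0∞} [hp : Fact (1 ≤ p)] (f : Lp E p μ) : ∫ x, ‖f x‖ ∂μ ≤ ‖f‖ := by
  have h1 : eLpNorm f 1 μ ≤ eLpNorm f p μ :=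
    eLpNorm_le_eLpNorm_of_exponent_le hp.out (Lp.aestronglyMeasurable f)
  have h2 : MemLp f p μ := Lp.memLp f
  have h3 : MemLp f 1 μ := h2.mono_exponent hp.out
  have h4 : ∫ x, ‖f x‖ ∂μ = (eLpNorm f 1 μ).toReal := by
    rw [eLpNorm_one_eq_lintegral_enorm, integral_norm_eq_lintegral_enorm (Lp.aestronglyMeasurable f)]
  rw [h4, Lp.norm_def]
  exact ENNReal.toReal_mono h2.2.ne h1

variable {E} {μ} in
theorem int_Lp {p : ℝ≥0∞} [hp : Fact (1 ≤ p)] (f : Lp E p μ) : Integrable f μ :=
  memLp_one_iff_integrable.1 ((Lp.memLp f).mono_exponent hp.out)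

/-- integration over a set as a continuous linear map -/
noncomputable def Lam (p : ℝ≥0∞) [Fact (1 ≤ p)] (s : Set Ω) : Lp E p μ →L[ℝ] E :=
  LinearMap.mkContinuous
    { toFun := fun f => ∫ x in s, f x ∂μ
      map_add' := fun f g => by
        have h := Lp.coeFn_add f g
        rw [integral_congr_ae (ae_restrict_of_ae h)]
        exact integral_add (int_Lp f).integrableOn (int_Lp g).integrableOn
      map_smul' := fun c f => by
        have h := Lp.coeFn_smul c f
        rw [integral_congr_ae (ae_restrict_of_ae h)]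
        exact integral_smul c _ } 1 (fun f => by
      rw [one_mul]
      show ‖∫ x in s, f x ∂μ‖ ≤ ‖f‖
      refine (norm_integral_le_integral_norm _).trans ?_
      refine le_trans ?_ (norm_int_le f)
      exact setIntegral_le_integral (int_Lp f).norm (Filter.Eventually.of_forall fun x => norm_nonneg _))

theorem Lam_apply (p : ℝ≥0∞) [Fact (1 ≤ p)] (s : Set Ω) (f : Lp E p μ) :
    Lam μ E p s f = ∫ x in s, f x ∂μ := rfl

end BRI

open BRI in
theorem bri_thm (_hMP : S_MP μ) (_h1 : S_OPL E μ) : S_BRI E μ := by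
  intro p hp _ T hT hou a ha U
  obtain ⟨w, hw⟩ : ∃ w : ℝ → ℝ, w = fun t : ℝ => t ^ (a - 1) * Real.exp (-t) / Real.Gamma a := ⟨_, rfl⟩
  have hwi : IntegrableOn w (Ioi 0) := by rw [hw]; exact w_int a ha
  have hwm : Measurable w := by rw [hw]; fun_prop
  -- the function `F (t, x) = w t • ou μ t U x`
  obtain ⟨F, hF⟩ : ∃ F : ℝ × Ω → E, F = fun q => w q.1 • ou μ q.1 U q.2 := ⟨_, rfl⟩
  have hUm : StronglyMeasurable (U : Ω → E) := Lp.stronglyMeasurable U
  have hou_m : StronglyMeasurable (fun q : ℝ × Ω => ou μ q.1 U q.2) := by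
    have h1 : Measurable (fun q : (ℝ × Ω) × Ω =>
        Real.exp (-q.1.1) • q.1.2 + Real.sqrt (1 - Real.exp (-2 * q.1.1)) • q.2) := by
      have h2 : Continuous (fun q : (ℝ × Ω) × Ω =>
        Real.exp (-q.1.1) • q.1.2 + Real.sqrt (1 - Real.exp (-2 * q.1.1)) • q.2) := by fun_prop
      exact h2.measurable
    have h3 : StronglyMeasurable (fun q : (ℝ × Ω) × Ω =>
        U (Real.exp (-q.1.1) • q.1.2 + Real.sqrt (1 - Real.exp (-2 * q.1.1)) • q.2)) :=
      hUm.comp_measurable h1
    exact h3.integral_prod_right'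
  have hFm : StronglyMeasurable F := by
    rw [hF]
    exact (hwm.comp measurable_fst).stronglyMeasurable.smul hou_m
  obtain ⟨ν, hν⟩ : ∃ ν : Measure ℝ, ν = volume.restrict (Ioi 0) := ⟨_, rfl⟩
  have hνσ : SFinite ν := by rw [hν]; infer_instance
  have hpos : ∀ᵐ t ∂ν, 0 < t := by
    rw [hν]
    exact ae_restrict_mem measurableSet_Ioi
  have hTnorm : ∀ t, 0 ≤ t → ‖T t U‖ ≤ ‖U‖ := by
    intro t ht
    calc ‖T t U‖ ≤ ‖T t‖ * ‖U‖ := (T t).le_opNorm U
      _ ≤ 1 * ‖U‖ := mul_le_mul_of_nonneg_right (hT.norm_le t ht) (norm_nonneg _)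
      _ = ‖U‖ := one_mul _
  have houi : ∀ t, 0 < t → Integrable (fun x => ou μ t U x) μ := fun t ht =>
    (int_Lp (T t U)).congr (hou t ht.le U)
  have houn : ∀ t, 0 < t → ∫ x, ‖ou μ t U x‖ ∂μ ≤ ‖U‖ := by
    intro t ht
    have h1 : ∫ x, ‖ou μ t U x‖ ∂μ = ∫ x, ‖T t U x‖ ∂μ := by
      refine integral_congr_ae ?_
      filter_upwards [hou t ht.le U] with x hx
      rw [hx]
    rw [h1]
    exact (norm_int_le _).trans (hTnorm t ht.le)
  have hwiν : Integrable w ν := by rw [hν]; exact hwi
  have hFi : Integrable F (ν.prod μ) := by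
    rw [integrable_prod_iff hFm.aestronglyMeasurable]
    constructor
    · filter_upwards [hpos] with t ht
      rw [hF]
      exact (houi t ht).smul (w t)
    · refine Integrable.mono' (g := fun t => ‖w t‖ * ‖U‖) (hwiν.norm.mul_const _) ?_ ?_
      · exact (hFm.norm.integral_prod_right').aestronglyMeasurable
      · filter_upwards [hpos] with t ht
        have h1 : ∫ x, ‖F (t, x)‖ ∂μ = ‖w t‖ * ∫ x, ‖ou μ t U x‖ ∂μ := by
          rw [hF, ← integral_const_mul]
          refine integral_congr_ae (Filter.Eventually.of_forall fun x => ?_)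
          exact norm_smul _ _
        rw [h1, Real.norm_of_nonneg (by positivity)]
        exact mul_le_mul_of_nonneg_left (houn t ht) (norm_nonneg _)
  -- the Bochner integral in `L^p`
  have hG : Integrable (fun t => w t • T t U) ν := by
    refine Integrable.mono' (g := fun t => ‖w t‖ * ‖U‖) (hwiν.norm.mul_const _) ?_ ?_
    · refine hwm.aestronglyMeasurable.smul ?_
      rw [hν]
      exact ((hT.cont U).mono Ioi_subset_Ici_self).aestronglyMeasurable measurableSet_Ioi
    · filter_upwards [hpos] with t ht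
      rw [norm_smul]
      exact mul_le_mul_of_nonneg_left (hTnorm t ht.le) (norm_nonneg _)
  have hbes : bes μ a U = fun x => ∫ t, F (t, x) ∂ν := by
    rw [hν, hF, hw]
    rfl
  have hgoal : ((∫ t, w t • T t U ∂ν : Lp E p μ) : Ω → E) =ᵐ[μ] bes μ a U := by
    rw [hbes]
    refine Integrable.ae_eq_of_forall_setIntegral_eq _ _ (int_Lp _) hFi.integral_prod_right ?_
    intro s _ _
    have e1 : ∫ x in s, (∫ t, w t • T t U ∂ν : Lp E p μ) x ∂μ = ∫ t, Lam μ E p s (w t • T t U) ∂ν := by
      rw [ContinuousLinearMap.integral_comp_comm _ hG, Lam_apply]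
    have e2 : ∫ x in s, ∫ t, F (t, x) ∂ν ∂μ = ∫ t, ∫ x in s, F (t, x) ∂μ ∂ν := by
      have hm : ν.prod (μ.restrict s) = (ν.prod μ).restrict (univ ×ˢ s) := by
        rw [← Measure.prod_restrict, Measure.restrict_univ]
      have hi : Integrable F (ν.prod (μ.restrict s)) := by
        rw [hm]
        exact hFi.restrict
      exact (integral_integral_swap (f := fun t x => F (t, x)) hi).symm
    rw [e1, e2]
    refine integral_congr_ae ?_
    filter_upwards [hpos] with t ht
    rw [map_smul, Lam_apply, ← integral_smul, hF]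
    refine integral_congr_ae (ae_restrict_of_ae ?_)
    filter_upwards [hou t ht.le U] with x hx
    rw [hx]
  rw [hν, hw] at hgoal
  exact hgoal

end Pool.Agent.R876.WM
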