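import Pool.Agent.R876.WM.Stm

/-!
Project WM, piece CE (helper973): taking the expectation in the second variable.
-/

open MeasureTheory ProbabilityTheory Set
open scoped ENNReal NNReal Topology

namespace Pool.Agent.R876.WM

universe u v

/-- Jensen in the second variable. -/
lemma ce_jensen {Ω : Type u} [MeasurableSpace Ω] (μ : Measure Ω) [IsProbabilityMeasure μ]
    {E : Type v} [NormedAddCommGroup E] [NormedSpace ℝ E] (p : ℝ≥0∞) (hp : 1 ≤ p) (hp' : p ≠ ∞)
    (g : Ω × Ω → E) (hg : AEStronglyMeasurable g (μ.prod μ)) :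
    eLpNorm (fun x => ∫ y, g (x, y) ∂μ) p μ ≤ eLpNorm g p (μ.prod μ) := by
  have hp0 : p ≠ 0 := (zero_lt_one.trans_le hp).ne'
  have hpr : 0 < p.toReal := ENNReal.toReal_pos hp0 hp'
  rw [eLpNorm_eq_lintegral_rpow_enorm_toReal hp0 hp',
    eLpNorm_eq_lintegral_rpow_enorm_toReal hp0 hp']
  refine ENNReal.rpow_le_rpow ?_ (by positivity)
  rw [lintegral_prod _ (hg.enorm.pow_const _)]
  refine lintegral_mono_ae ?_
  filter_upwards [hg.prodMk_left] with x hx
  have h1 : ‖∫ y, g (x, y) ∂μ‖ₑ ≤ eLpNorm (fun y => g (x, y)) 1 μ := by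
    rw [eLpNorm_one_eq_lintegral_enorm]
    exact enorm_integral_le_lintegral_enorm _
  have h3 := h1.trans (eLpNorm_le_eLpNorm_of_exponent_le hp hx)
  rw [eLpNorm_eq_lintegral_rpow_enorm_toReal hp0 hp'] at h3
  calc ‖∫ y, g (x, y) ∂μ‖ₑ ^ p.toReal
      ≤ ((∫⁻ y, ‖g (x, y)‖ₑ ^ p.toReal ∂μ) ^ (1 / p.toReal)) ^ p.toReal :=
        ENNReal.rpow_le_rpow h3 hpr.le
    _ = ∫⁻ y, ‖g (x, y)‖ₑ ^ p.toReal ∂μ := by
        rw [← ENNReal.rpow_mul, one_div_mul_cancel hpr.ne', ENNReal.rpow_one]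

lemma ce_exp_tau {α : ℝ} (h0 : 0 ≤ α) (h1 : α ≤ 1 / 2) :
    Real.exp (-tau α) = Real.cos α ∧
      Real.sqrt (1 - Real.exp (-2 * tau α)) = Real.sin α := by
  have hpi := Real.pi_gt_three
  have hc : 0 < Real.cos α := Real.cos_pos_of_mem_Ioo ⟨by linarith, by linarith⟩
  have hs : 0 ≤ Real.sin α := Real.sin_nonneg_of_nonneg_of_le_pi h0 (by linarith)
  have e1 : Real.exp (-tau α) = Real.cos α := by
    rw [tau, neg_neg, Real.exp_log hc]
  refine ⟨e1, ?_⟩
  have e2 : Real.exp (-2 * tau α) = Real.cos α ^ 2 := by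
    rw [← e1, ← Real.exp_nat_mul]
    congr 1
    push_cast
    ring
  rw [e2, ← Real.sin_sq, Real.sqrt_sq hs]

variable {Ω : Type u} [NormedAddCommGroup Ω] [NormedSpace ℝ Ω] [CompleteSpace Ω]
  [SecondCountableTopology Ω] [MeasurableSpace Ω] [BorelSpace Ω]
  (μ : Measure Ω) [IsGaussian μ]
variable (E : Type v) [NormedAddCommGroup E] [InnerProductSpace ℝ E] [CompleteSpace E]

theorem ce_thm (hMP : S_MP μ) : S_CE E μ := by
  intro p hpF hp' T hT f K θ hK hθ hθ'
  have hp : 1 ≤ p := hpF.out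
  have hK0 : (0 : ℝ) < K := by exact_mod_cast hK
  -- the angles
  have hang : ∀ i ∈ Finset.range (K + 1), 0 ≤ (i : ℝ) * θ ∧ (i : ℝ) * θ ≤ 1 / 2 := by
    intro i hi
    have hi' : (i : ℝ) ≤ K := by
      have := Finset.mem_range.1 hi
      exact_mod_cast Nat.lt_succ_iff.1 this
    refine ⟨by positivity, ?_⟩
    calc (i : ℝ) * θ ≤ K * (1 / (2 * K)) := by gcongr
      _ = 1 / 2 := by field_simp
  have htau : ∀ i ∈ Finset.range (K + 1), 0 ≤ tau (i * θ) := by
    intro i hi
    obtain ⟨h0, h1⟩ := hang i hi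
    have hpi := Real.pi_gt_three
    have hc : 0 < Real.cos (i * θ) := Real.cos_pos_of_mem_Ioo ⟨by linarith, by linarith⟩
    have := Real.log_nonpos hc.le (Real.cos_le_one _)
    rw [tau]
    linarith
  -- measurability of the summands
  have hfm : MemLp (f : Ω → E) p μ := Lp.memLp f
  have hcomp : ∀ α : ℝ, MemLp (fun z : Ω × Ω => (f : Ω → E) (Real.cos α • z.1 + Real.sin α • z.2))
      p (μ.prod μ) := fun α => hfm.comp_measurePreserving (hMP.1 α)
  have hint : ∀ α : ℝ, Integrable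
      (fun z : Ω × Ω => (f : Ω → E) (Real.cos α • z.1 + Real.sin α • z.2)) (μ.prod μ) :=
    fun α => (hcomp α).integrable hp
  have hdif : AEStronglyMeasurable (dif K θ (f : Ω → E)) (μ.prod μ) := by
    unfold dif
    refine Finset.aestronglyMeasurable_fun_sum _ fun i _ => ?_
    exact (hcomp _).1.const_smul _
  -- the pointwise identity
  have key : (fun x => ∑ i ∈ Finset.range (K + 1), ((-1 : ℝ) ^ (K - i) * (K.choose i : ℝ)) •
      ou μ (tau (i * θ)) f x) =ᵐ[μ] fun x => ∫ y, dif K θ (f : Ω → E) (x, y) ∂μ := by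
    have h1 : ∀ᵐ x ∂μ, ∀ i : ℕ, Integrable
        (fun y => (f : Ω → E) (Real.cos (i * θ) • x + Real.sin (i * θ) • y)) μ := by
      rw [ae_all_iff]
      intro i
      exact (hint (i * θ)).prod_right_ae
    filter_upwards [h1] with x hx
    unfold dif
    have hI : ∀ i ∈ Finset.range (K + 1), Integrable
        (fun y => ((-1 : ℝ) ^ (K - i) * (K.choose i : ℝ)) •
          (f : Ω → E) (Real.cos (i * θ) • x + Real.sin (i * θ) • y)) μ :=
      fun i _ => (hx i).smul _
    change _ = ∫ y, ∑ i ∈ Finset.range (K + 1), ((-1 : ℝ) ^ (K - i) * (K.choose i : ℝ)) •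
          (f : Ω → E) (Real.cos (i * θ) • x + Real.sin (i * θ) • y) ∂μ
    rw [integral_finsetSum _ hI]
    refine Finset.sum_congr rfl fun i hi => ?_
    rw [integral_smul]
    congr 1
    obtain ⟨e1, e2⟩ := ce_exp_tau (hang i hi).1 (hang i hi).2
    unfold ou
    rw [e1, e2]
  -- the coercion of the sum
  have hcoe : ((∑ i ∈ Finset.range (K + 1), ((-1 : ℝ) ^ (K - i) * (K.choose i : ℝ)) •
      T (tau (i * θ)) f : Lp E p μ) : Ω → E) =ᵐ[μ]
      fun x => ∑ i ∈ Finset.range (K + 1), ((-1 : ℝ) ^ (K - i) * (K.choose i : ℝ)) •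
        ou μ (tau (i * θ)) f x := by
    have hgen : ∀ s : Finset ℕ, s ⊆ Finset.range (K + 1) →
        ((∑ i ∈ s, ((-1 : ℝ) ^ (K - i) * (K.choose i : ℝ)) •
          T (tau (i * θ)) f : Lp E p μ) : Ω → E) =ᵐ[μ]
          fun x => ∑ i ∈ s, ((-1 : ℝ) ^ (K - i) * (K.choose i : ℝ)) •
            ou μ (tau (i * θ)) f x := by
      classical
      intro s
      induction s using Finset.induction_on with
      | empty =>
        intro _
        simp only [Finset.sum_empty]
        exact Lp.coeFn_zero E p μ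
      | insert a s ha ih =>
        intro hs
        have hs' : s ⊆ Finset.range (K + 1) := (Finset.subset_insert a s).trans hs
        have hmem : a ∈ Finset.range (K + 1) := hs (Finset.mem_insert_self a s)
        rw [Finset.sum_insert ha]
        filter_upwards [Lp.coeFn_add (((-1 : ℝ) ^ (K - a) * (K.choose a : ℝ)) •
            T (tau (a * θ)) f) (∑ i ∈ s, ((-1 : ℝ) ^ (K - i) * (K.choose i : ℝ)) •
            T (tau (i * θ)) f), ih hs', Lp.coeFn_smul ((-1 : ℝ) ^ (K - a) * (K.choose a : ℝ))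
            (T (tau (a * θ)) f), hT _ (htau a hmem) f] with x h1 h2 h3 h4
        rw [h1, Pi.add_apply, h2, h3, Pi.smul_apply, h4, Finset.sum_insert ha]
    exact hgen _ (Finset.Subset.refl _)
  rw [Lp.norm_def, ENNReal.ofReal_toReal (Lp.eLpNorm_ne_top _)]
  rw [eLpNorm_congr_ae (hcoe.trans key)]
  exact ce_jensen μ p hp hp' _ hdif

end Pool.Agent.R876.WM
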