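import Pool.Agent.R876.WM.Stm

open MeasureTheory ProbabilityTheory Set
open scoped ENNReal NNReal Topology

namespace Pool.Agent.R876.WM

universe u v

variable {Ω : Type u} [NormedAddCommGroup Ω] [NormedSpace ℝ Ω] [MeasurableSpace Ω]
  (μ : Measure Ω)
variable (E : Type v) [NormedAddCommGroup E] [InnerProductSpace ℝ E] [CompleteSpace E]

theorem comp_thm : S_COMP μ E := by
  intro A B hA hB r
  obtain ⟨s1, C1, h1⟩ := hA r
  obtain ⟨s2, C2, h2⟩ := hB s1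
  refine ⟨s2, C1 * C2, ?_⟩
  intro V hV U hU
  have hBV : D2inf μ (fun ω => B ω (V ω)) := by
    intro r'
    obtain ⟨s, C, h⟩ := hB r'
    obtain ⟨U0, hU0⟩ := hV s
    obtain ⟨U', hU', _⟩ := h V hV U0 hU0
    exact ⟨U', hU'⟩
  obtain ⟨U', hU', hn'⟩ := h2 V hV U hU
  obtain ⟨U'', hU'', hn''⟩ := h1 _ hBV U' hU'
  refine ⟨U'', hU'', hn''.trans ?_⟩
  calc (C1 : ℝ≥0∞) * eLpNorm U' 2 μ ≤ C1 * (C2 * eLpNorm U 2 μ) := by gcongr
    _ = ((C1 * C2 : ℝ≥0) : ℝ≥0∞) * eLpNorm U 2 μ := by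
      rw [ENNReal.coe_mul, mul_assoc]

end Pool.Agent.R876.WM
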