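import Pool.Agent.R876.WM.Stm

/-!
Project WM, piece CONJ: invariance under isometries.
-/

open MeasureTheory ProbabilityTheory Set
open scoped ENNReal NNReal Topology

namespace Pool.Agent.R876.WM

universe u v

namespace CONJ

variable {Ω : Type u} [NormedAddCommGroup Ω] [NormedSpace ℝ Ω] [MeasurableSpace Ω]
  (μ : Measure Ω)
variable {E F : Type v} [NormedAddCommGroup E] [InnerProductSpace ℝ E]
  [NormedAddCommGroup F] [InnerProductSpace ℝ F] (e : E ≃ₗᵢ[ℝ] F)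

lemma integral_e {α : Type*} [MeasurableSpace α] (ν : Measure α) (f : α → E) :
    ∫ a, e (f a) ∂ν = e (∫ a, f a ∂ν) :=
  e.toContinuousLinearEquiv.integral_comp_comm f

lemma ou_e (t : ℝ) (f : Ω → E) (x : Ω) : ou μ t (fun ω => e (f ω)) x = e (ou μ t f x) :=
  integral_e e μ _

lemma bes_e (a : ℝ) (f : Ω → E) (x : Ω) : bes μ a (fun ω => e (f ω)) x = e (bes μ a f x) := by
  unfold bes
  rw [← integral_e e]
  congr 1
  funext t
  rw [ou_e, map_smul]

lemma pot_e (r : ℕ) (f : Ω → E) (x : Ω) : pot μ r (fun ω => e (f ω)) x = e (pot μ r f x) := by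
  unfold pot
  split_ifs with h
  · rfl
  · exact bes_e μ e _ f x

lemma isD_e (p : ℝ≥0∞) (r : ℕ) (V U : Ω → E) (h : IsD μ p r V U) :
    IsD μ p r (fun ω => e (V ω)) (fun ω => e (U ω)) := by
  refine ⟨?_, ?_⟩
  · exact (e.toContinuousLinearEquiv : E →L[ℝ] F).comp_memLp' h.1
  · filter_upwards [h.2] with ω hω
    rw [pot_e, hω]

lemma eLpNorm_e (p : ℝ≥0∞) (U : Ω → E) : eLpNorm (fun ω => e (U ω)) p μ = eLpNorm U p μ :=
  eLpNorm_congr_norm_ae (Filter.Eventually.of_forall fun ω => e.norm_map _)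

end CONJ

open CONJ

theorem conj_thm {Ω : Type u} [NormedAddCommGroup Ω] [NormedSpace ℝ Ω] [MeasurableSpace Ω]
    (μ : Measure Ω) : S_CONJ.{u,v} μ := by
  intro E F _ _ _ _ _ _ e
  refine ⟨fun p r V U h => isD_e μ e p r V U h, ?_⟩
  intro A hA r
  obtain ⟨s, C, h⟩ := hA r
  refine ⟨s, C, fun V hV U hU => ?_⟩
  have hV' : D2inf μ (fun ω => e.symm (V ω)) := by
    intro r
    obtain ⟨U, hU⟩ := hV r
    exact ⟨_, isD_e μ e.symm 2 r V U hU⟩
  obtain ⟨U', hU'1, hU'2⟩ := h _ hV' _ (isD_e μ e.symm 2 s V U hU)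
  refine ⟨fun ω => e (U' ω), isD_e μ e 2 r _ U' hU'1, ?_⟩
  rw [eLpNorm_e]
  rw [eLpNorm_e μ e.symm] at hU'2
  exact hU'2

end Pool.Agent.R876.WM
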