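import Pool.Agent.R876.WM.AMP

open MeasureTheory ProbabilityTheory Set
open scoped ENNReal NNReal Topology

namespace Pool.Agent.R876.WM

universe v

theorem cur_thm : S_CUR.{v} := by
  intro κ I
  have hM : ∀ M : L2 (κ × I), Summable (fun p : κ × I => ‖(M : κ × I → ℝ) p‖ ^ 2) :=
    fun M => (l2_hasSum M).summable
  have hs : ∀ (M : L2 (κ × I)) (k : κ), Summable (fun i => ‖(M : κ × I → ℝ) (k, i)‖ ^ 2) :=
    fun M k => (hM M).prod_factor k
  let sl : L2 (κ × I) → κ → L2 I := fun M k => ⟨fun i => (M : κ × I → ℝ) (k, i), l2_mem _ (hs M k)⟩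
  have hsl : ∀ (M : L2 (κ × I)), HasSum (fun k => ‖sl M k‖ ^ 2) (‖M‖ ^ 2) := by
    intro M
    refine (l2_hasSum M).prod_fiberwise (fun k => ?_)
    exact l2_hasSum (sl M k)
  let F : L2 (κ × I) → lp (fun _ : κ => L2 I) 2 := fun M =>
    ⟨fun k => sl M k, l2_mem _ (hsl M).summable⟩
  have hN : ∀ N : lp (fun _ : κ => L2 I) 2,
      Summable (fun p : κ × I => ‖(((N : κ → L2 I) p.1 : L2 I) : I → ℝ) p.2‖ ^ 2) := by
    intro N
    rw [summable_prod_of_nonneg (fun p => by positivity)]
    refine ⟨fun k => (l2_hasSum ((N : κ → L2 I) k)).summable, ?_⟩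
    refine (l2_hasSum N).summable.congr (fun k => ?_)
    exact ((l2_hasSum ((N : κ → L2 I) k)).tsum_eq).symm
  let G : lp (fun _ : κ => L2 I) 2 → L2 (κ × I) := fun N =>
    ⟨fun p => (((N : κ → L2 I) p.1 : L2 I) : I → ℝ) p.2, l2_mem _ (hN N)⟩
  let e : L2 (κ × I) ≃ₗᵢ[ℝ] lp (fun _ : κ => L2 I) 2 :=
    { toFun := F
      invFun := G
      map_add' := by
        intro x y
        apply lp.ext
        funext k
        apply lp.ext
        funext i
        simp [F, sl]
      map_smul' := by
        intro c x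
        apply lp.ext
        funext k
        apply lp.ext
        funext i
        simp [F, sl]
      left_inv := by
        intro x
        apply lp.ext
        funext p
        simp [F, G, sl]
      right_inv := by
        intro x
        apply lp.ext
        funext k
        apply lp.ext
        funext i
        simp [F, G, sl]
      norm_map' := by
        intro M
        have h1 : ‖F M‖ ^ 2 = ‖M‖ ^ 2 := l2_norm_sq _ (hsl M)
        exact (sq_eq_sq₀ (norm_nonneg _) (norm_nonneg _)).1 h1 }
  exact ⟨e, fun M k i => rfl⟩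

end Pool.Agent.R876.WM
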