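import Pool.Agent.R876.WM.Stm

/-! Project WM, piece D2S (helper207). -/

set_option autoImplicit false

open MeasureTheory ProbabilityTheory Set
open scoped ENNReal NNReal Topology

namespace Pool.Agent.R876.WM.D2S207

open Pool.Agent.R876.WM

universe u v

theorem cos_pos' {α : ℝ} (h : |α| ≤ 1) : 0 < Real.cos α := by
  rw [abs_le] at h
  exact Real.cos_pos_of_mem_Ioo ⟨by linarith [Real.pi_gt_three], by linarith [Real.pi_gt_three]⟩

theorem tau_nonneg {α : ℝ} (h : |α| ≤ 1) : 0 ≤ tau α := by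
  unfold tau
  have := Real.log_nonpos (cos_pos' h).le (Real.cos_le_one α)
  linarith

theorem tau_le {α : ℝ} (h : |α| ≤ 1 / 2) : tau α ≤ α ^ 2 := by
  have h1 := cos_pos' (show |α| ≤ 1 by linarith)
  have h2 := Real.one_sub_inv_le_log_of_pos h1
  have h3 := Real.one_sub_sq_div_two_le_cos (x := α)
  have h4 : α ^ 2 ≤ 1 / 4 := by
    have := abs_le.1 h
    nlinarith
  have h5 : (Real.cos α)⁻¹ ≤ (1 - α ^ 2 / 2)⁻¹ := inv_anti₀ (by linarith) h3
  have h6 : (1 - α ^ 2 / 2)⁻¹ ≤ 1 + α ^ 2 := by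
    rw [inv_le_iff_one_le_mul₀ (by linarith)]
    nlinarith [sq_nonneg α]
  unfold tau
  linarith

/-- the coefficients -/
def cc (K a : ℕ) : ℝ := (-1) ^ (K - a) * (K.choose a : ℝ)

theorem sum_cc (K : ℕ) : ∑ a ∈ Finset.range (K + 1), |cc K a| = 2 ^ K := by
  have h1 : ∀ a, |cc K a| = (K.choose a : ℝ) := by
    intro a
    unfold cc
    rw [abs_mul, abs_pow, abs_neg, abs_one, one_pow, one_mul, Nat.abs_cast]
  rw [Finset.sum_congr rfl fun a _ => h1 a]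
  exact_mod_cast Nat.sum_range_choose K

theorem abs_est {X : Type*} [NormedAddCommGroup X] [InnerProductSpace ℝ X]
    {T : ℝ → X →L[ℝ] X} (K : ℕ) (hK : 1 ≤ K) (g u : X) (gk : ℕ → X) (hgu : ‖g‖ ≤ ‖u‖)
    (h1 : ∀ k, ‖gk k‖ ≤ 2 ^ K * ‖u‖)
    (h2 : ∀ t, 0 ≤ t → ‖T t g - ∑ k ∈ Finset.range K, (t ^ k / (k.factorial : ℝ)) • gk k‖
        ≤ t ^ K / (K.factorial : ℝ) * (2 ^ K * ‖u‖))
    (Cf : ℕ → ℝ) (θ : ℝ) (hθ0 : 0 < θ) (hθ1 : θ ≤ 1 / (2 * (K : ℝ)))
    (hCf : ∀ k, |∑ a ∈ Finset.range (K + 1), ∑ b ∈ Finset.range (K + 1),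
      cc K a * cc K b * (tau (a * θ - b * θ)) ^ k| ≤ Cf k * θ ^ (2 * K)) :
    |∑ a ∈ Finset.range (K + 1), ∑ b ∈ Finset.range (K + 1),
      cc K a * cc K b * inner ℝ (T (tau (a * θ - b * θ)) g) g| ≤
      ((∑ k ∈ Finset.range K, Cf k / (k.factorial : ℝ)) * 2 ^ K +
        4 ^ K * (K : ℝ) ^ (2 * K) * 2 ^ K) * θ ^ (2 * K) * ‖u‖ ^ 2 := by
  have hK0 : (0 : ℝ) < K := by exact_mod_cast hK
  have hKθ : (K : ℝ) * θ ≤ 1 / 2 := by
    rw [le_div_iff₀ (by positivity)] at hθ1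
    linarith
  have hab : ∀ a ∈ Finset.range (K + 1), ∀ b ∈ Finset.range (K + 1),
      |(a : ℝ) * θ - b * θ| ≤ K * θ := by
    intro a ha b hb
    rw [Finset.mem_range] at ha hb
    have ha' : (a : ℝ) ≤ K := by exact_mod_cast Nat.lt_succ_iff.1 ha
    have hb' : (b : ℝ) ≤ K := by exact_mod_cast Nat.lt_succ_iff.1 hb
    have ha0 : (0 : ℝ) ≤ a := Nat.cast_nonneg _
    have hb0 : (0 : ℝ) ≤ b := Nat.cast_nonneg _
    rw [abs_le]
    constructor <;> nlinarith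
  obtain ⟨t, ht⟩ : ∃ t : ℕ → ℕ → ℝ, t = fun a b : ℕ => tau ((a : ℝ) * θ - b * θ) := ⟨_, rfl⟩
  have ht0 : ∀ a ∈ Finset.range (K + 1), ∀ b ∈ Finset.range (K + 1), 0 ≤ t a b := by
    intro a ha b hb
    rw [ht]
    exact tau_nonneg (by have := hab a ha b hb; linarith)
  have ht1 : ∀ a ∈ Finset.range (K + 1), ∀ b ∈ Finset.range (K + 1), t a b ≤ (K * θ) ^ 2 := by
    intro a ha b hb
    have h3 := hab a ha b hb
    have h4 : t a b ≤ ((a : ℝ) * θ - b * θ) ^ 2 := by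
      rw [ht]
      exact tau_le (by linarith)
    refine h4.trans ?_
    rw [← sq_abs]
    exact pow_le_pow_left₀ (abs_nonneg _) h3 2
  have hCf' : ∀ k, |∑ a ∈ Finset.range (K + 1), ∑ b ∈ Finset.range (K + 1),
      cc K a * cc K b * t a b ^ k| ≤ Cf k * θ ^ (2 * K) := by
    intro k
    rw [ht]
    exact hCf k
  have hgoal : ∑ a ∈ Finset.range (K + 1), ∑ b ∈ Finset.range (K + 1),
      cc K a * cc K b * inner ℝ (T (tau (a * θ - b * θ)) g) g =
      ∑ a ∈ Finset.range (K + 1), ∑ b ∈ Finset.range (K + 1),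
      cc K a * cc K b * inner ℝ (T (t a b) g) g := by
    rw [ht]
  rw [hgoal]
  have hdec : ∑ a ∈ Finset.range (K + 1), ∑ b ∈ Finset.range (K + 1),
      cc K a * cc K b * inner ℝ (T (t a b) g) g =
      ∑ k ∈ Finset.range K, (1 / (k.factorial : ℝ)) * inner ℝ (gk k) g *
        (∑ a ∈ Finset.range (K + 1), ∑ b ∈ Finset.range (K + 1), cc K a * cc K b * t a b ^ k) +
      ∑ a ∈ Finset.range (K + 1), ∑ b ∈ Finset.range (K + 1),
      cc K a * cc K b * inner ℝ (T (t a b) g -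
        ∑ k ∈ Finset.range K, (t a b ^ k / (k.factorial : ℝ)) • gk k) g := by
    have e1 : ∀ a b, inner ℝ (T (t a b) g -
        ∑ k ∈ Finset.range K, (t a b ^ k / (k.factorial : ℝ)) • gk k) g =
        inner ℝ (T (t a b) g) g -
          ∑ k ∈ Finset.range K, (t a b ^ k / (k.factorial : ℝ)) * inner ℝ (gk k) g := by
      intro a b
      rw [inner_sub_left, sum_inner]
      congr 1
      exact Finset.sum_congr rfl fun k _ => by rw [real_inner_smul_left]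
    simp only [e1, mul_sub, Finset.sum_sub_distrib]
    have e2 : ∑ a ∈ Finset.range (K + 1), ∑ b ∈ Finset.range (K + 1), cc K a * cc K b *
        ∑ k ∈ Finset.range K, (t a b ^ k / (k.factorial : ℝ)) * inner ℝ (gk k) g =
        ∑ k ∈ Finset.range K, (1 / (k.factorial : ℝ)) * inner ℝ (gk k) g *
        (∑ a ∈ Finset.range (K + 1), ∑ b ∈ Finset.range (K + 1), cc K a * cc K b * t a b ^ k) := by
      simp only [Finset.mul_sum]
      rw [Finset.sum_comm' (s := Finset.range (K + 1)) (t := fun _ => Finset.range (K + 1))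
        (t' := Finset.range (K + 1)) (s' := fun _ => Finset.range (K + 1)) (by simp)]
      rw [Finset.sum_comm]
      have e3 : ∀ a ∈ Finset.range (K + 1), ∑ b ∈ Finset.range (K + 1), ∑ k ∈ Finset.range K,
          cc K a * cc K b * ((t a b ^ k / (k.factorial : ℝ)) * inner ℝ (gk k) g) =
          ∑ k ∈ Finset.range K, ∑ b ∈ Finset.range (K + 1),
          cc K a * cc K b * ((t a b ^ k / (k.factorial : ℝ)) * inner ℝ (gk k) g) :=
        fun a _ => Finset.sum_comm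
      rw [Finset.sum_congr rfl e3, Finset.sum_comm]
      refine Finset.sum_congr rfl fun k _ => Finset.sum_congr rfl fun a _ =>
        Finset.sum_congr rfl fun b _ => ?_
      ring
    rw [e2]
    ring
  rw [hdec]
  have hu0 := norm_nonneg u
  have hg0 := norm_nonneg g
  have hfirst : |∑ k ∈ Finset.range K, (1 / (k.factorial : ℝ)) * inner ℝ (gk k) g *
        (∑ a ∈ Finset.range (K + 1), ∑ b ∈ Finset.range (K + 1), cc K a * cc K b * t a b ^ k)| ≤
      (∑ k ∈ Finset.range K, Cf k / (k.factorial : ℝ)) * 2 ^ K * θ ^ (2 * K) * ‖u‖ ^ 2 := by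
    refine (Finset.abs_sum_le_sum_abs _ _).trans ?_
    rw [Finset.sum_mul, Finset.sum_mul, Finset.sum_mul]
    refine Finset.sum_le_sum fun k _ => ?_
    rw [abs_mul, abs_mul, abs_of_nonneg (show (0 : ℝ) ≤ 1 / (k.factorial : ℝ) by positivity)]
    have e1 : |inner ℝ (gk k) g| ≤ 2 ^ K * ‖u‖ ^ 2 := by
      refine (abs_real_inner_le_norm _ _).trans ?_
      calc ‖gk k‖ * ‖g‖ ≤ (2 ^ K * ‖u‖) * ‖u‖ :=
            mul_le_mul (h1 k) hgu hg0 (by positivity)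
        _ = 2 ^ K * ‖u‖ ^ 2 := by ring
    calc 1 / (k.factorial : ℝ) * |inner ℝ (gk k) g| *
          |∑ a ∈ Finset.range (K + 1), ∑ b ∈ Finset.range (K + 1), cc K a * cc K b * t a b ^ k|
        ≤ 1 / (k.factorial : ℝ) * (2 ^ K * ‖u‖ ^ 2) * (Cf k * θ ^ (2 * K)) := by
          refine mul_le_mul ?_ (hCf' k) (abs_nonneg _) (by positivity)
          exact mul_le_mul_of_nonneg_left e1 (by positivity)
      _ = Cf k / (k.factorial : ℝ) * 2 ^ K * θ ^ (2 * K) * ‖u‖ ^ 2 := by ring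
  have hsecond : |∑ a ∈ Finset.range (K + 1), ∑ b ∈ Finset.range (K + 1),
      cc K a * cc K b * inner ℝ (T (t a b) g -
        ∑ k ∈ Finset.range K, (t a b ^ k / (k.factorial : ℝ)) • gk k) g| ≤
      4 ^ K * (K : ℝ) ^ (2 * K) * 2 ^ K * θ ^ (2 * K) * ‖u‖ ^ 2 := by
    have e1 : ∀ a ∈ Finset.range (K + 1), ∀ b ∈ Finset.range (K + 1),
        |cc K a * cc K b * inner ℝ (T (t a b) g -
        ∑ k ∈ Finset.range K, (t a b ^ k / (k.factorial : ℝ)) • gk k) g| ≤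
        |cc K a| * |cc K b| * ((K : ℝ) ^ (2 * K) * 2 ^ K * θ ^ (2 * K) * ‖u‖ ^ 2) := by
      intro a ha b hb
      rw [abs_mul, abs_mul]
      refine mul_le_mul_of_nonneg_left ?_ (by positivity)
      refine (abs_real_inner_le_norm _ _).trans ?_
      have e2 : t a b ^ K ≤ (K : ℝ) ^ (2 * K) * θ ^ (2 * K) := by
        calc t a b ^ K ≤ ((K * θ) ^ 2) ^ K := pow_le_pow_left₀ (ht0 a ha b hb) (ht1 a ha b hb) K
          _ = (K : ℝ) ^ (2 * K) * θ ^ (2 * K) := by rw [← pow_mul, mul_pow]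
      have e3 : t a b ^ K / (K.factorial : ℝ) ≤ (K : ℝ) ^ (2 * K) * θ ^ (2 * K) := by
        refine le_trans (div_le_self (pow_nonneg (ht0 a ha b hb) K) ?_) e2
        exact_mod_cast Nat.one_le_iff_ne_zero.2 (Nat.factorial_ne_zero K)
      calc _ ≤ (t a b ^ K / (K.factorial : ℝ) * (2 ^ K * ‖u‖)) * ‖u‖ :=
            mul_le_mul (h2 _ (ht0 a ha b hb)) hgu hg0
              (by have := ht0 a ha b hb; positivity)
        _ ≤ (((K : ℝ) ^ (2 * K) * θ ^ (2 * K)) * (2 ^ K * ‖u‖)) * ‖u‖ := by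
            refine mul_le_mul_of_nonneg_right ?_ hu0
            exact mul_le_mul_of_nonneg_right e3 (by positivity)
        _ = (K : ℝ) ^ (2 * K) * 2 ^ K * θ ^ (2 * K) * ‖u‖ ^ 2 := by ring
    refine (Finset.abs_sum_le_sum_abs _ _).trans ?_
    refine (Finset.sum_le_sum fun a ha => (Finset.abs_sum_le_sum_abs _ _).trans
      (Finset.sum_le_sum fun b hb => e1 a ha b hb)).trans ?_
    have e4 : ∑ a ∈ Finset.range (K + 1), ∑ b ∈ Finset.range (K + 1),
        |cc K a| * |cc K b| * ((K : ℝ) ^ (2 * K) * 2 ^ K * θ ^ (2 * K) * ‖u‖ ^ 2) =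
        (∑ a ∈ Finset.range (K + 1), |cc K a|) * (∑ b ∈ Finset.range (K + 1), |cc K b|) *
          ((K : ℝ) ^ (2 * K) * 2 ^ K * θ ^ (2 * K) * ‖u‖ ^ 2) := by
      rw [Finset.sum_mul_sum, Finset.sum_mul]
      exact Finset.sum_congr rfl fun a _ => by rw [Finset.sum_mul]
    rw [e4, sum_cc]
    refine le_of_eq ?_
    have e5 : (4 : ℝ) ^ K = 2 ^ K * 2 ^ K := by rw [← mul_pow]; norm_num
    rw [e5]
    ring
  refine (abs_add_le _ _).trans ((add_le_add hfirst hsecond).trans (le_of_eq ?_))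
  ring

section Main

variable {Ω : Type u} [NormedAddCommGroup Ω] [NormedSpace ℝ Ω] [MeasurableSpace Ω]

theorem dif_congr {μ : Measure Ω} {E : Type v} [NormedAddCommGroup E] [NormedSpace ℝ E]
    (hMP : S_MP μ) {f g : Ω → E} (h : f =ᵐ[μ] g) (K : ℕ) (θ : ℝ) :
    dif K θ f =ᵐ[μ.prod μ] dif K θ g := by
  have h1 : ∀ i : ℕ, ∀ᵐ z ∂(μ.prod μ), f (Real.cos (i * θ) • z.1 + Real.sin (i * θ) • z.2) =
      g (Real.cos (i * θ) • z.1 + Real.sin (i * θ) • z.2) := fun i =>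
    (hMP.1 (i * θ)).quasiMeasurePreserving.ae_eq_comp h
  filter_upwards [ae_all_iff.2 h1] with z hz
  unfold dif
  exact Finset.sum_congr rfl fun i _ => by rw [hz i]

theorem d2s_aux (μ : Measure Ω) (E : Type v) [NormedAddCommGroup E] [InnerProductSpace ℝ E]
    [CompleteSpace E] (hMP : S_MP μ) (h0 : S_POT E μ) (h1 : S_OUL E μ) (h2 : S_IPR E μ)
    (h3 : S_TAY.{max u v}) (h4 : S_FD) : S_D2S E μ := by
  intro K hK
  choose Cf hCf0 hCf using fun k => h4 K k hK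
  obtain ⟨Q, hQ⟩ : ∃ Q : ℝ, Q = (∑ k ∈ Finset.range K, Cf k / (k.factorial : ℝ)) * 2 ^ K +
        4 ^ K * (K : ℝ) ^ (2 * K) * 2 ^ K := ⟨_, rfl⟩
  have hQ0 : 0 ≤ Q := by
    rw [hQ]
    have : 0 ≤ ∑ k ∈ Finset.range K, Cf k / (k.factorial : ℝ) :=
      Finset.sum_nonneg fun k _ => div_nonneg (hCf0 k) (Nat.cast_nonneg _)
    positivity
  refine ⟨Real.sqrt Q, Real.sqrt_nonneg _, fun U f hU hf θ hθ0 hθ1 => ?_⟩
  have hK0 : (0 : ℝ) < K := by exact_mod_cast hK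
  have hKθ : (K : ℝ) * θ ≤ 1 / 2 := by
    rw [le_div_iff₀ (by positivity)] at hθ1
    linarith
  obtain ⟨T, J, hO⟩ := h1 2 (by norm_num)
  obtain ⟨w, hw⟩ : ∃ w : Lp E 2 μ, w = hU.toLp U := ⟨_, rfl⟩
  have hwU : U =ᵐ[μ] (w : Ω → E) := by rw [hw]; exact hU.coeFn_toLp.symm
  obtain ⟨g, hg⟩ : ∃ g : Lp E 2 μ, g = (J ^ K) w := ⟨_, rfl⟩
  have hfg : f =ᵐ[μ] (g : Ω → E) := by
    rw [hg]
    exact hf.trans (((h0 2 (by norm_num) (by norm_num)).1 (2 * K) U w hwU).trans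
      (hO.pot_ae K w).symm)
  obtain ⟨gk, hgk1, hgk2⟩ := h3 (Lp E 2 μ) T J hO.semi hO.isJ hO.norm_le K w
  rw [← hg] at hgk2
  have hgw : ‖g‖ ≤ ‖w‖ := by
    rw [hg]
    refine ((J ^ K).le_of_opNorm_le ?_ w).trans (by rw [one_mul])
    refine (norm_pow_le' J hK).trans ?_
    exact pow_le_one₀ (ContinuousLinearMap.opNorm_nonneg J) hO.norm_le
  have hmain := abs_est (T := T) K hK g w gk hgw hgk1 hgk2 Cf θ hθ0 hθ1
    (fun k => hCf k θ hθ0 hθ1)
  rw [← hQ] at hmain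
  -- the rotated functions
  have hgm : MemLp (g : Ω → E) 2 μ := Lp.memLp g
  have hrot : ∀ i : ℕ, MemLp (fun z : Ω × Ω =>
      (g : Ω → E) (Real.cos (i * θ) • z.1 + Real.sin (i * θ) • z.2)) 2 (μ.prod μ) := fun i =>
    hgm.comp_measurePreserving (hMP.1 (i * θ))
  obtain ⟨φ, hφ⟩ : ∃ φ : ℕ → Lp E 2 (μ.prod μ), φ = fun i => (hrot i).toLp _ := ⟨_, rfl⟩
  have hφae : ∀ i : ℕ, (φ i : Ω × Ω → E) =ᵐ[μ.prod μ] fun z : Ω × Ω =>
      (g : Ω → E) (Real.cos (i * θ) • z.1 + Real.sin (i * θ) • z.2) := by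
    intro i
    rw [hφ]
    exact (hrot i).coeFn_toLp
  have hdif : dif K θ f =ᵐ[μ.prod μ]
      ((∑ a ∈ Finset.range (K + 1), cc K a • φ a : Lp E 2 (μ.prod μ)) : Ω × Ω → E) := by
    refine (dif_congr hMP hfg K θ).trans ?_
    have e1 : ((∑ a ∈ Finset.range (K + 1), cc K a • φ a : Lp E 2 (μ.prod μ)) : Ω × Ω → E)
        =ᵐ[μ.prod μ] fun z => ∑ a ∈ Finset.range (K + 1), cc K a • (φ a : Ω × Ω → E) z := by
      have e2 := Lp.coeFn_finsetSum (Finset.range (K + 1)) fun a => cc K a • φ a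
      have e3 : ∀ a, ((cc K a • φ a : Lp E 2 (μ.prod μ)) : Ω × Ω → E) =ᵐ[μ.prod μ]
          fun z => cc K a • (φ a : Ω × Ω → E) z := fun a => Lp.coeFn_smul _ _
      filter_upwards [e2, ae_all_iff.2 e3] with z h5 h6
      rw [h5]
      rw [Finset.sum_apply]
      exact Finset.sum_congr rfl fun a _ => h6 a
    filter_upwards [e1, ae_all_iff.2 hφae] with z h5 h6
    rw [h5]
    unfold dif
    exact Finset.sum_congr rfl fun a _ => by rw [h6 a]; rfl
  have hinner : ∀ a ∈ Finset.range (K + 1), ∀ b ∈ Finset.range (K + 1),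
      inner ℝ (φ a) (φ b) = inner ℝ (T (tau (a * θ - b * θ)) g) g := by
    intro a ha b hb
    rw [Finset.mem_range] at ha hb
    have ha' : (a : ℝ) ≤ K := by exact_mod_cast Nat.lt_succ_iff.1 ha
    have hb' : (b : ℝ) ≤ K := by exact_mod_cast Nat.lt_succ_iff.1 hb
    have ha0 : (0 : ℝ) ≤ a := Nat.cast_nonneg _
    have hb0 : (0 : ℝ) ≤ b := Nat.cast_nonneg _
    have hab : |(a : ℝ) * θ - b * θ| ≤ 1 := by
      rw [abs_le]
      constructor <;> nlinarith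
    rw [L2.inner_def, L2.inner_def]
    have e1 := h2 (g : Ω → E) hgm (a * θ) (b * θ) hab
    have e2 : ∫ z, inner ℝ ((φ a : Ω × Ω → E) z) ((φ b : Ω × Ω → E) z) ∂(μ.prod μ) =
        ∫ z : Ω × Ω, inner ℝ ((g : Ω → E) (Real.cos (a * θ) • z.1 + Real.sin (a * θ) • z.2))
          ((g : Ω → E) (Real.cos (b * θ) • z.1 + Real.sin (b * θ) • z.2)) ∂(μ.prod μ) := by
      refine integral_congr_ae ?_
      filter_upwards [hφae a, hφae b] with z h5 h6
      rw [h5, h6]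
    rw [e2, e1]
    refine integral_congr_ae ?_
    filter_upwards [hO.ou_ae _ (tau_nonneg hab) g] with x hx
    rw [hx]
  have hnorm : ‖∑ a ∈ Finset.range (K + 1), cc K a • φ a‖ ^ 2 =
      ∑ a ∈ Finset.range (K + 1), ∑ b ∈ Finset.range (K + 1),
      cc K a * cc K b * inner ℝ (T (tau (a * θ - b * θ)) g) g := by
    rw [← real_inner_self_eq_norm_sq, sum_inner]
    refine Finset.sum_congr rfl fun a ha => ?_
    rw [inner_sum]
    refine Finset.sum_congr rfl fun b hb => ?_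
    rw [real_inner_smul_left, real_inner_smul_right, hinner a ha b hb, mul_assoc]
  have hfin : ‖∑ a ∈ Finset.range (K + 1), cc K a • φ a‖ ≤ Real.sqrt Q * θ ^ K * ‖w‖ := by
    have e1 : ‖∑ a ∈ Finset.range (K + 1), cc K a • φ a‖ ^ 2 ≤ (Real.sqrt Q * θ ^ K * ‖w‖) ^ 2 := by
      rw [hnorm]
      refine (le_abs_self _).trans (hmain.trans (le_of_eq ?_))
      rw [mul_pow, mul_pow, Real.sq_sqrt hQ0, ← pow_mul, mul_comm K 2]
    exact le_of_sq_le_sq e1 (by positivity)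
  rw [eLpNorm_congr_ae hdif, ← ENNReal.ofReal_toReal (Lp.eLpNorm_ne_top _), ← Lp.norm_def,
    eLpNorm_congr_ae hwU, ← ENNReal.ofReal_toReal (Lp.eLpNorm_ne_top w), ← Lp.norm_def,
    ← ENNReal.ofReal_mul (by positivity)]
  exact ENNReal.ofReal_le_ofReal hfin

end Main

end Pool.Agent.R876.WM.D2S207

namespace Pool.Agent.R876.WM

universe u v

/-- D2S (uses also `hMP` and `S_POT`) -/
theorem d2s_thm {Ω : Type u} [NormedAddCommGroup Ω] [NormedSpace ℝ Ω] [MeasurableSpace Ω]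
    (μ : Measure Ω) (E : Type v) [NormedAddCommGroup E] [InnerProductSpace ℝ E]
    [CompleteSpace E] (hMP : S_MP μ) (h0 : S_POT E μ) (h1 : S_OUL E μ) (h2 : S_IPR E μ)
    (h3 : S_TAY.{max u v}) (h4 : S_FD) : S_D2S E μ :=
  D2S207.d2s_aux μ E hMP h0 h1 h2 h3 h4

end Pool.Agent.R876.WM
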