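import Pool.Agent.R876.WM.Stm

/-! Project WM (helper876), piece DIFL by helper780. -/

open MeasureTheory ProbabilityTheory Set
open scoped ENNReal NNReal Topology

namespace Pool.Agent.R876.WM

universe u v

variable {Ω : Type u} [NormedAddCommGroup Ω] [NormedSpace ℝ Ω] [MeasurableSpace Ω]
  (μ : Measure Ω)
variable (E : Type v) [NormedAddCommGroup E] [NormedSpace ℝ E]

theorem difl_thm (hMP : S_MP μ) : S_DIFL E μ := by
  intro p hp f hf K θ
  have hg : ∀ i : ℕ, MemLp (fun z : Ω × Ω => f (Real.cos (i * θ) • z.1 + Real.sin (i * θ) • z.2))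
      p (μ.prod μ) := fun i => hf.comp_measurePreserving (hMP.1 (i * θ))
  have hn : ∀ i : ℕ, eLpNorm (fun z : Ω × Ω =>
      f (Real.cos (i * θ) • z.1 + Real.sin (i * θ) • z.2)) p (μ.prod μ) = eLpNorm f p μ :=
    fun i => eLpNorm_comp_measurePreserving hf.1 (hMP.1 (i * θ))
  have hm : ∀ i : ℕ, MemLp (fun z : Ω × Ω => ((-1 : ℝ) ^ (K - i) * (K.choose i : ℝ)) •
      f (Real.cos (i * θ) • z.1 + Real.sin (i * θ) • z.2)) p (μ.prod μ) :=
    fun i => (hg i).const_smul _
  have hdif : dif K θ f = fun z : Ω × Ω => ∑ i ∈ Finset.range (K + 1),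
      ((-1 : ℝ) ^ (K - i) * (K.choose i : ℝ)) •
        f (Real.cos (i * θ) • z.1 + Real.sin (i * θ) • z.2) := rfl
  constructor
  · rw [hdif]
    exact memLp_finsetSum _ fun i _ => hm i
  · have h1 : dif K θ f = ∑ i ∈ Finset.range (K + 1), fun z : Ω × Ω =>
        ((-1 : ℝ) ^ (K - i) * (K.choose i : ℝ)) •
          f (Real.cos (i * θ) • z.1 + Real.sin (i * θ) • z.2) := by
      rw [hdif]
      funext z
      rw [Finset.sum_apply]
    rw [h1]
    refine (eLpNorm_sum_le (fun i _ => (hm i).1) hp).trans ?_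
    have h2 : ∀ i ∈ Finset.range (K + 1), eLpNorm (fun z : Ω × Ω =>
        ((-1 : ℝ) ^ (K - i) * (K.choose i : ℝ)) •
          f (Real.cos (i * θ) • z.1 + Real.sin (i * θ) • z.2)) p (μ.prod μ) =
        ENNReal.ofReal (K.choose i : ℝ) * eLpNorm f p μ := by
      intro i _
      have h3 := eLpNorm_const_smul (μ := μ.prod μ) (p := p)
        ((-1 : ℝ) ^ (K - i) * (K.choose i : ℝ))
        (fun z : Ω × Ω => f (Real.cos (i * θ) • z.1 + Real.sin (i * θ) • z.2))
      rw [hn i] at h3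
      have h4 : ‖((-1 : ℝ) ^ (K - i) * (K.choose i : ℝ))‖ₑ = ENNReal.ofReal (K.choose i : ℝ) := by
        rw [← ofReal_norm, norm_mul, norm_pow, norm_neg, norm_one, one_pow, one_mul,
          Real.norm_of_nonneg (Nat.cast_nonneg _)]
      rw [h4] at h3
      exact h3
    rw [Finset.sum_congr rfl h2, ← Finset.sum_mul]
    rw [← ENNReal.ofReal_sum_of_nonneg (fun i _ => Nat.cast_nonneg _), ← Nat.cast_sum,
      Nat.sum_range_choose]
    simp

end Pool.Agent.R876.WM
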