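import Mathlib

/-!
Project WM (MP_e701d5_pr).  Definitions: Ornstein-Uhlenbeck semigroup (Mehler formula), Bessel
potentials, Sobolev-Watanabe spaces, multiplicators, over a centred Gaussian measure on a separable
Banach space.
-/

open MeasureTheory ProbabilityTheory Set
open scoped ENNReal NNReal Topology

universe u v

namespace Pool.Agent.R876.WM

section Basic

variable {Ω : Type u} [NormedAddCommGroup Ω] [NormedSpace ℝ Ω] [MeasurableSpace Ω]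
variable {E : Type v} [NormedAddCommGroup E] [NormedSpace ℝ E]

/-- The Ornstein-Uhlenbeck semigroup `P_t = exp (t L)` by Mehler's formula. -/
noncomputable def ou (μ : Measure Ω) (t : ℝ) (f : Ω → E) (x : Ω) : E :=
  ∫ y, f (Real.exp (-t) • x + Real.sqrt (1 - Real.exp (-2 * t)) • y) ∂μ

/-- The Bessel potential `(1 - L)^(-a) = Γ(a)⁻¹ ∫₀^∞ t^(a-1) e^(-t) P_t dt`, `a > 0`. -/
noncomputable def bes (μ : Measure Ω) (a : ℝ) (f : Ω → E) (x : Ω) : E :=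
  ∫ t in Set.Ioi (0 : ℝ), (t ^ (a - 1) * Real.exp (-t) / Real.Gamma a) • ou μ t f x

/-- The operator `(1 - L)^(-r/2)`. -/
noncomputable def pot (μ : Measure Ω) (r : ℕ) (f : Ω → E) : Ω → E :=
  if r = 0 then f else bes μ ((r : ℝ) / 2) f

/-- `V` belongs to `D^p_r` and `U = (1 - L)^(r/2) V`; thus `‖V‖_{p,r} = ‖U‖_p`. -/
def IsD (μ : Measure Ω) (p : ℝ≥0∞) (r : ℕ) (V U : Ω → E) : Prop :=
  MemLp U p μ ∧ V =ᵐ[μ] pot μ r U

/-- `V` belongs to `D^2_∞`. -/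
def D2inf (μ : Measure Ω) (V : Ω → E) : Prop := ∀ r : ℕ, ∃ U, IsD μ 2 r V U

/-- `V` belongs to `D^∞`. -/
def Dinf (μ : Measure Ω) (V : Ω → E) : Prop :=
  ∀ p : ℝ, 1 < p → ∀ r : ℕ, ∃ U, IsD μ (ENNReal.ofReal p) r V U

/-- `V ↦ A V` maps `D^2_∞` into itself continuously. -/
def CtsD2 (μ : Measure Ω) (A : Ω → (E →L[ℝ] E)) : Prop :=
  ∀ r : ℕ, ∃ (s : ℕ) (C : ℝ≥0), ∀ V : Ω → E, D2inf μ V → ∀ U : Ω → E, IsD μ 2 s V U →
    ∃ U' : Ω → E, IsD μ 2 r (fun ω => A ω (V ω)) U' ∧ eLpNorm U' 2 μ ≤ C * eLpNorm U 2 μ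

/-- `V ↦ A V` maps `D^∞` into itself continuously (`A` is a multiplicator). -/
def IsMult (μ : Measure Ω) (A : Ω → (E →L[ℝ] E)) : Prop :=
  ∀ p : ℝ, 1 < p → ∀ r : ℕ, ∃ q : ℝ, 1 < q ∧ ∃ (s : ℕ) (C : ℝ≥0), ∀ V : Ω → E, Dinf μ V →
    ∀ U : Ω → E, IsD μ (ENNReal.ofReal q) s V U →
    ∃ U' : Ω → E, IsD μ (ENNReal.ofReal p) r (fun ω => A ω (V ω)) U' ∧
      eLpNorm U' (ENNReal.ofReal p) μ ≤ C * eLpNorm U (ENNReal.ofReal q) μ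

/-- `K`-th difference with step `θ` of the rotated function `z ↦ f (cos α • z.1 + sin α • z.2)`. -/
noncomputable def dif (K : ℕ) (θ : ℝ) (f : Ω → E) (z : Ω × Ω) : E :=
  ∑ i ∈ Finset.range (K + 1), ((-1 : ℝ) ^ (K - i) * (K.choose i : ℝ)) •
    f (Real.cos (i * θ) • z.1 + Real.sin (i * θ) • z.2)

/-- the time of the Ornstein-Uhlenbeck semigroup which corresponds to the angle `α` -/
noncomputable def tau (α : ℝ) : ℝ := -Real.log (Real.cos α)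

end Basic

/-- A strongly continuous contraction semigroup. -/
structure Semi {X : Type*} [NormedAddCommGroup X] [NormedSpace ℝ X] (T : ℝ → X →L[ℝ] X) :
    Prop where
  zero : T 0 = ContinuousLinearMap.id ℝ X
  add : ∀ s t, 0 ≤ s → 0 ≤ t → T (s + t) = (T s).comp (T t)
  norm_le : ∀ t, 0 ≤ t → ‖T t‖ ≤ 1
  cont : ∀ f, ContinuousOn (fun t => T t f) (Set.Ici 0)

/-- `J = ∫₀^∞ e^(-t) T_t dt`. -/
def IsJ {X : Type*} [NormedAddCommGroup X] [NormedSpace ℝ X] (T : ℝ → X →L[ℝ] X)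
    (J : X →L[ℝ] X) : Prop :=
  ∀ f, J f = ∫ t in Set.Ioi (0 : ℝ), Real.exp (-t) • T t f

section Op

variable {Ω : Type u} [NormedAddCommGroup Ω] [NormedSpace ℝ Ω] [MeasurableSpace Ω]

/-- the Ornstein-Uhlenbeck semigroup and `J = (1 - L)⁻¹` as operators on `L^p` -/
structure OUL (μ : Measure Ω) (E : Type v) [NormedAddCommGroup E] [NormedSpace ℝ E]
    (p : ℝ≥0∞) [Fact (1 ≤ p)]
    (T : ℝ → Lp E p μ →L[ℝ] Lp E p μ) (J : Lp E p μ →L[ℝ] Lp E p μ) : Prop where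
  semi : Semi T
  ou_ae : ∀ t, 0 ≤ t → ∀ f : Lp E p μ, ((T t f : Lp E p μ) : Ω → E) =ᵐ[μ] ou μ t f
  isJ : IsJ T J
  norm_le : ‖J‖ ≤ 1
  pot_ae : ∀ (m : ℕ) (U : Lp E p μ), (((J ^ m) U : Lp E p μ) : Ω → E) =ᵐ[μ] pot μ (2 * m) U

end Op

/-- the real Hilbert space `ℓ²(I)` -/
abbrev L2 (I : Type v) : Type v := lp (fun _ : I => ℝ) 2

section Unif

variable {Ω : Type u} [NormedAddCommGroup Ω] [NormedSpace ℝ Ω] [MeasurableSpace Ω]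
variable {E : Type v} [NormedAddCommGroup E] [NormedSpace ℝ E]

/-- uniform bound in `L^p` -/
def UB (μ : Measure Ω) (p : ℕ) (S : Set (Ω → E)) : Prop :=
  ∃ D : ℝ, 0 ≤ D ∧ ∀ V ∈ S, MemLp V (p : ℝ≥0∞) μ ∧ eLpNorm V (p : ℝ≥0∞) μ ≤ ENNReal.ofReal D

/-- uniform bound in every `D^p_{2m}` -/
def UD (μ : Measure Ω) (p : ℕ) (S : Set (Ω → E)) : Prop :=
  ∀ m : ℕ, ∃ D : ℝ, 0 ≤ D ∧ ∀ V ∈ S, ∃ U, IsD μ (p : ℝ≥0∞) (2 * m) V U ∧
    eLpNorm U (p : ℝ≥0∞) μ ≤ ENNReal.ofReal D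

/-- uniform rotation smoothness in `L^p` -/
def USm (μ : Measure Ω) (p : ℕ) (S : Set (Ω → E)) : Prop :=
  ∀ j : ℕ, ∃ K0 : ℕ, ∀ K ≥ K0, ∃ D : ℝ, 0 ≤ D ∧ ∀ V ∈ S, ∀ θ : ℝ, 0 < θ → θ ≤ 1 / (2 * (K : ℝ)) →
    eLpNorm (dif K θ V) (p : ℝ≥0∞) (μ.prod μ) ≤ ENNReal.ofReal (D * θ ^ j)

end Unif

end Pool.Agent.R876.WM
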