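import Pool.Agent.R876.WM.Stm

/-!
Project WM, piece FD: double finite differences of `(tau α)^k`.
-/

open MeasureTheory ProbabilityTheory Set
open scoped ENNReal NNReal Topology

namespace Pool.Agent.R876.WM

theorem fd_sum_pow (K u : ℕ) (hu : u < K) :
    ∑ a ∈ Finset.range (K + 1), ((-1 : ℝ) ^ (K - a) * (K.choose a : ℝ)) * (a : ℝ) ^ u = 0 := by
  have h := fwdDiff_iter_pow_eq_zero_of_lt (R := ℝ) hu
  have h2 := congrFun h 0
  rw [fwdDiff_iter_eq_sum_shift] at h2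
  simp only [Pi.zero_apply] at h2
  rw [← h2]
  refine Finset.sum_congr rfl fun a _ => ?_
  simp

theorem fd_sum_sub_pow (K n : ℕ) (hn : n < 2 * K) :
    ∑ a ∈ Finset.range (K + 1), ∑ b ∈ Finset.range (K + 1),
      ((-1 : ℝ) ^ (K - a) * (K.choose a : ℝ)) * ((-1 : ℝ) ^ (K - b) * (K.choose b : ℝ)) *
        ((a : ℝ) - b) ^ n = 0 := by
  have h1 : ∀ a b : ℕ, ((a : ℝ) - b) ^ n =
      ∑ m ∈ Finset.range (n + 1), ((n.choose m : ℝ) * (-1) ^ (n - m)) *
        ((a : ℝ) ^ m * (b : ℝ) ^ (n - m)) := by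
    intro a b
    rw [sub_eq_add_neg, add_pow]
    refine Finset.sum_congr rfl fun m _ => ?_
    rw [neg_pow]
    ring
  have h2 : ∑ a ∈ Finset.range (K + 1), ∑ b ∈ Finset.range (K + 1),
      ((-1 : ℝ) ^ (K - a) * (K.choose a : ℝ)) * ((-1 : ℝ) ^ (K - b) * (K.choose b : ℝ)) *
        ((a : ℝ) - b) ^ n =
      ∑ m ∈ Finset.range (n + 1), ((n.choose m : ℝ) * (-1) ^ (n - m)) *
        ((∑ a ∈ Finset.range (K + 1), ((-1 : ℝ) ^ (K - a) * (K.choose a : ℝ)) * (a : ℝ) ^ m) *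
        (∑ b ∈ Finset.range (K + 1), ((-1 : ℝ) ^ (K - b) * (K.choose b : ℝ)) *
          (b : ℝ) ^ (n - m))) := by
    simp_rw [h1, Finset.sum_mul_sum, Finset.mul_sum]
    symm
    rw [Finset.sum_comm]
    refine Finset.sum_congr rfl fun a _ => ?_
    rw [Finset.sum_comm]
    refine Finset.sum_congr rfl fun b _ => ?_
    refine Finset.sum_congr rfl fun m _ => ?_
    ring
  rw [h2]
  refine Finset.sum_eq_zero fun m hm => ?_
  rw [Finset.mem_range] at hm
  rcases lt_or_ge m K with h | h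
  · rw [fd_sum_pow K m h]
    ring
  · rw [fd_sum_pow K (n - m) (by omega)]
    ring

theorem fd_taylor (f : ℝ → ℝ) (hf : AnalyticAt ℝ f 0)
    (hc : ContinuousOn f (Set.Icc (-(1 / 2)) (1 / 2))) (N : ℕ) :
    ∃ (c : ℕ → ℝ) (C : ℝ), 0 ≤ C ∧ ∀ y : ℝ, |y| ≤ 1 / 2 →
      |f y - ∑ n ∈ Finset.range N, c n * y ^ n| ≤ C * |y| ^ N := by
  obtain ⟨p, hp⟩ := hf
  have hO := hp.isBigO_sub_partialSum_pow N
  obtain ⟨C₁, hC₁⟩ := hO.bound
  obtain ⟨δ, hδ, hδ'⟩ := Metric.eventually_nhds_iff.1 hC₁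
  have hcont : ContinuousOn (fun y => f y - ∑ n ∈ Finset.range N, p.coeff n * y ^ n)
      (Set.Icc (-(1 / 2)) (1 / 2)) := by
    refine hc.sub ?_
    fun_prop
  obtain ⟨C₂, hC₂⟩ := isCompact_Icc.exists_bound_of_continuousOn hcont
  refine ⟨fun n => p.coeff n, |C₁| + |C₂| / δ ^ N, by positivity, fun y hy => ?_⟩
  rcases lt_or_ge |y| δ with h | h
  · have h1 := hδ' (show dist y 0 < δ by simpa using h)
    have h2 : p.partialSum N y = ∑ n ∈ Finset.range N, p.coeff n * y ^ n := by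
      unfold FormalMultilinearSeries.partialSum
      refine Finset.sum_congr rfl fun n _ => ?_
      rw [FormalMultilinearSeries.apply_eq_pow_smul_coeff, smul_eq_mul, mul_comm]
    rw [h2, zero_add, Real.norm_eq_abs, Real.norm_eq_abs, Real.norm_eq_abs, abs_pow,
      abs_abs] at h1
    refine h1.trans ?_
    have h3 : 0 ≤ |C₂| / δ ^ N := by positivity
    have h4 : C₁ ≤ |C₁| + |C₂| / δ ^ N := by linarith [le_abs_self C₁]
    exact mul_le_mul_of_nonneg_right h4 (by positivity)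
  · have h1 := hC₂ y (abs_le.1 hy)
    rw [Real.norm_eq_abs] at h1
    refine h1.trans ?_
    have h2 : δ ^ N ≤ |y| ^ N := pow_le_pow_left₀ hδ.le h N
    have h3 : |C₂| = |C₂| / δ ^ N * δ ^ N := by
      field_simp
    calc C₂ ≤ |C₂| := le_abs_self _
      _ = |C₂| / δ ^ N * δ ^ N := h3
      _ ≤ |C₂| / δ ^ N * |y| ^ N := mul_le_mul_of_nonneg_left h2 (by positivity)
      _ ≤ (|C₁| + |C₂| / δ ^ N) * |y| ^ N :=
        mul_le_mul_of_nonneg_right (by linarith [abs_nonneg C₁]) (by positivity)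

theorem fd_tau_analytic : AnalyticAt ℝ tau 0 := by
  unfold tau
  refine (AnalyticAt.log Real.analyticAt_cos ?_).neg
  simp

theorem fd_tau_cont : ContinuousOn tau (Set.Icc (-(1 / 2)) (1 / 2)) := by
  unfold tau
  refine (ContinuousOn.log Real.continuous_cos.continuousOn ?_).neg
  intro x hx
  have hpi := Real.pi_gt_three
  exact (Real.cos_pos_of_mem_Ioo ⟨by linarith [hx.1], by linarith [hx.2]⟩).ne'

theorem fd_thm : S_FD := by
  intro K k hK
  have hK0 : (0 : ℝ) < K := by exact_mod_cast hK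
  obtain ⟨c, C, hC, hC'⟩ := fd_taylor (fun x => tau x ^ k) (fd_tau_analytic.pow k)
    (fd_tau_cont.pow k) (2 * K)
  set cf : ℕ → ℝ := fun a => (-1 : ℝ) ^ (K - a) * (K.choose a : ℝ) with hcf
  refine ⟨(∑ a ∈ Finset.range (K + 1), ∑ b ∈ Finset.range (K + 1), |cf a| * |cf b|) *
    (C * (K : ℝ) ^ (2 * K)), by positivity, fun θ hθ hθ' => ?_⟩
  have hθK : K * θ ≤ 1 / 2 := by
    calc K * θ ≤ K * (1 / (2 * (K : ℝ))) := by gcongr
      _ = 1 / 2 := by field_simp
  have hab : ∀ a ∈ Finset.range (K + 1), ∀ b ∈ Finset.range (K + 1),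
      |(a : ℝ) * θ - b * θ| ≤ K * θ := by
    intro a ha b hb
    rw [Finset.mem_range] at ha hb
    have ha' : (a : ℝ) ≤ K := by exact_mod_cast (show a ≤ K by omega)
    have hb' : (b : ℝ) ≤ K := by exact_mod_cast (show b ≤ K by omega)
    have ha0 : (0 : ℝ) ≤ a := by positivity
    have hb0 : (0 : ℝ) ≤ b := by positivity
    rw [abs_le]
    constructor <;> nlinarith
  have hzero : ∑ a ∈ Finset.range (K + 1), ∑ b ∈ Finset.range (K + 1), cf a * cf b *
      (∑ n ∈ Finset.range (2 * K), c n * ((a : ℝ) * θ - b * θ) ^ n) = 0 := by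
    have h1 : ∑ a ∈ Finset.range (K + 1), ∑ b ∈ Finset.range (K + 1), cf a * cf b *
      (∑ n ∈ Finset.range (2 * K), c n * ((a : ℝ) * θ - b * θ) ^ n) =
      ∑ n ∈ Finset.range (2 * K), (c n * θ ^ n) * ∑ a ∈ Finset.range (K + 1),
        ∑ b ∈ Finset.range (K + 1), cf a * cf b * ((a : ℝ) - b) ^ n := by
      simp_rw [Finset.mul_sum]
      symm
      rw [Finset.sum_comm]
      refine Finset.sum_congr rfl fun a _ => ?_
      rw [Finset.sum_comm]
      refine Finset.sum_congr rfl fun b _ => ?_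
      refine Finset.sum_congr rfl fun n _ => ?_
      rw [← sub_mul, mul_pow]
      ring
    rw [h1]
    refine Finset.sum_eq_zero fun n hn => ?_
    rw [Finset.mem_range] at hn
    rw [fd_sum_sub_pow K n hn, mul_zero]
  have hmain : ∑ a ∈ Finset.range (K + 1), ∑ b ∈ Finset.range (K + 1),
      cf a * cf b * (tau (a * θ - b * θ)) ^ k =
      ∑ a ∈ Finset.range (K + 1), ∑ b ∈ Finset.range (K + 1),
      cf a * cf b * ((tau (a * θ - b * θ)) ^ k -
        ∑ n ∈ Finset.range (2 * K), c n * ((a : ℝ) * θ - b * θ) ^ n) := by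
    simp_rw [mul_sub, Finset.sum_sub_distrib]
    rw [hzero, sub_zero]
  rw [hmain]
  refine (Finset.abs_sum_le_sum_abs _ _).trans ?_
  rw [Finset.sum_mul, Finset.sum_mul]
  refine Finset.sum_le_sum fun a ha => (Finset.abs_sum_le_sum_abs _ _).trans ?_
  rw [Finset.sum_mul, Finset.sum_mul]
  refine Finset.sum_le_sum fun b hb => ?_
  rw [abs_mul, abs_mul]
  have h2 := hC' ((a : ℝ) * θ - b * θ) ((hab a ha b hb).trans hθK)
  have h3 : |(a : ℝ) * θ - b * θ| ^ (2 * K) ≤ (K * θ) ^ (2 * K) :=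
    pow_le_pow_left₀ (abs_nonneg _) (hab a ha b hb) _
  calc |cf a| * |cf b| * |(tau (a * θ - b * θ)) ^ k -
        ∑ n ∈ Finset.range (2 * K), c n * ((a : ℝ) * θ - b * θ) ^ n|
      ≤ |cf a| * |cf b| * (C * (K * θ) ^ (2 * K)) := by
        refine mul_le_mul_of_nonneg_left (h2.trans ?_) (by positivity)
        exact mul_le_mul_of_nonneg_left h3 hC
    _ = |cf a| * |cf b| * (C * (K : ℝ) ^ (2 * K)) * θ ^ (2 * K) := by
        rw [mul_pow]
        ring

end Pool.Agent.R876.WM
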