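import Pool.Agent.R876.WM.Stm

/-!
Project WM, piece FINA: continuity from boundedness.
-/

open MeasureTheory ProbabilityTheory Set
open scoped ENNReal NNReal Topology

namespace Pool.Agent.R876.WM

universe u v

section Scal

variable {Ω : Type u} [NormedAddCommGroup Ω] [NormedSpace ℝ Ω] [MeasurableSpace Ω]
  (μ : Measure Ω)
variable {E : Type v} [NormedAddCommGroup E] [NormedSpace ℝ E]

theorem fina_ou_smul (c : ℝ) (t : ℝ) (f : Ω → E) :
    ou μ t (fun x => c • f x) = fun x => c • ou μ t f x := by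
  funext x
  unfold ou
  rw [integral_smul]

theorem fina_bes_smul (c : ℝ) (a : ℝ) (f : Ω → E) :
    bes μ a (fun x => c • f x) = fun x => c • bes μ a f x := by
  funext x
  unfold bes
  rw [← integral_smul]
  refine integral_congr_ae (Filter.Eventually.of_forall fun t => ?_)
  simp only [fina_ou_smul]
  rw [smul_comm]

theorem fina_pot_smul (c : ℝ) (r : ℕ) (f : Ω → E) :
    pot μ r (fun x => c • f x) = fun x => c • pot μ r f x := by
  unfold pot
  split_ifs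
  · rfl
  · exact fina_bes_smul μ c _ f

theorem fina_isD_smul {μ : Measure Ω} (c : ℝ) {p : ℝ≥0∞} {r : ℕ} {V U : Ω → E}
    (h : IsD μ p r V U) : IsD μ p r (fun x => c • V x) (fun x => c • U x) := by
  refine ⟨h.1.const_smul c, ?_⟩
  rw [fina_pot_smul]
  filter_upwards [h.2] with x hx
  rw [hx]

theorem fina_pot_zero (r : ℕ) : pot μ r (fun _ => (0 : E)) = fun _ => 0 := by
  have h := fina_pot_smul μ (0 : ℝ) r (fun _ => (0 : E))
  simpa using h

end Scal

variable {Ω : Type u} [NormedAddCommGroup Ω] [NormedSpace ℝ Ω] [MeasurableSpace Ω]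
  (μ : Measure Ω) [IsProbabilityMeasure μ]
variable (E : Type v) [NormedAddCommGroup E] [NormedSpace ℝ E]

theorem fina_mono {μ : Measure Ω} [IsProbabilityMeasure μ] {E : Type v} [NormedAddCommGroup E]
    [NormedSpace ℝ E] {p q : ℝ≥0∞} (hpq : p ≤ q) {r : ℕ} {V U : Ω → E} (h : IsD μ q r V U) :
    IsD μ p r V U ∧ eLpNorm U p μ ≤ eLpNorm U q μ :=
  ⟨⟨h.1.mono_exponent hpq, h.2⟩, eLpNorm_le_eLpNorm_of_exponent_le hpq h.1.1⟩

/-- uniform bounds for a sequence: all large members are bounded by `1`, the others are finite -/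
theorem fina_unif {a : ℕ → ℝ≥0∞} {N : ℕ} (h1 : ∀ n, a n ≠ ∞) (h2 : ∀ n, N ≤ n → a n ≤ 1) :
    ∃ D : ℝ, 0 ≤ D ∧ ∀ n, a n ≤ ENNReal.ofReal D := by
  refine ⟨1 + ∑ n ∈ Finset.range N, (a n).toReal, by positivity, fun n => ?_⟩
  rcases le_or_gt N n with h | h
  · refine (h2 n h).trans ?_
    rw [ENNReal.one_le_ofReal]
    have : 0 ≤ ∑ n ∈ Finset.range N, (a n).toReal := by positivity
    linarith
  · refine (ENNReal.le_ofReal_iff_toReal_le (h1 n) (by positivity)).2 ?_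
    have h3 : (a n).toReal ≤ ∑ n ∈ Finset.range N, (a n).toReal :=
      Finset.single_le_sum (f := fun n => (a n).toReal) (fun _ _ => ENNReal.toReal_nonneg)
        (Finset.mem_range.2 h)
    linarith

theorem fina_core (h : S_POT E μ) : S_FINA μ E := by
  intro A hA p hp r
  by_contra hcon
  push Not at hcon
  -- the sequence
  have hseq : ∀ n : ℕ, ∃ V U : Ω → E, Dinf μ V ∧
      IsD μ (ENNReal.ofReal ((n : ℝ) + 2)) (2 * n) V U ∧
      ∀ U' : Ω → E, IsD μ (ENNReal.ofReal p) r (fun ω => A ω (V ω)) U' →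
        ((n : ℝ≥0) : ℝ≥0∞) * eLpNorm U (ENNReal.ofReal ((n : ℝ) + 2)) μ <
          eLpNorm U' (ENNReal.ofReal p) μ := by
    intro n
    obtain ⟨V, hV, U, hU, h'⟩ := hcon ((n : ℝ) + 2) (by
      have : (0 : ℝ) ≤ n := by positivity
      linarith) (2 * n) (n : ℝ≥0)
    exact ⟨V, U, hV, hU, h'⟩
  choose V U hV hU hno using hseq
  set Q : ℕ → ℝ≥0∞ := fun n => ENNReal.ofReal ((n : ℝ) + 2) with hQ
  have hQ1 : ∀ n, 1 ≤ Q n := by
    intro n
    rw [hQ]
    simp only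
    rw [ENNReal.one_le_ofReal]
    have : (0 : ℝ) ≤ n := by positivity
    linarith
  have hQt : ∀ n, Q n ≠ ∞ := fun n => ENNReal.ofReal_ne_top
  have hQk : ∀ n k : ℕ, k ≤ n + 2 → (k : ℝ≥0∞) ≤ Q n := by
    intro n k hk
    rw [hQ]
    simp only
    rw [← ENNReal.ofReal_natCast k]
    apply ENNReal.ofReal_le_ofReal
    exact_mod_cast hk
  -- nonzero norms
  have hne : ∀ n, eLpNorm (U n) (Q n) μ ≠ 0 := by
    intro n h0
    have hQ0 : Q n ≠ 0 := by
      have := hQ1 n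
      intro h'
      rw [h'] at this
      exact absurd this (by norm_num)
    have hU0 : U n =ᵐ[μ] fun _ => 0 := (eLpNorm_eq_zero_iff (hU n).1.1 hQ0).1 h0
    have hV0 : V n =ᵐ[μ] fun _ => 0 := by
      refine (hU n).2.trans ?_
      have := (h (Q n) (hQ1 n) (hQt n)).1 (2 * n) (U n) (fun _ => 0) hU0
      rwa [fina_pot_zero] at this
    have h1 : IsD μ (ENNReal.ofReal p) r (fun ω => A ω (V n ω)) (fun _ => (0 : E)) := by
      refine ⟨MemLp.zero', ?_⟩
      rw [fina_pot_zero]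
      filter_upwards [hV0] with ω hω
      rw [hω, map_zero]
    have h2 := hno n _ h1
    have h3 : eLpNorm (fun _ : Ω => (0 : E)) (ENNReal.ofReal p) μ = 0 := eLpNorm_zero'
    rw [h3] at h2
    exact absurd h2 (by simp)
  have hnt : ∀ n, eLpNorm (U n) (Q n) μ ≠ ∞ := fun n => (hU n).1.2.ne
  set l : ℕ → ℝ := fun n => (eLpNorm (U n) (Q n) μ).toReal with hl
  have hl0 : ∀ n, 0 < l n := fun n => ENNReal.toReal_pos (hne n) (hnt n)
  set W : ℕ → Ω → E := fun n x => (l n)⁻¹ • V n x with hW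
  set X : ℕ → Ω → E := fun n x => (l n)⁻¹ • U n x with hX
  have hWX : ∀ n, IsD μ (Q n) (2 * n) (W n) (X n) := fun n => fina_isD_smul _ (hU n)
  have hX1 : ∀ n, eLpNorm (X n) (Q n) μ = 1 := by
    intro n
    have h1 : eLpNorm (X n) (Q n) μ = ‖(l n)⁻¹‖ₑ * eLpNorm (U n) (Q n) μ :=
      eLpNorm_const_smul (l n)⁻¹ (U n) (Q n) μ
    rw [h1, Real.enorm_of_nonneg (by have := hl0 n; positivity)]
    have h2 : eLpNorm (U n) (Q n) μ = ENNReal.ofReal (l n) := (ENNReal.ofReal_toReal (hnt n)).symm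
    rw [h2, ← ENNReal.ofReal_mul (by have := hl0 n; positivity), inv_mul_cancel₀ (hl0 n).ne',
      ENNReal.ofReal_one]
  have hWD : ∀ n, Dinf μ (W n) := by
    intro n q hq m
    obtain ⟨Y, hY⟩ := hV n q hq m
    exact ⟨_, fina_isD_smul (l n)⁻¹ hY⟩
  -- boundedness in `L^q`
  have hUB : ∀ q : ℕ, 2 ≤ q → UB μ q (Set.range W) := by
    intro q hq
    have hm : ∀ n, MemLp (W n) (q : ℝ≥0∞) μ := by
      intro n
      obtain ⟨Y, hY⟩ := hWD n (q : ℝ) (by exact_mod_cast (show 1 < q by omega)) 0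
      rw [ENNReal.ofReal_natCast] at hY
      have h1 := hY.2
      simp only [pot, if_true] at h1
      exact (memLp_congr_ae h1).2 hY.1
    obtain ⟨D, hD, hD'⟩ := fina_unif (a := fun n => eLpNorm (W n) (q : ℝ≥0∞) μ) (N := q)
      (fun n => (hm n).2.ne) (by
        intro n hn
        have h1 : eLpNorm (W n) (Q n) μ ≤ 1 := by
          rw [eLpNorm_congr_ae (hWX n).2, ← hX1 n]
          exact ((h (Q n) (hQ1 n) (hQt n)).2.1 (2 * n) (X n) (hWX n).1).2
        refine le_trans ?_ h1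
        exact eLpNorm_le_eLpNorm_of_exponent_le (hQk n q (by omega)) (hm n).1)
    refine ⟨D, hD, ?_⟩
    rintro _ ⟨n, rfl⟩
    exact ⟨hm n, hD' n⟩
  -- boundedness in `D^2_{2m}`
  have hUD : UD μ 2 (Set.range W) := by
    intro m
    have hex : ∀ n, ∃ Y, IsD μ ((2 : ℕ) : ℝ≥0∞) (2 * m) (W n) Y ∧
        (m ≤ n → eLpNorm Y ((2 : ℕ) : ℝ≥0∞) μ ≤ 1) := by
      intro n
      rcases le_or_gt m n with hmn | hmn
      · obtain ⟨Y, hY1, hY2, hY3⟩ := (h (Q n) (hQ1 n) (hQt n)).2.2 (2 * m) n (by omega) (X n)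
          (hWX n).1
        have hY : IsD μ (Q n) (2 * m) (W n) Y := ⟨hY1, (hWX n).2.trans hY3⟩
        obtain ⟨h1, h2⟩ := fina_mono (hQk n 2 (by omega)) hY
        exact ⟨Y, h1, fun _ => h2.trans (hY2.trans (hX1 n).le)⟩
      · obtain ⟨Y, hY⟩ := hWD n 2 (by norm_num) (2 * m)
        refine ⟨Y, ?_, fun h' => absurd h' (by omega)⟩
        have : ENNReal.ofReal (2 : ℝ) = ((2 : ℕ) : ℝ≥0∞) := by
          rw [← ENNReal.ofReal_natCast]
          norm_num
        rwa [this] at hY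
    choose Y hY hY' using hex
    obtain ⟨D, hD, hD'⟩ := fina_unif (a := fun n => eLpNorm (Y n) ((2 : ℕ) : ℝ≥0∞) μ) (N := m)
      (fun n => (hY n).1.2.ne) hY'
    refine ⟨D, hD, ?_⟩
    rintro _ ⟨n, rfl⟩
    exact ⟨Y n, hY n, hD' n⟩
  -- the images
  obtain ⟨D, hD, hD'⟩ := hA (Set.range W) hUB hUD (⌈p⌉₊ + 2) (by omega) r
  obtain ⟨n, hn⟩ := exists_nat_ge D
  obtain ⟨Y, hY, hYn⟩ := hD' (fun ω => A ω (W n ω)) ⟨W n, ⟨n, rfl⟩, rfl⟩
  set P : ℝ≥0∞ := ((⌈p⌉₊ + 2 : ℕ) : ℝ≥0∞) with hP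
  have hP1 : 1 ≤ P := by
    rw [hP]
    exact_mod_cast (show 1 ≤ ⌈p⌉₊ + 2 by omega)
  have hpP : ENNReal.ofReal p ≤ P := by
    rw [hP, ← ENNReal.ofReal_natCast]
    apply ENNReal.ofReal_le_ofReal
    have := Nat.le_ceil p
    push_cast
    linarith
  obtain ⟨Z, hZ1, hZ2, hZ3⟩ := (h P hP1 (ENNReal.natCast_ne_top _)).2.2 r r (by omega) Y hY.1
  have hZ : IsD μ P r (fun ω => A ω (W n ω)) Z := ⟨hZ1, hY.2.trans hZ3⟩
  obtain ⟨hZp, hZn⟩ := fina_mono hpP hZ
  have hfin := fina_isD_smul (l n) hZp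
  have hAV : (fun x => l n • A x (W n x)) = fun ω => A ω (V n ω) := by
    funext x
    rw [← map_smul]
    congr 1
    rw [hW]
    simp only
    rw [smul_smul, mul_inv_cancel₀ (hl0 n).ne', one_smul]
  rw [hAV] at hfin
  have hlast := hno n _ hfin
  refine absurd hlast (not_lt.2 ?_)
  have h1 : eLpNorm (fun x => l n • Z x) (ENNReal.ofReal p) μ
      = ‖l n‖ₑ * eLpNorm Z (ENNReal.ofReal p) μ := eLpNorm_const_smul (l n) Z _ μ
  rw [h1, Real.enorm_of_nonneg (hl0 n).le]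
  have h2 : ENNReal.ofReal (l n) = eLpNorm (U n) (Q n) μ := ENNReal.ofReal_toReal (hnt n)
  rw [h2, mul_comm]
  refine mul_le_mul_left ?_ _
  calc eLpNorm Z (ENNReal.ofReal p) μ ≤ eLpNorm Z P μ := hZn
    _ ≤ eLpNorm Y P μ := hZ2
    _ ≤ ENNReal.ofReal D := hYn
    _ ≤ ENNReal.ofReal n := ENNReal.ofReal_le_ofReal hn
    _ = ((n : ℝ≥0) : ℝ≥0∞) := by simp

omit [IsProbabilityMeasure μ] in
theorem fina_thm (μ : Measure Ω) [IsProbabilityMeasure μ]
    (E : Type v) [NormedAddCommGroup E] [InnerProductSpace ℝ E] [CompleteSpace E]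
    (h : ∀ (F : Type v) [NormedAddCommGroup F] [InnerProductSpace ℝ F] [CompleteSpace F],
      S_POT F μ) : S_FINA μ E :=
  fina_core μ E (h E)

end Pool.Agent.R876.WM
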