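import Pool.Agent.R876.WM.Stm

open MeasureTheory ProbabilityTheory Set
open scoped ENNReal NNReal Topology

namespace Pool.Agent.R876.WM

universe v

theorem flip_mem {α β : Type v} (σ : α ≃ β) (M : L2 β) :
    Memℓp (fun a => (M : β → ℝ) (σ a)) 2 := by
  have h := lp.memℓp M
  rw [memℓp_gen_iff (by norm_num)] at h ⊢
  exact (σ.summable_iff (f := fun b => ‖(M : β → ℝ) b‖ ^ (2 : ℝ≥0∞).toReal)).2 h

noncomputable def flipMap {α β : Type v} (σ : α ≃ β) (M : L2 β) : L2 α :=
  ⟨fun a => (M : β → ℝ) (σ a), flip_mem σ M⟩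

theorem flipMap_apply {α β : Type v} (σ : α ≃ β) (M : L2 β) (a : α) :
    (flipMap σ M : α → ℝ) a = (M : β → ℝ) (σ a) := rfl

theorem flipMap_norm {α β : Type v} (σ : α ≃ β) (M : L2 β) : ‖flipMap σ M‖ = ‖M‖ := by
  have h2 : 0 < (2 : ℝ≥0∞).toReal := by norm_num
  rw [lp.norm_eq_tsum_rpow h2, lp.norm_eq_tsum_rpow h2]
  congr 1
  exact σ.tsum_eq (fun b => ‖(M : β → ℝ) b‖ ^ (2 : ℝ≥0∞).toReal)

noncomputable def flipEquiv {α β : Type v} (σ : α ≃ β) : L2 β ≃ₗᵢ[ℝ] L2 α where
  toFun := flipMap σ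
  invFun := flipMap σ.symm
  map_add' x y := by
    apply lp.ext
    funext a
    simp [flipMap_apply]
  map_smul' c x := by
    apply lp.ext
    funext a
    simp [flipMap_apply]
  left_inv x := by
    apply lp.ext
    funext a
    simp [flipMap_apply]
  right_inv x := by
    apply lp.ext
    funext a
    simp [flipMap_apply]
  norm_map' x := flipMap_norm σ x

theorem flip_thm : S_FLIP.{v} := by
  intro κ I
  exact ⟨flipEquiv (Equiv.prodComm I κ), fun M k i => rfl⟩

end Pool.Agent.R876.WM
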