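import Pool.Agent.R876.WM.Stm

/-!
Project WM, piece H1: ampliation to `ℓ²(κ; E)`.
-/

open MeasureTheory ProbabilityTheory Set
open scoped ENNReal NNReal Topology

universe u v

namespace Pool.Agent.R876.WM

namespace H1

theorem enorm_sq {κ E : Type v} [NormedAddCommGroup E] (f : lp (fun _ : κ => E) 2) :
    ‖f‖ₑ ^ (2 : ℝ) = ∑' k, ‖(f : κ → E) k‖ₑ ^ (2 : ℝ) := by
  have h2 : (0 : ℝ) < (2 : ℝ≥0∞).toReal := by norm_num
  have h := lp.hasSum_norm h2 f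
  have e : (2 : ℝ≥0∞).toReal = 2 := by norm_num
  rw [e] at h
  have h3 := ENNReal.ofReal_tsum_of_nonneg (f := fun k => ‖(f : κ → E) k‖ ^ (2 : ℝ))
    (fun k => by positivity) h.summable
  rw [h.tsum_eq] at h3
  have h4 : ∀ {G : Type v} [NormedAddCommGroup G] (x : G),
      ‖x‖ₑ ^ (2 : ℝ) = ENNReal.ofReal (‖x‖ ^ (2 : ℝ)) := by
    intro G _ x
    rw [← ofReal_norm, ENNReal.ofReal_rpow_of_nonneg (norm_nonneg _) (by norm_num)]
  rw [h4, h3]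
  exact tsum_congr fun k => (h4 _).symm

theorem sq_int {Ω : Type u} [MeasurableSpace Ω] (μ : Measure Ω) {G : Type v}
    [NormedAddCommGroup G] (f : Ω → G) :
    eLpNorm f 2 μ ^ (2 : ℝ) = ∫⁻ x, ‖f x‖ₑ ^ (2 : ℝ) ∂μ := by
  have h := eLpNorm_nnreal_pow_eq_lintegral (μ := μ) (f := f) (p := 2) (by norm_num)
  simpa only [ENNReal.coe_ofNat, NNReal.coe_ofNat] using h

theorem memlp_of {κ E : Type v} [NormedAddCommGroup E] (g : κ → E)
    (h : ∑' k, ‖g k‖ₑ ^ (2 : ℝ) < ⊤) : Memℓp g 2 := by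
  apply memℓp_gen
  have h1 := ENNReal.summable_toReal h.ne
  have e : (2 : ℝ≥0∞).toReal = 2 := by norm_num
  rw [e]
  refine h1.congr fun k => ?_
  rw [← ENNReal.toReal_rpow, toReal_enorm]

end H1

variable {Ω : Type u} [NormedAddCommGroup Ω] [NormedSpace ℝ Ω] [MeasurableSpace Ω]
  (μ : Measure Ω)
variable (E : Type v) [NormedAddCommGroup E] [InnerProductSpace ℝ E] [CompleteSpace E]

theorem h1_thm (hP : S_POT E μ)
    (hS : ∀ (F G : Type v) [NormedAddCommGroup F] [InnerProductSpace ℝ F] [CompleteSpace F]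
      [NormedAddCommGroup G] [InnerProductSpace ℝ G] [CompleteSpace G], S_SLC F G μ) :
    S_H1 μ E := by
  classical
  intro κ _ A hA A' hA' r
  obtain ⟨s, C, hC⟩ := hA r
  refine ⟨s, C, ?_⟩
  intro V hV U hU
  have one2 : (1 : ℝ≥0∞) ≤ 2 := by norm_num
  have ne2 : (2 : ℝ≥0∞) ≠ ⊤ := by norm_num
  let ev : κ → (lp (fun _ : κ => E) 2 →L[ℝ] E) := fun k => lp.evalCLM ℝ (fun _ : κ => E) 2 k
  have slice : ∀ (q : ℕ) (k : κ) (W Z : Ω → lp (fun _ : κ => E) 2), IsD μ 2 q W Z →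
      IsD μ 2 q (fun ω => ev k (W ω)) (fun ω => ev k (Z ω)) := by
    intro q k W Z h
    refine ⟨(ev k).comp_memLp' h.1, ?_⟩
    have h1 := hS (lp (fun _ : κ => E) 2) E 2 one2 ne2 (ev k) q Z h.1
    have h2 : (fun ω => ev k (W ω)) =ᵐ[μ] fun ω => ev k (pot μ q Z ω) := by
      filter_upwards [h.2] with ω hω
      rw [hω]
    exact h2.trans h1
  have key : ∀ k, ∃ U' : Ω → E, IsD μ 2 r (fun ω => A ω (ev k (V ω))) U' ∧
      eLpNorm U' 2 μ ≤ C * eLpNorm (fun ω => ev k (U ω)) 2 μ := fun k =>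
    hC (fun ω => ev k (V ω)) (fun q => by
      obtain ⟨Z, hZ⟩ := hV q
      exact ⟨_, slice q k V Z hZ⟩) _ (slice s k V U hU)
  choose U' hU' hle using key
  have hmeas : ∀ k, AEStronglyMeasurable (U' k) μ := fun k => (hU' k).1.1
  have hmU : ∀ k, AEStronglyMeasurable (fun ω => ev k (U ω)) μ := fun k =>
    ((ev k).comp_memLp' hU.1).1
  have hten : ∀ k, AEMeasurable (fun ω => ‖U' k ω‖ₑ ^ (2 : ℝ)) μ := fun k =>
    (hmeas k).enorm.pow_const _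
  have htot : ∫⁻ ω, ∑' k, ‖U' k ω‖ₑ ^ (2 : ℝ) ∂μ ≤ (C * eLpNorm U 2 μ) ^ (2 : ℝ) := by
    rw [lintegral_tsum hten]
    calc ∑' k, ∫⁻ ω, ‖U' k ω‖ₑ ^ (2 : ℝ) ∂μ
        = ∑' k, eLpNorm (U' k) 2 μ ^ (2 : ℝ) := tsum_congr fun k => (H1.sq_int μ _).symm
      _ ≤ ∑' k, ((C : ℝ≥0∞) * eLpNorm (fun ω => ev k (U ω)) 2 μ) ^ (2 : ℝ) :=
          ENNReal.tsum_le_tsum fun k => ENNReal.rpow_le_rpow (hle k) (by norm_num)
      _ = ∑' k, (C : ℝ≥0∞) ^ (2 : ℝ) * ∫⁻ ω, ‖ev k (U ω)‖ₑ ^ (2 : ℝ) ∂μ := by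
          refine tsum_congr fun k => ?_
          rw [ENNReal.mul_rpow_of_nonneg _ _ (by norm_num), H1.sq_int]
      _ = (C : ℝ≥0∞) ^ (2 : ℝ) * ∑' k, ∫⁻ ω, ‖ev k (U ω)‖ₑ ^ (2 : ℝ) ∂μ := ENNReal.tsum_mul_left
      _ = (C : ℝ≥0∞) ^ (2 : ℝ) * ∫⁻ ω, ‖U ω‖ₑ ^ (2 : ℝ) ∂μ := by
          rw [← lintegral_tsum fun k => (hmU k).enorm.pow_const _]
          congr 1
          refine lintegral_congr fun ω => ?_
          exact (H1.enorm_sq (U ω)).symm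
      _ = (C * eLpNorm U 2 μ) ^ (2 : ℝ) := by
          rw [ENNReal.mul_rpow_of_nonneg _ _ (by norm_num), H1.sq_int]
  have hlt : (C : ℝ≥0∞) * eLpNorm U 2 μ < ⊤ := ENNReal.mul_lt_top ENNReal.coe_lt_top hU.1.2
  have hfin : ∫⁻ ω, ∑' k, ‖U' k ω‖ₑ ^ (2 : ℝ) ∂μ ≠ ⊤ :=
    (lt_of_le_of_lt htot (ENNReal.rpow_lt_top_of_nonneg (by norm_num) hlt.ne)).ne
  have hae : ∀ᵐ ω ∂μ, ∑' k, ‖U' k ω‖ₑ ^ (2 : ℝ) < ⊤ :=
    ae_lt_top' (AEMeasurable.ennreal_tsum hten) hfin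
  let W : Ω → lp (fun _ : κ => E) 2 := fun ω =>
    if h : Memℓp (fun k => U' k ω) 2 then ⟨fun k => U' k ω, h⟩ else 0
  have hW : ∀ᵐ ω ∂μ, ∀ k, (W ω : κ → E) k = U' k ω := by
    filter_upwards [hae] with ω hω k
    have hm := H1.memlp_of (fun k => U' k ω) hω
    simp only [W, dif_pos hm]
  have hWm : AEStronglyMeasurable W μ := by
    refine aestronglyMeasurable_of_tendsto_ae (Filter.atTop : Filter (Finset κ))
      (f := fun t ω => ∑ k ∈ t, lp.single (E := fun _ : κ => E) 2 k (U' k ω)) ?_ ?_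
    · intro t
      refine Finset.aestronglyMeasurable_fun_sum t fun k _ => ?_
      exact (lp.isometry_single (E := fun _ : κ => E) (p := 2) k).continuous.comp_aestronglyMeasurable
        (hmeas k)
    · filter_upwards [hW] with ω hω
      have h := lp.hasSum_single (p := 2) (by norm_num) (W ω)
      simp only [hω] at h
      exact h
  have hWn : eLpNorm W 2 μ ≤ C * eLpNorm U 2 μ := by
    rw [← ENNReal.rpow_le_rpow_iff (z := 2) (by norm_num), H1.sq_int]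
    refine le_trans (le_of_eq ?_) htot
    refine lintegral_congr_ae ?_
    filter_upwards [hW] with ω hω
    rw [H1.enorm_sq]
    exact tsum_congr fun k => by rw [hω k]
  have hWmem : MemLp W 2 μ := ⟨hWm, lt_of_le_of_lt hWn hlt⟩
  refine ⟨W, ⟨hWmem, ?_⟩, hWn⟩
  have hall : ∀ᵐ ω ∂μ, ∀ k, A ω (ev k (V ω)) = ev k (pot μ r W ω) := by
    rw [ae_all_iff]
    intro k
    have h1 := hS (lp (fun _ : κ => E) 2) E 2 one2 ne2 (ev k) r W hWmem
    have h2 : pot μ r (fun ω => ev k (W ω)) =ᵐ[μ] pot μ r (U' k) :=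
      (hP 2 one2 ne2).1 r _ _ (hW.mono fun ω h => h k)
    have h3 := (hU' k).2
    exact h3.trans (h1.trans h2).symm
  filter_upwards [hall] with ω hω
  apply lp.ext
  funext k
  rw [hA']
  exact hω k

end Pool.Agent.R876.WM
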