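import Pool.Agent.R876.WM.Stm

open MeasureTheory ProbabilityTheory Set
open scoped ENNReal NNReal Topology

set_option linter.unusedSectionVars false

namespace Pool.Agent.R876.WM
universe u v
variable {Ω : Type u} [NormedAddCommGroup Ω] [NormedSpace ℝ Ω] [CompleteSpace Ω]
  [SecondCountableTopology Ω] [MeasurableSpace Ω] [BorelSpace Ω]
  (μ : Measure Ω) [IsGaussian μ]

theorem ub_of_ud {E : Type v} [NormedAddCommGroup E] [NormedSpace ℝ E] (p : ℕ) (S : Set (Ω → E))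
    (h : UD μ p S) : UB μ p S := by
  obtain ⟨D, hD, h0⟩ := h 0
  refine ⟨D, hD, fun V hV => ?_⟩
  obtain ⟨U, ⟨hU, hVU⟩, hn⟩ := h0 V hV
  have h1 : V =ᵐ[μ] U := by simpa [pot] using hVU
  exact ⟨(memLp_congr_ae h1).2 hU, by rw [eLpNorm_congr_ae h1]; exact hn⟩

theorem ind_thm
    (hTENA : S_TENA.{u, v} μ) (hTEN : S_TEN.{v})
    (hPROD : ∀ (E F : Type v) [NormedAddCommGroup E] [InnerProductSpace ℝ E] [CompleteSpace E]
      [NormedAddCommGroup F] [InnerProductSpace ℝ F] [CompleteSpace F], S_PROD E F μ)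
    (hL1 : ∀ (E : Type v) [NormedAddCommGroup E] [InnerProductSpace ℝ E] [CompleteSpace E],
      S_L1 E μ)
    (hL3 : ∀ (E : Type v) [NormedAddCommGroup E] [InnerProductSpace ℝ E] [CompleteSpace E],
      S_L3 E μ)
    (hL4 : ∀ (E : Type v) [NormedAddCommGroup E] [InnerProductSpace ℝ E] [CompleteSpace E],
      S_L4 μ E) :
    S_IND.{u, v} μ := by
  intro k
  induction k with
  | zero =>
    intro I _ A hA S hS hS2
    have := ub_of_ud μ 2 _ (hL4 (L2 I) A hA S hS2)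
    simpa using this
  | succ k ih =>
    intro I _ A hA S hS hS2
    obtain ⟨B, hB, hBn⟩ := hTEN I
    obtain ⟨A₂, hA₂, hAB⟩ := hTENA I B hB A hA
    have hsm : ∀ p : ℕ, 2 ≤ p → USm μ p S := hL1 (L2 I) S hS hS2
    have hp : ∀ p : ℕ, 2 ≤ p →
        UB μ p {W : Ω → L2 (I × I) | ∃ V ∈ S, W = fun ω => B (V ω) (V ω)} ∧
        USm μ p {W : Ω → L2 (I × I) | ∃ V ∈ S, W = fun ω => B (V ω) (V ω)} := fun p hp =>
      hPROD (L2 I) (L2 (I × I)) B (fun v w => (hBn v w).le) S p hp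
        (hS (2 * p) (by omega)) (hsm (2 * p) (by omega))
    have h2 : UD μ 2 {W : Ω → L2 (I × I) | ∃ V ∈ S, W = fun ω => B (V ω) (V ω)} :=
      hL3 (L2 (I × I)) 2 le_rfl _ (hp 2 le_rfl).1 (hp 2 le_rfl).2
    obtain ⟨D, hD, hk⟩ := ih (I × I) A₂ hA₂ _ (fun p hp' => (hp p hp').1) h2
    have hub2 := ub_of_ud μ 2 _ (hL4 (L2 I) A hA S hS2)
    obtain ⟨D2, hD2, hk2⟩ := hub2
    refine ⟨Real.sqrt D, Real.sqrt_nonneg _, ?_⟩
    rintro W ⟨V, hV, rfl⟩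
    have hm : AEStronglyMeasurable (fun ω => A ω (V ω)) μ :=
      (hk2 _ ⟨V, hV, rfl⟩).1.1
    obtain ⟨hk3, hk4⟩ := hk (fun ω => A₂ ω (B (V ω) (V ω))) ⟨_, ⟨V, hV, rfl⟩, rfl⟩
    have hnorm : ∀ ω, ‖A₂ ω (B (V ω) (V ω))‖ = ‖A ω (V ω)‖ ^ (2 : ℝ) := by
      intro ω
      rw [hAB, hBn]
      norm_num [sq]
    have e1 : eLpNorm (fun ω => A₂ ω (B (V ω) (V ω))) ((2 ^ (k + 1) : ℕ) : ℝ≥0∞) μ =
        (eLpNorm (fun ω => A ω (V ω)) ((2 ^ (k + 1 + 1) : ℕ) : ℝ≥0∞) μ) ^ (2 : ℝ) := by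
      have : eLpNorm (fun ω => A₂ ω (B (V ω) (V ω))) ((2 ^ (k + 1) : ℕ) : ℝ≥0∞) μ =
          eLpNorm (fun ω => ‖A ω (V ω)‖ ^ (2 : ℝ)) ((2 ^ (k + 1) : ℕ) : ℝ≥0∞) μ := by
        apply eLpNorm_congr_norm_ae
        filter_upwards with ω
        rw [hnorm ω, Real.norm_of_nonneg (by positivity)]
      rw [this, eLpNorm_norm_rpow _ (by norm_num : (0 : ℝ) < 2)]
      congr 2
      rw [pow_succ 2 (k + 1)]
      push_cast
      simp
    have e2 : (eLpNorm (fun ω => A ω (V ω)) ((2 ^ (k + 1 + 1) : ℕ) : ℝ≥0∞) μ) ≤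
        ENNReal.ofReal (Real.sqrt D) := by
      rw [e1] at hk4
      have h5 : ((eLpNorm (fun ω => A ω (V ω)) ((2 ^ (k + 1 + 1) : ℕ) : ℝ≥0∞) μ) ^ (2 : ℝ)) ^
          (1 / 2 : ℝ) ≤ (ENNReal.ofReal D) ^ (1 / 2 : ℝ) :=
        ENNReal.rpow_le_rpow hk4 (by norm_num)
      rw [← ENNReal.rpow_mul] at h5
      norm_num at h5
      rw [Real.sqrt_eq_rpow, ← ENNReal.ofReal_rpow_of_nonneg hD (by norm_num)]
      norm_num
      exact h5
    exact ⟨⟨hm, lt_of_le_of_lt e2 ENNReal.ofReal_lt_top⟩, e2⟩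

/-- `UD` for every `p` for the image of a bounded set -/
theorem ud_all
    (hIND : S_IND.{u, v} μ)
    (hL1 : ∀ (E : Type v) [NormedAddCommGroup E] [InnerProductSpace ℝ E] [CompleteSpace E],
      S_L1 E μ)
    (hL3 : ∀ (E : Type v) [NormedAddCommGroup E] [InnerProductSpace ℝ E] [CompleteSpace E],
      S_L3 E μ)
    (hL4 : ∀ (E : Type v) [NormedAddCommGroup E] [InnerProductSpace ℝ E] [CompleteSpace E],
      S_L4 μ E) (I : Type v) [Countable I] (A : Ω → (L2 I →L[ℝ] L2 I)) (hA : CtsD2 μ A)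
    (S : Set (Ω → L2 I)) (hS : ∀ p : ℕ, 2 ≤ p → UB μ p S) (hS2 : UD μ 2 S) (p : ℕ) (hp : 2 ≤ p) :
    UD μ p {W : Ω → L2 I | ∃ V ∈ S, W = fun ω => A ω (V ω)} := by
  have h1 : ∀ q : ℕ, 2 ≤ q → UB μ q {W : Ω → L2 I | ∃ V ∈ S, W = fun ω => A ω (V ω)} := by
    intro q hq
    obtain ⟨D, hD, hk⟩ := hIND q I A hA S hS hS2
    refine ⟨D, hD, fun V hV => ?_⟩
    obtain ⟨h3, h4⟩ := hk V hV
    have hle : (q : ℝ≥0∞) ≤ ((2 ^ (q + 1) : ℕ) : ℝ≥0∞) := by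
      norm_cast
      have : q < 2 ^ q := Nat.lt_two_pow_self
      have : 2 ^ q ≤ 2 ^ (q + 1) := Nat.pow_le_pow_right (by norm_num) (by omega)
      omega
    exact ⟨h3.mono_exponent hle, (eLpNorm_le_eLpNorm_of_exponent_le hle h3.1).trans h4⟩
  have h2 : UD μ 2 {W : Ω → L2 I | ∃ V ∈ S, W = fun ω => A ω (V ω)} := hL4 (L2 I) A hA S hS2
  exact hL3 (L2 I) p hp _ (h1 p hp) (hL1 (L2 I) _ h1 h2 p hp)

end Pool.Agent.R876.WM
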