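import Pool.Agent.R876.WM.Stm

/-! Project WM, piece IPR (helper207). -/

set_option autoImplicit false

open MeasureTheory ProbabilityTheory Set
open scoped ENNReal NNReal Topology

namespace Pool.Agent.R876.WM.IPR207

open Pool.Agent.R876.WM

universe u v

theorem cos_pos' {α : ℝ} (h : |α| ≤ 1) : 0 < Real.cos α := by
  rw [abs_le] at h
  exact Real.cos_pos_of_mem_Ioo ⟨by linarith [Real.pi_gt_three], by linarith [Real.pi_gt_three]⟩

theorem exp_tau {α : ℝ} (h : |α| ≤ 1) : Real.exp (-tau α) = Real.cos α := by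
  unfold tau
  rw [neg_neg, Real.exp_log (cos_pos' h)]

theorem sqrt_tau {α : ℝ} (h0 : 0 ≤ α) (h : α ≤ 1) :
    Real.sqrt (1 - Real.exp (-2 * tau α)) = Real.sin α := by
  have h1 : Real.exp (-2 * tau α) = Real.cos α ^ 2 := by
    rw [show -2 * tau α = -tau α + -tau α by ring, Real.exp_add,
      exp_tau (abs_le.2 ⟨by linarith, h⟩)]
    ring
  rw [h1]
  have h2 : 1 - Real.cos α ^ 2 = Real.sin α ^ 2 := by
    have := Real.sin_sq_add_cos_sq α
    linarith
  rw [h2]
  exact Real.sqrt_sq (Real.sin_nonneg_of_nonneg_of_le_pi h0 (by linarith [Real.pi_gt_three]))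

section Main

variable {Ω : Type u} [NormedAddCommGroup Ω] [NormedSpace ℝ Ω] [MeasurableSpace Ω]

theorem pos_case (μ : Measure Ω) [IsProbabilityMeasure μ] (E : Type v) [NormedAddCommGroup E]
    [InnerProductSpace ℝ E] [CompleteSpace E] (hMP : S_MP μ) (f : Ω → E) (hf : MemLp f 2 μ)
    (α β : ℝ) (h0 : 0 ≤ α - β) (h1 : α - β ≤ 1) :
    ∫ z : Ω × Ω, inner ℝ (f (Real.cos α • z.1 + Real.sin α • z.2))
      (f (Real.cos β • z.1 + Real.sin β • z.2)) ∂(μ.prod μ) =
    ∫ x, inner ℝ (ou μ (tau (α - β)) f x) (f x) ∂μ := by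
  obtain ⟨γ, hγ⟩ : ∃ γ : ℝ, γ = α - β := ⟨_, rfl⟩
  rw [← hγ] at h0 h1 ⊢
  have hα : α = γ + β := by rw [hγ]; ring
  have hrot : MemLp (fun z : Ω × Ω => f (Real.cos γ • z.1 + Real.sin γ • z.2)) 2 (μ.prod μ) :=
    hf.comp_measurePreserving (hMP.1 γ)
  have hfst : MemLp (fun z : Ω × Ω => f z.1) 2 (μ.prod μ) :=
    hf.comp_measurePreserving measurePreserving_fst
  have hHm : AEStronglyMeasurable (fun z : Ω × Ω =>
      inner ℝ (f (Real.cos γ • z.1 + Real.sin γ • z.2)) (f z.1)) (μ.prod μ) := hrot.1.inner hfst.1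
  have hHi : Integrable (fun z : Ω × Ω =>
      inner ℝ (f (Real.cos γ • z.1 + Real.sin γ • z.2)) (f z.1)) (μ.prod μ) := by
    have h2 : Integrable (fun z : Ω × Ω =>
        ‖f (Real.cos γ • z.1 + Real.sin γ • z.2)‖ * ‖f z.1‖) (μ.prod μ) :=
      hrot.norm.integrable_mul hfst.norm
    refine h2.mono hHm (Filter.Eventually.of_forall fun z => ?_)
    rw [Real.norm_eq_abs, Real.norm_eq_abs, abs_of_nonneg
      (show 0 ≤ ‖f (Real.cos γ • z.1 + Real.sin γ • z.2)‖ * ‖f z.1‖ by positivity)]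
    exact abs_real_inner_le_norm _ _
  have e1 : ∫ z : Ω × Ω, inner ℝ (f (Real.cos α • z.1 + Real.sin α • z.2))
      (f (Real.cos β • z.1 + Real.sin β • z.2)) ∂(μ.prod μ) =
      ∫ z : Ω × Ω, inner ℝ (f (Real.cos γ • z.1 + Real.sin γ • z.2)) (f z.1) ∂(μ.prod μ) := by
    have hR := hMP.2 β
    have h3 := integral_map (μ := μ.prod μ) hR.measurable.aemeasurable
      (f := fun z : Ω × Ω => inner ℝ (f (Real.cos γ • z.1 + Real.sin γ • z.2)) (f z.1))
      (by rw [hR.map_eq]; exact hHm)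
    rw [hR.map_eq] at h3
    rw [h3]
    refine integral_congr_ae (Filter.Eventually.of_forall fun z => ?_)
    show inner ℝ (f (Real.cos α • z.1 + Real.sin α • z.2))
      (f (Real.cos β • z.1 + Real.sin β • z.2)) =
      inner ℝ (f (Real.cos γ • (Real.cos β • z.1 + Real.sin β • z.2) +
        Real.sin γ • (-Real.sin β • z.1 + Real.cos β • z.2)))
        (f (Real.cos β • z.1 + Real.sin β • z.2))
    congr 2
    rw [hα, Real.cos_add, Real.sin_add]
    module
  rw [e1, integral_prod _ hHi]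
  refine integral_congr_ae ?_
  have hroti : Integrable (fun z : Ω × Ω => f (Real.cos γ • z.1 + Real.sin γ • z.2)) (μ.prod μ) :=
    hrot.integrable (by norm_num)
  filter_upwards [hroti.prod_right_ae] with x hx
  show ∫ y, inner ℝ (f (Real.cos γ • x + Real.sin γ • y)) (f x) ∂μ =
    inner ℝ (ou μ (tau γ) f x) (f x)
  have e2 : ou μ (tau γ) f x = ∫ y, f (Real.cos γ • x + Real.sin γ • y) ∂μ := by
    unfold ou
    rw [exp_tau (abs_le.2 ⟨by linarith, h1⟩), sqrt_tau h0 h1]
  rw [e2, real_inner_comm, ← integral_inner hx]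
  exact integral_congr_ae (Filter.Eventually.of_forall fun y => real_inner_comm _ _)

end Main

end Pool.Agent.R876.WM.IPR207

namespace Pool.Agent.R876.WM

universe u v

/-- IPR -/
theorem ipr_thm {Ω : Type u} [NormedAddCommGroup Ω] [NormedSpace ℝ Ω] [MeasurableSpace Ω]
    (μ : Measure Ω) [IsProbabilityMeasure μ] (E : Type v) [NormedAddCommGroup E]
    [InnerProductSpace ℝ E] [CompleteSpace E] (hMP : S_MP μ) : S_IPR E μ := by
  intro f hf α β h
  rw [abs_le] at h
  rcases le_total 0 (α - β) with h0 | h0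
  · exact IPR207.pos_case μ E hMP f hf α β h0 h.2
  · have h1 := IPR207.pos_case μ E hMP f hf β α (by linarith) (by linarith)
    have h2 : tau (β - α) = tau (α - β) := by
      unfold tau
      rw [← Real.cos_neg, neg_sub]
    rw [h2] at h1
    rw [← h1]
    exact integral_congr_ae (Filter.Eventually.of_forall fun z => real_inner_comm _ _)

end Pool.Agent.R876.WM
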