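import Pool.Agent.R876.WM.Stm

/-!
WM-L1 (MP_e701d5_pr): uniform rotation smoothness in every `L^p`.
-/

open MeasureTheory ProbabilityTheory Set
open scoped ENNReal NNReal Topology

universe u v

namespace Pool.Agent.R876.WM

variable {Ω : Type u} [NormedAddCommGroup Ω] [NormedSpace ℝ Ω] [CompleteSpace Ω]
  [SecondCountableTopology Ω] [MeasurableSpace Ω] [BorelSpace Ω]
  (μ : Measure Ω) [IsGaussian μ]
variable (E : Type v) [NormedAddCommGroup E] [InnerProductSpace ℝ E] [CompleteSpace E]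

omit [CompleteSpace Ω] [SecondCountableTopology Ω] [BorelSpace Ω] [IsGaussian μ]
  [CompleteSpace E] in
theorem l1_thm (_hMP : S_MP μ) (_h0 : S_POT E μ) (h1 : S_D2S E μ) (h2 : S_LYA.{u, v} E)
    (h3 : S_DIFL E μ) : S_L1 E μ := by
  intro S hUB hUD p hp j
  have hp1 : (1 : ℝ) ≤ (p : ℝ) - 1 := by
    have : (2 : ℝ) ≤ (p : ℝ) := by exact_mod_cast hp
    linarith
  have hp0 : (0 : ℝ) < (p : ℝ) - 1 := by linarith
  set a : ℝ := 1 / ((p : ℝ) - 1) with ha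
  have ha0 : 0 ≤ a := by positivity
  have ha1 : 0 ≤ 1 - a := by
    have : a ≤ 1 := by
      rw [ha, div_le_one hp0]
      exact hp1
    linarith
  refine ⟨j * (p - 1) + 1, fun K hK => ?_⟩
  have hK1 : 1 ≤ K := by omega
  obtain ⟨D1, hD1, hU⟩ := hUD K
  obtain ⟨C, hC, hC'⟩ := h1 K hK1
  obtain ⟨D2, hD2, hV2⟩ := hUB (2 * p) (by omega)
  refine ⟨(C * D1) ^ a * (2 ^ K * D2) ^ (1 - a), by positivity, fun V hV θ hθ hθK => ?_⟩
  obtain ⟨U, hIsD, hUn⟩ := hU V hV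
  obtain ⟨hm, hn⟩ := hV2 V hV
  have hcast : ((2 : ℕ) : ℝ≥0∞) = 2 := by norm_num
  obtain ⟨hUm, hVU⟩ := hIsD
  rw [hcast] at hUm hUn
  have hdif2 : eLpNorm (dif K θ V) 2 (μ.prod μ) ≤ ENNReal.ofReal (C * D1 * θ ^ K) := by
    refine (hC' U V hUm hVU θ hθ hθK).trans ?_
    refine (mul_le_mul_right hUn _).trans ?_
    rw [← ENNReal.ofReal_mul (by positivity)]
    refine ENNReal.ofReal_le_ofReal (le_of_eq ?_)
    ring
  have hp2 : (1 : ℝ≥0∞) ≤ ((2 * p : ℕ) : ℝ≥0∞) := by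
    have : 1 ≤ 2 * p := by omega
    exact_mod_cast this
  obtain ⟨hdm, hdn⟩ := h3 _ hp2 V hm K θ
  have hdifp : eLpNorm (dif K θ V) ((2 * p : ℕ) : ℝ≥0∞) (μ.prod μ) ≤
      ENNReal.ofReal (2 ^ K * D2) := by
    refine hdn.trans ?_
    refine (mul_le_mul_right hn _).trans ?_
    rw [← ENNReal.ofReal_mul (by positivity)]
  refine (h2 (μ.prod μ) (dif K θ V) hdm.aestronglyMeasurable p hp).trans ?_
  rw [← ha]
  refine (mul_le_mul' (ENNReal.rpow_le_rpow hdif2 ha0)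
    (ENNReal.rpow_le_rpow hdifp ha1)).trans ?_
  rw [ENNReal.ofReal_rpow_of_nonneg (by positivity) ha0,
    ENNReal.ofReal_rpow_of_nonneg (by positivity) ha1, ← ENNReal.ofReal_mul (by positivity)]
  refine ENNReal.ofReal_le_ofReal ?_
  rw [Real.mul_rpow (by positivity) (by positivity)]
  have hθ1 : θ ≤ 1 := by
    refine hθK.trans ?_
    have : (1 : ℝ) ≤ K := by exact_mod_cast hK1
    rw [div_le_one (by positivity)]
    linarith
  have hpow : (θ ^ K) ^ a ≤ θ ^ j := by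
    rw [← Real.rpow_natCast θ K, ← Real.rpow_mul hθ.le, ← Real.rpow_natCast θ j]
    refine Real.rpow_le_rpow_of_exponent_ge hθ hθ1 ?_
    rw [ha, mul_one_div, le_div_iff₀ hp0]
    have h4 : j * (p - 1) ≤ K := by omega
    have h5 : ((j * (p - 1) : ℕ) : ℝ) ≤ K := by exact_mod_cast h4
    rw [Nat.cast_mul, Nat.cast_sub (by omega), Nat.cast_one] at h5
    exact h5
  calc (C * D1) ^ a * (θ ^ K) ^ a * (2 ^ K * D2) ^ (1 - a)
      ≤ (C * D1) ^ a * θ ^ j * (2 ^ K * D2) ^ (1 - a) := by gcongr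
    _ = (C * D1) ^ a * (2 ^ K * D2) ^ (1 - a) * θ ^ j := by ring

end Pool.Agent.R876.WM
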