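import Pool.Agent.R876.WM.Stm

/-!
Project WM, piece L3: uniform version of SMD.
-/

open MeasureTheory ProbabilityTheory Set
open scoped ENNReal NNReal Topology

namespace Pool.Agent.R876.WM

universe u v

variable {Ω : Type u} [NormedAddCommGroup Ω] [NormedSpace ℝ Ω] [MeasurableSpace Ω]
  (μ : Measure Ω)
variable (E : Type v) [NormedAddCommGroup E] [NormedSpace ℝ E]

theorem l3_thm (h : S_SMD E μ) : S_L3 E μ := by
  intro p hp S hUB hUS m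
  obtain ⟨D0, hD0, hD0'⟩ := hUB
  obtain ⟨K0, hK0⟩ := hUS (2 * m + 1)
  obtain ⟨D, hD, hD'⟩ := hK0 (max K0 1) (le_max_left _ _)
  have hp1 : (1 : ℝ≥0∞) ≤ (p : ℝ≥0∞) := by
    exact_mod_cast (show 1 ≤ p by omega)
  obtain ⟨C, hC, hC'⟩ := h (p : ℝ≥0∞) hp1 (ENNReal.natCast_ne_top p) m (max K0 1) (2 * m + 1)
    (le_max_right _ _) (by omega)
  refine ⟨C * (D + D0), by positivity, ?_⟩
  intro V hV
  obtain ⟨hVm, hVn⟩ := hD0' V hV
  obtain ⟨U, hU, hfU, hUn⟩ := hC' V D hD hVm (hD' V hV)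
  refine ⟨U, ⟨hU, hfU⟩, hUn.trans ?_⟩
  apply ENNReal.ofReal_le_ofReal
  have h1 : (eLpNorm V (p : ℝ≥0∞) μ).toReal ≤ D0 :=
    ENNReal.toReal_le_of_le_ofReal hD0 hVn
  gcongr

end Pool.Agent.R876.WM
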