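import Pool.Agent.R876.WM.Stm

/-!
Project WM, piece L4: a continuous operator maps bounded sets to bounded sets.
-/

open MeasureTheory ProbabilityTheory Set
open scoped ENNReal NNReal Topology

namespace Pool.Agent.R876.WM

universe u v

variable {Ω : Type u} [NormedAddCommGroup Ω] [NormedSpace ℝ Ω] [MeasurableSpace Ω]
  (μ : Measure Ω)
variable (E : Type v) [NormedAddCommGroup E] [NormedSpace ℝ E]

theorem isD_of_isD {μ : Measure Ω} {E : Type v} [NormedAddCommGroup E] [NormedSpace ℝ E]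
    (h : S_POT E μ) {p : ℝ≥0∞} (hp : 1 ≤ p) (hp' : p ≠ ∞) {r m : ℕ}
    (hrm : r ≤ 2 * m) {V U : Ω → E} (hU : IsD μ p (2 * m) V U) :
    ∃ U' : Ω → E, IsD μ p r V U' ∧ eLpNorm U' p μ ≤ eLpNorm U p μ := by
  obtain ⟨U', h1, h2, h3⟩ := (h p hp hp').2.2 r m hrm U hU.1
  exact ⟨U', ⟨h1, hU.2.trans h3⟩, h2⟩

theorem l4_thm (h : S_POT E μ) : S_L4 μ E := by
  intro A hA S hS m
  obtain ⟨s, C, hC⟩ := hA (2 * m)
  obtain ⟨D, hD, hD'⟩ := hS s
  have hS2 : ∀ r : ℕ, ∀ V ∈ S, ∃ U, IsD μ 2 (2 * r) V U := by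
    intro r V hV
    obtain ⟨D', -, h'⟩ := hS r
    obtain ⟨U, hU, -⟩ := h' V hV
    exact ⟨U, by simpa using hU⟩
  refine ⟨C * D, by positivity, ?_⟩
  rintro W ⟨V, hV, rfl⟩
  have hVD : D2inf μ V := by
    intro r
    obtain ⟨U, hU⟩ := hS2 r V hV
    obtain ⟨U', hU', -⟩ := isD_of_isD h (by norm_num) (by norm_num) (show r ≤ 2 * r by omega) hU
    exact ⟨U', hU'⟩
  obtain ⟨U, hU, hUn⟩ := hD' V hV
  have hU2 : IsD μ 2 (2 * s) V U := by simpa using hU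
  have hUn2 : eLpNorm U 2 μ ≤ ENNReal.ofReal D := by simpa using hUn
  obtain ⟨U', hU', hU'n⟩ := isD_of_isD h (by norm_num) (by norm_num)
    (show s ≤ 2 * s by omega) hU2
  obtain ⟨U'', hU'', hU''n⟩ := hC V hVD U' hU'
  refine ⟨U'', by simpa using hU'', ?_⟩
  have h1 : eLpNorm U'' 2 μ ≤ C * ENNReal.ofReal D :=
    hU''n.trans (mul_le_mul_right (hU'n.trans hUn2) _)
  have h2 : (C : ℝ≥0∞) * ENNReal.ofReal D = ENNReal.ofReal (C * D) := by
    rw [ENNReal.ofReal_mul C.coe_nonneg]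
    simp
  rw [h2] at h1
  simpa using h1

end Pool.Agent.R876.WM
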