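import Pool.Agent.R876.WM.Stm

/-!
# Project WM, piece LEIB (helper657): Leibniz rule for the differences
-/

open MeasureTheory ProbabilityTheory Set
open scoped ENNReal NNReal Topology

universe u v

namespace Pool.Agent.R876.WM

section Leib

variable {E F : Type v} [NormedAddCommGroup E] [NormedSpace ℝ E]
  [NormedAddCommGroup F] [NormedSpace ℝ F]

theorem leib_seq (B : E →L[ℝ] E →L[ℝ] F) (K : ℕ) : ∀ (a b : ℕ → E) (n : ℕ),
    (fwdDiff 1)^[K] (fun m => B (a m) (b m)) n =
      ∑ j ∈ Finset.range (K + 1), K.choose j • B ((fwdDiff 1)^[j] a n)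
        ((fwdDiff 1)^[K - j] b (n + j)) := by
  induction K with
  | zero => intro a b n; simp
  | succ K ih =>
    intro a b n
    have h1 : fwdDiff 1 (fun m => B (a m) (b m)) =
        (fun m => B (a m) (fwdDiff 1 b m)) + (fun m => B (fwdDiff 1 a m) (b (m + 1))) := by
      funext m
      simp only [fwdDiff, Pi.add_apply, map_sub, sub_apply]
      abel
    rw [Function.iterate_succ_apply, h1, fwdDiff_iter_add, Pi.add_apply, ih, ih]
    have h2 := Finset.sum_choose_succ_nsmul
      (fun i m => B ((fwdDiff 1)^[i] a n) ((fwdDiff 1)^[m] b (n + i))) K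
    rw [h2]
    congr 1
    · apply Finset.sum_congr rfl
      intro j hj
      have hj' : j ≤ K := Nat.lt_succ_iff.1 (Finset.mem_range.1 hj)
      rw [Nat.sub_add_comm hj', Function.iterate_succ_apply]
    · apply Finset.sum_congr rfl
      intro j hj
      rw [Function.iterate_succ_apply, fwdDiff_iter_comp_add, add_assoc]

theorem dif_eq {Ω : Type u} [NormedAddCommGroup Ω] [NormedSpace ℝ Ω] (K : ℕ) (θ : ℝ) (f : Ω → E)
    (z : Ω × Ω) : dif K θ f z = (fwdDiff 1)^[K]
      (fun i : ℕ => f (Real.cos (i * θ) • z.1 + Real.sin (i * θ) • z.2)) 0 := by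
  rw [fwdDiff_iter_eq_sum_shift, dif]
  apply Finset.sum_congr rfl
  intro i _
  simp only [zero_add, smul_eq_mul, mul_one]
  rw [← Int.cast_smul_eq_zsmul ℝ]
  push_cast
  rfl

theorem dif_eq' {Ω : Type u} [NormedAddCommGroup Ω] [NormedSpace ℝ Ω] (K j : ℕ) (θ : ℝ)
    (f : Ω → E) (z : Ω × Ω) : dif K θ f (Real.cos (j * θ) • z.1 + Real.sin (j * θ) • z.2,
            -Real.sin (j * θ) • z.1 + Real.cos (j * θ) • z.2) = (fwdDiff 1)^[K]
      (fun i : ℕ => f (Real.cos (i * θ) • z.1 + Real.sin (i * θ) • z.2)) j := by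
  rw [dif_eq]
  have := fwdDiff_iter_comp_add 1
    (fun i : ℕ => f (Real.cos (i * θ) • z.1 + Real.sin (i * θ) • z.2)) j K 0
  rw [zero_add] at this
  rw [← this]
  have h3 : (fun i : ℕ => f (Real.cos (i * θ) • (Real.cos (j * θ) • z.1 + Real.sin (j * θ) • z.2,
            -Real.sin (j * θ) • z.1 + Real.cos (j * θ) • z.2).1 +
            Real.sin (i * θ) • (Real.cos (j * θ) • z.1 + Real.sin (j * θ) • z.2,
            -Real.sin (j * θ) • z.1 + Real.cos (j * θ) • z.2).2)) =
      fun r : ℕ => f (Real.cos (((r + j : ℕ) : ℝ) * θ) • z.1 +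
        Real.sin (((r + j : ℕ) : ℝ) * θ) • z.2) := by
    funext i
    congr 1
    push_cast
    rw [add_mul, Real.cos_add, Real.sin_add]
    module
  rw [h3]

end Leib

theorem leib_thm (Ω : Type u) [NormedAddCommGroup Ω] [NormedSpace ℝ Ω]
    (E F : Type v) [NormedAddCommGroup E] [NormedSpace ℝ E]
    [NormedAddCommGroup F] [NormedSpace ℝ F] : S_LEIB E F Ω := by
  intro B V K θ z
  rw [dif_eq, leib_seq]
  apply Finset.sum_congr rfl
  intro j _
  rw [dif_eq, dif_eq', Nat.cast_smul_eq_nsmul, zero_add]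

end Pool.Agent.R876.WM
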