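import Pool.Agent.R876.WM.Stm

/-!
Project WM, piece LYA: log-convexity of the norms.
-/

open MeasureTheory ProbabilityTheory Set
open scoped ENNReal NNReal Topology

namespace Pool.Agent.R876.WM

universe u v

theorem lya_thm (E : Type v) [NormedAddCommGroup E] : S_LYA.{u, v} E := by
  intro α _ ν g hg p hp
  have hp2 : (2 : ℝ) ≤ p := by exact_mod_cast hp
  have hp0 : (p : ℝ) ≠ 0 := by positivity
  have hp1 : (p : ℝ) - 1 ≠ 0 := by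
    have : (0 : ℝ) < p - 1 := by linarith
    exact this.ne'
  have hp1' : (0 : ℝ) < p - 1 := by linarith
  set s : ℝ := p / (2 * (p - 1)) with hs
  have hs0 : 0 ≤ s := by positivity
  have hs1 : 0 ≤ 1 - s := by
    rw [hs, sub_nonneg, div_le_one (by positivity)]
    linarith
  have hpt : ((p : ℝ≥0∞)).toReal = (p : ℝ) := by simp
  have h2pt : (((2 * p : ℕ) : ℝ≥0∞)).toReal = 2 * (p : ℝ) := by simp
  have h2t : ((2 : ℝ≥0∞)).toReal = (2 : ℝ) := by simp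
  have hpne : (p : ℝ≥0∞) ≠ 0 := by
    have : p ≠ 0 := by omega
    exact_mod_cast this
  have h2pne : ((2 * p : ℕ) : ℝ≥0∞) ≠ 0 := by
    have : 2 * p ≠ 0 := by omega
    exact_mod_cast this
  have hgm : AEMeasurable (fun x => ‖g x‖ₑ) ν := hg.enorm
  have key := ENNReal.lintegral_mul_norm_pow_le (μ := ν)
    (f := fun x => ‖g x‖ₑ ^ (2 : ℝ)) (g := fun x => ‖g x‖ₑ ^ (2 * (p : ℝ)))
    (hgm.pow_const _) (hgm.pow_const _) hs0 hs1 (by ring)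
  have hpt2 : ∀ x, (‖g x‖ₑ ^ (2 : ℝ)) ^ s * (‖g x‖ₑ ^ (2 * (p : ℝ))) ^ (1 - s)
      = ‖g x‖ₑ ^ (p : ℝ) := by
    intro x
    rw [← ENNReal.rpow_mul, ← ENNReal.rpow_mul, ← ENNReal.rpow_add_of_nonneg _ _ (by positivity)
      (by positivity)]
    congr 1
    rw [hs]
    field_simp
    ring
  simp_rw [hpt2] at key
  rw [eLpNorm_eq_lintegral_rpow_enorm_toReal hpne (ENNReal.natCast_ne_top p),
    eLpNorm_eq_lintegral_rpow_enorm_toReal h2pne (ENNReal.natCast_ne_top _),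
    eLpNorm_eq_lintegral_rpow_enorm_toReal (by norm_num) (by norm_num), hpt, h2pt, h2t]
  calc (∫⁻ x, ‖g x‖ₑ ^ (p : ℝ) ∂ν) ^ (1 / (p : ℝ))
      ≤ ((∫⁻ x, ‖g x‖ₑ ^ (2 : ℝ) ∂ν) ^ s * (∫⁻ x, ‖g x‖ₑ ^ (2 * (p : ℝ)) ∂ν) ^ (1 - s))
        ^ (1 / (p : ℝ)) := ENNReal.rpow_le_rpow key (by positivity)
    _ = ((∫⁻ x, ‖g x‖ₑ ^ (2 : ℝ) ∂ν) ^ (1 / (2 : ℝ))) ^ (1 / ((p : ℝ) - 1)) *
        ((∫⁻ x, ‖g x‖ₑ ^ (2 * (p : ℝ)) ∂ν) ^ (1 / (2 * (p : ℝ)))) ^ (1 - 1 / ((p : ℝ) - 1)) := by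
        rw [ENNReal.mul_rpow_of_nonneg _ _ (by positivity), ← ENNReal.rpow_mul,
          ← ENNReal.rpow_mul, ← ENNReal.rpow_mul, ← ENNReal.rpow_mul]
        congr 2
        · rw [hs]
          field_simp
        · rw [hs]
          field_simp
          ring

end Pool.Agent.R876.WM
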