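import Pool.Agent.R876.WM.Stm

/-!
Project WM, piece MP: the rotations preserve `μ ⊗ μ`.
-/

open MeasureTheory ProbabilityTheory Set
open scoped ENNReal NNReal Topology

namespace Pool.Agent.R876.WM

universe u

variable {Ω : Type u} [NormedAddCommGroup Ω] [NormedSpace ℝ Ω] [CompleteSpace Ω]
  [SecondCountableTopology Ω] [MeasurableSpace Ω] [BorelSpace Ω]
  (μ : Measure Ω) [IsGaussian μ]

theorem mp_thm (hμ : ∀ L : StrongDual ℝ Ω, ∫ x, L x ∂μ = 0) : S_MP μ := by
  have h2 : ∀ θ : ℝ, MeasurePreserving (fun z : Ω × Ω =>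
      (Real.cos θ • z.1 + Real.sin θ • z.2, -Real.sin θ • z.1 + Real.cos θ • z.2))
    (μ.prod μ) (μ.prod μ) := by
    intro θ
    refine ⟨by fun_prop, ?_⟩
    have h := IsGaussian.map_rotation_eq_self_of_forall_strongDual_eq_zero (μ := μ) hμ θ
    have hf : (fun z : Ω × Ω =>
      (Real.cos θ • z.1 + Real.sin θ • z.2, -Real.sin θ • z.1 + Real.cos θ • z.2)) =
      (ContinuousLinearMap.rotation θ : Ω × Ω →L[ℝ] Ω × Ω) := by
      funext z
      rw [ContinuousLinearMap.rotation_apply]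
    rw [hf]
    exact h
  refine ⟨fun θ => ?_, h2⟩
  exact (measurePreserving_fst (μ := μ) (ν := μ)).comp (h2 θ)

end Pool.Agent.R876.WM
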