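import Pool.Agent.R876.WM.Stm

/-!
# OP: the Ornstein-Uhlenbeck semigroup as a contraction semigroup of operators on `L^p`
-/

open MeasureTheory ProbabilityTheory Set
open scoped ENNReal NNReal Topology

set_option linter.unusedSectionVars false

namespace Pool.Agent.R876.WM
universe u v

variable {Ω : Type u} [NormedAddCommGroup Ω] [NormedSpace ℝ Ω] [CompleteSpace Ω]
  [SecondCountableTopology Ω] [MeasurableSpace Ω] [BorelSpace Ω]
  (μ : Measure Ω) [IsGaussian μ]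

theorem op_thm (E : Type v) [NormedAddCommGroup E] [NormedSpace ℝ E] [CompleteSpace E]
    (h1 : S_OPL E μ) (h2 : S_OPS E μ) (h3 : S_OPC E μ) : S_OP E μ := by
  intro p _ hp'
  have hp : 1 ≤ p := Fact.out
  have hm : ∀ t, 0 ≤ t → ∀ f : Lp E p μ, MemLp (ou μ t f) p μ :=
    fun t ht f => ((h1 p hp hp' t ht).1 f (Lp.memLp f)).1
  have hadd : ∀ (t : ℝ) (ht : 0 ≤ t) (f g : Lp E p μ),
      (hm t ht (f + g)).toLp (ou μ t (f + g : Lp E p μ)) =
        (hm t ht f).toLp (ou μ t f) + (hm t ht g).toLp (ou μ t g) := by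
    intro t ht f g
    apply Lp.ext
    refine (MemLp.coeFn_toLp _).trans ?_
    refine Filter.EventuallyEq.trans ?_ (Lp.coeFn_add _ _).symm
    refine ((h1 p hp hp' t ht).2.1 _ _ (Lp.coeFn_add f g)).trans ?_
    refine ((h1 p hp hp' t ht).2.2.1 f g (Lp.memLp f) (Lp.memLp g)).trans ?_
    filter_upwards [(hm t ht f).coeFn_toLp, (hm t ht g).coeFn_toLp] with x hx hy
    rw [Pi.add_apply, hx, hy]
  have hsmul : ∀ (t : ℝ) (ht : 0 ≤ t) (c : ℝ) (f : Lp E p μ),
      (hm t ht (c • f)).toLp (ou μ t (c • f : Lp E p μ)) =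
        c • (hm t ht f).toLp (ou μ t f) := by
    intro t ht c f
    apply Lp.ext
    refine (MemLp.coeFn_toLp _).trans ?_
    refine Filter.EventuallyEq.trans ?_ (Lp.coeFn_smul _ _).symm
    refine ((h1 p hp hp' t ht).2.1 _ _ (Lp.coeFn_smul c f)).trans ?_
    have h := (h1 p hp hp' t ht).2.2.2 c f
    filter_upwards [(hm t ht f).coeFn_toLp] with x hx
    have h' := congrFun h x
    rw [Pi.smul_apply, hx]
    exact h'
  have hbd : ∀ (t : ℝ) (ht : 0 ≤ t) (f : Lp E p μ),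
      ‖(hm t ht f).toLp (ou μ t f)‖ ≤ 1 * ‖f‖ := by
    intro t ht f
    rw [Lp.norm_toLp, Lp.norm_def, one_mul]
    exact ENNReal.toReal_mono (Lp.memLp f).2.ne ((h1 p hp hp' t ht).1 f (Lp.memLp f)).2
  let L : ∀ t : ℝ, 0 ≤ t → Lp E p μ →L[ℝ] Lp E p μ := fun t ht =>
    LinearMap.mkContinuous
      { toFun := fun f => (hm t ht f).toLp (ou μ t f)
        map_add' := hadd t ht
        map_smul' := hsmul t ht } 1 (hbd t ht)
  let T : ℝ → Lp E p μ →L[ℝ] Lp E p μ := fun t => if ht : 0 ≤ t then L t ht else 0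
  have hTL : ∀ t (ht : 0 ≤ t), T t = L t ht := fun t ht => dif_pos ht
  have hT : ∀ t, 0 ≤ t → ∀ f : Lp E p μ, ((T t f : Lp E p μ) : Ω → E) =ᵐ[μ] ou μ t f := by
    intro t ht f
    rw [hTL t ht]
    exact (hm t ht f).coeFn_toLp
  have hle : ∀ t, 0 ≤ t → ‖T t‖ ≤ 1 := by
    intro t ht
    rw [hTL t ht]
    exact LinearMap.mkContinuous_norm_le _ zero_le_one _
  have hsemi : ∀ s t, 0 ≤ s → 0 ≤ t → T (s + t) = (T s).comp (T t) := by
    intro s t hs ht
    ext1 f
    apply Lp.ext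
    refine (hT (s + t) (add_nonneg hs ht) f).trans ?_
    rw [ContinuousLinearMap.comp_apply]
    refine Filter.EventuallyEq.trans ?_ (hT s hs (T t f)).symm
    refine Filter.EventuallyEq.trans ?_ ((h1 p hp hp' s hs).2.1 _ _ (hT t ht f)).symm
    exact (h2 f ((Lp.memLp f).mono_exponent hp) s t hs ht).symm
  have hzero : T 0 = ContinuousLinearMap.id ℝ (Lp E p μ) := by
    ext1 f
    apply Lp.ext
    refine (hT 0 le_rfl f).trans ?_
    refine Filter.Eventually.of_forall fun x => ?_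
    simp [ou]
  have hc0 : ∀ f : Lp E p μ, ∀ ε : ℝ, 0 < ε → ∃ δ : ℝ, 0 < δ ∧ ∀ u, 0 ≤ u → u ≤ δ →
      ‖T u f - f‖ ≤ ε := by
    intro f ε hε
    obtain ⟨δ, hδ, h⟩ := h3 p hp hp' f (Lp.memLp f) (ENNReal.ofReal ε) (ENNReal.ofReal_pos.2 hε)
    refine ⟨δ, hδ, fun u hu huδ => ?_⟩
    rw [Lp.norm_def]
    refine ENNReal.toReal_le_of_le_ofReal hε.le ?_
    refine le_trans (le_of_eq ?_) (h u hu huδ)
    apply eLpNorm_congr_ae
    refine (Lp.coeFn_sub _ _).trans ?_
    filter_upwards [hT u hu f] with x hx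
    rw [Pi.sub_apply, hx]
  have hkey : ∀ f : Lp E p μ, ∀ s t, 0 ≤ s → s ≤ t → ‖T t f - T s f‖ ≤ ‖T (t - s) f - f‖ := by
    intro f s t hs hst
    have e1 : T t f = T s (T (t - s) f) := by
      have h := hsemi s (t - s) hs (sub_nonneg.2 hst)
      rw [add_sub_cancel] at h
      rw [h]
      rfl
    rw [e1, ← map_sub]
    refine (ContinuousLinearMap.le_opNorm _ _).trans ?_
    calc ‖T s‖ * ‖T (t - s) f - f‖ ≤ 1 * ‖T (t - s) f - f‖ := by
          gcongr
          exact hle s hs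
      _ = _ := one_mul _
  refine ⟨T, ⟨hzero, hsemi, hle, fun f => ?_⟩, hT⟩
  rw [Metric.continuousOn_iff]
  intro b hb ε hε
  obtain ⟨δ, hδ, h⟩ := hc0 f (ε / 2) (by positivity)
  refine ⟨δ, hδ, fun a ha hab => ?_⟩
  have hb' : 0 ≤ b := hb
  have ha' : 0 ≤ a := ha
  rw [Real.dist_eq] at hab
  have h4 := abs_lt.1 hab
  rw [dist_eq_norm]
  rcases le_total a b with h5 | h5
  · rw [norm_sub_rev]
    refine lt_of_le_of_lt ((hkey f a b ha' h5).trans (h (b - a) (by linarith) (by linarith))) ?_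
    linarith
  · refine lt_of_le_of_lt ((hkey f b a hb' h5).trans (h (a - b) (by linarith) (by linarith))) ?_
    linarith

end Pool.Agent.R876.WM
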