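import Pool.Agent.R876.WM.OPS

/-!
# OPC: strong continuity of the Ornstein-Uhlenbeck semigroup at `0`
-/

open MeasureTheory ProbabilityTheory Set
open scoped ENNReal NNReal Topology

set_option linter.unusedSectionVars false

namespace Pool.Agent.R876.WM
universe u v

namespace Opc

theorem jensen {α β : Type*} [MeasurableSpace α] [MeasurableSpace β] (μ : Measure α)
    (ν : Measure β) [SFinite μ] [IsProbabilityMeasure ν] {E : Type*} [NormedAddCommGroup E]
    [NormedSpace ℝ E] {p : ℝ≥0∞} (hp : 1 ≤ p) (hp' : p ≠ ∞) {G : α × β → E}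
    (hG : AEStronglyMeasurable G (μ.prod ν)) :
    eLpNorm (fun x => ∫ y, G (x, y) ∂ν) p μ ≤ eLpNorm G p (μ.prod ν) := by
  have hp0 : p ≠ 0 := (lt_of_lt_of_le one_pos hp).ne'
  have hpr : 0 < p.toReal := ENNReal.toReal_pos hp0 hp'
  rw [eLpNorm_eq_lintegral_rpow_enorm_toReal hp0 hp',
    eLpNorm_eq_lintegral_rpow_enorm_toReal hp0 hp']
  refine ENNReal.rpow_le_rpow ?_ (by positivity)
  rw [lintegral_prod _ (hG.enorm.pow_const _)]
  refine lintegral_mono_ae ?_
  filter_upwards [hG.prodMk_left] with x hx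
  have h1 : ‖∫ y, G (x, y) ∂ν‖ₑ ≤ eLpNorm (fun y => G (x, y)) p ν := by
    refine (enorm_integral_le_lintegral_enorm _).trans ?_
    rw [← eLpNorm_one_eq_lintegral_enorm]
    exact eLpNorm_le_eLpNorm_of_exponent_le hp hx
  calc ‖∫ y, G (x, y) ∂ν‖ₑ ^ p.toReal
      ≤ (eLpNorm (fun y => G (x, y)) p ν) ^ p.toReal := ENNReal.rpow_le_rpow h1 hpr.le
    _ = _ := by
      rw [eLpNorm_eq_lintegral_rpow_enorm_toReal hp0 hp', ← ENNReal.rpow_mul,
        one_div_mul_cancel hpr.ne', ENNReal.rpow_one]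

variable {Ω : Type u} [NormedAddCommGroup Ω] [NormedSpace ℝ Ω] [CompleteSpace Ω]
  [SecondCountableTopology Ω] [MeasurableSpace Ω] [BorelSpace Ω]
  (μ : Measure Ω) [IsProbabilityMeasure μ]

theorem tends {E : Type v} [NormedAddCommGroup E] [NormedSpace ℝ E] (p : ℝ≥0∞) (hp : 1 ≤ p)
    (hp' : p ≠ ∞) (g : BoundedContinuousFunction Ω E) :
    Filter.Tendsto (fun t : ℝ => eLpNorm (fun z : Ω × Ω =>
      g (Real.exp (-t) • z.1 + Real.sqrt (1 - Real.exp (-2 * t)) • z.2) - g z.1) p (μ.prod μ))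
      (𝓝 0) (𝓝 0) := by
  have hp0 : p ≠ 0 := (lt_of_lt_of_le one_pos hp).ne'
  have hpr : 0 < p.toReal := ENNReal.toReal_pos hp0 hp'
  simp only [eLpNorm_eq_lintegral_rpow_enorm_toReal hp0 hp']
  have h1 : Filter.Tendsto (fun t : ℝ => ∫⁻ z : Ω × Ω,
      ‖g (Real.exp (-t) • z.1 + Real.sqrt (1 - Real.exp (-2 * t)) • z.2) - g z.1‖ₑ ^ p.toReal
        ∂(μ.prod μ)) (𝓝 0) (𝓝 (∫⁻ _ : Ω × Ω, 0 ∂(μ.prod μ))) := by
    refine tendsto_lintegral_filter_of_dominated_convergence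
      (fun _ => (ENNReal.ofReal (‖g‖ + ‖g‖)) ^ p.toReal) ?_ ?_ ?_ ?_
    · refine Filter.Eventually.of_forall fun t => ?_
      have hc : Continuous fun z : Ω × Ω =>
          g (Real.exp (-t) • z.1 + Real.sqrt (1 - Real.exp (-2 * t)) • z.2) - g z.1 := by
        fun_prop
      exact (hc.enorm.measurable).pow_const _
    · refine Filter.Eventually.of_forall fun t => Filter.Eventually.of_forall fun z => ?_
      refine ENNReal.rpow_le_rpow ?_ hpr.le
      rw [← ofReal_norm]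
      refine ENNReal.ofReal_le_ofReal ((norm_sub_le _ _).trans ?_)
      exact add_le_add (g.norm_coe_le_norm _) (g.norm_coe_le_norm _)
    · rw [lintegral_const]
      exact ENNReal.mul_ne_top (ENNReal.rpow_ne_top_of_nonneg hpr.le ENNReal.ofReal_ne_top)
        (measure_ne_top _ _)
    · refine Filter.Eventually.of_forall fun z => ?_
      have hc : Continuous fun t : ℝ =>
          ‖g (Real.exp (-t) • z.1 + Real.sqrt (1 - Real.exp (-2 * t)) • z.2) - g z.1‖ₑ
            ^ p.toReal := by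
        refine (ENNReal.continuous_rpow_const).comp ?_
        refine Continuous.enorm ?_
        fun_prop
      have h := hc.tendsto 0
      convert h using 2
      simp [hpr]
  have h2 := (ENNReal.continuous_rpow_const (y := 1 / p.toReal)).tendsto
    (∫⁻ _ : Ω × Ω, 0 ∂(μ.prod μ))
  have h3 := h2.comp h1
  have h4 : (∫⁻ _ : Ω × Ω, (0 : ℝ≥0∞) ∂(μ.prod μ)) ^ (1 / p.toReal) = 0 := by
    rw [lintegral_zero, ENNReal.zero_rpow_of_pos (by positivity)]
  rw [h4] at h3
  exact h3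

end Opc

open Ops Opc

variable {Ω : Type u} [NormedAddCommGroup Ω] [NormedSpace ℝ Ω] [CompleteSpace Ω]
  [SecondCountableTopology Ω] [MeasurableSpace Ω] [BorelSpace Ω]
  (μ : Measure Ω) [IsGaussian μ]

theorem opc_thm (E : Type v) [NormedAddCommGroup E] [NormedSpace ℝ E] [CompleteSpace E]
    (hMP : S_MP μ) : S_OPC E μ := by
  intro p hp hp' f hf ε hε
  have hη : ε / 3 ≠ 0 := (ENNReal.div_pos hε.ne' (by norm_num)).ne'
  obtain ⟨g, hg, hgm⟩ := hf.exists_boundedContinuous_eLpNorm_sub_le hp' hη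
  obtain ⟨δ, hδ, hδ'⟩ := Metric.eventually_nhds_iff.1
    (ENNReal.tendsto_nhds_zero.1 (tends μ p hp hp' g) (ε / 3) (pos_iff_ne_zero.2 hη))
  refine ⟨δ / 2, by positivity, fun t ht htδ => ?_⟩
  have hmp : MeasurePreserving (fun z : Ω × Ω =>
      Real.exp (-t) • z.1 + Real.sqrt (1 - Real.exp (-2 * t)) • z.2) (μ.prod μ) μ := by
    have h := hMP.1 (Real.arccos (Real.exp (-t)))
    rw [cos_ang ht, sin_ang] at h
    exact h
  have hfst : MeasurePreserving (Prod.fst : Ω × Ω → Ω) (μ.prod μ) μ := measurePreserving_fst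
  set R : Ω × Ω → Ω := fun z => Real.exp (-t) • z.1 + Real.sqrt (1 - Real.exp (-2 * t)) • z.2
    with hR
  have m1 : MemLp (f ∘ R) p (μ.prod μ) := hf.comp_measurePreserving hmp
  have m2 : MemLp (f ∘ Prod.fst) p (μ.prod μ) := hf.comp_measurePreserving hfst
  have m3 : MemLp (g ∘ R) p (μ.prod μ) := hgm.comp_measurePreserving hmp
  have m4 : MemLp (g ∘ Prod.fst) p (μ.prod μ) := hgm.comp_measurePreserving hfst
  set D : Ω × Ω → E := f ∘ R - f ∘ Prod.fst with hD
  have h1 : (fun x => ou μ t f x - f x) =ᵐ[μ] fun x => ∫ y, D (x, y) ∂μ := by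
    have hi : Integrable (f ∘ R) (μ.prod μ) := m1.integrable hp
    filter_upwards [hi.prod_right_ae] with x hx
    have h2 : ∫ y, D (x, y) ∂μ = (∫ y, (f ∘ R) (x, y) ∂μ) - ∫ _y, f x ∂μ :=
      integral_sub hx (integrable_const (f x))
    rw [h2, integral_const]
    simp [ou, hR]
  rw [eLpNorm_congr_ae h1]
  have hDm : AEStronglyMeasurable D (μ.prod μ) := m1.1.sub m2.1
  refine (jensen μ μ hp hp' hDm).trans ?_
  have h2 : D = (f ∘ R - g ∘ R) + (g ∘ R - g ∘ Prod.fst)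
      + (g ∘ Prod.fst - f ∘ Prod.fst) := by
    rw [hD]; abel
  rw [h2]
  refine (eLpNorm_add_le ((m1.1.sub m3.1).add (m3.1.sub m4.1)) (m4.1.sub m2.1) hp).trans ?_
  refine (add_le_add (eLpNorm_add_le (m1.1.sub m3.1) (m3.1.sub m4.1) hp) le_rfl).trans ?_
  rw [← ENNReal.add_thirds ε]
  refine add_le_add (add_le_add ?_ ?_) ?_
  · have h3 : f ∘ R - g ∘ R = (f - (g : Ω → E)) ∘ R := rfl
    rw [h3, eLpNorm_comp_measurePreserving (hf.1.sub hgm.1) hmp]
    exact hg
  · have h3 := hδ' (y := t) (by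
      rw [Real.dist_eq, sub_zero, abs_of_nonneg ht]; linarith)
    exact h3
  · have h3 : (g : Ω → E) ∘ Prod.fst - f ∘ (Prod.fst : Ω × Ω → Ω)
        = -((f - (g : Ω → E)) ∘ Prod.fst) := by
      funext z
      simp
    rw [h3, eLpNorm_neg, eLpNorm_comp_measurePreserving (hf.1.sub hgm.1) hfst]
    exact hg

end Pool.Agent.R876.WM
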