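import Pool.Agent.R876.WM.Stm

/-!
Project WM, piece OPL: `P_t` on `L^p`.
-/

open MeasureTheory ProbabilityTheory Set
open scoped ENNReal NNReal Topology

namespace Pool.Agent.R876.WM

universe u v

namespace OPL

section

variable {Ω : Type u} [NormedAddCommGroup Ω] [NormedSpace ℝ Ω] [MeasurableSpace Ω]
variable {E : Type v} [NormedAddCommGroup E] [NormedSpace ℝ E]

/-- The rotated function. -/
noncomputable def rot (θ : ℝ) (z : Ω × Ω) : Ω := Real.cos θ • z.1 + Real.sin θ • z.2

lemma ou_eq (μ : Measure Ω) (t : ℝ) (ht : 0 ≤ t) (f : Ω → E) (x : Ω) :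
    ou μ t f x = ∫ y, f (rot (Real.arccos (Real.exp (-t))) (x, y)) ∂μ := by
  have h1 : Real.exp (-t) ≤ 1 := Real.exp_le_one_iff.mpr (by linarith)
  have h2 : (-1 : ℝ) ≤ Real.exp (-t) := by linarith [Real.exp_pos (-t)]
  unfold ou rot
  rw [Real.cos_arccos h2 h1, Real.sin_arccos, ← Real.exp_nat_mul]
  congr 1
  ext y
  congr 4
  push_cast
  ring_nf

/-- Minkowski/Jensen for partial integrals with respect to a probability measure. -/
lemma eLpNorm_int_le (μ : Measure Ω) [IsProbabilityMeasure μ] (p : ℝ≥0∞) (hp : 1 ≤ p)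
    (hpt : p ≠ ∞) (F : Ω × Ω → E) (hF : AEStronglyMeasurable F (μ.prod μ)) :
    eLpNorm (fun x => ∫ y, F (x, y) ∂μ) p μ ≤ eLpNorm F p (μ.prod μ) := by
  have hp0 : p ≠ 0 := (lt_of_lt_of_le zero_lt_one hp).ne'
  have hpos : 0 < p.toReal := ENNReal.toReal_pos hp0 hpt
  rw [eLpNorm_eq_lintegral_rpow_enorm_toReal hp0 hpt, eLpNorm_eq_lintegral_rpow_enorm_toReal hp0 hpt]
  refine ENNReal.rpow_le_rpow ?_ (by positivity)
  rw [lintegral_prod _ (hF.enorm.pow_const _)]
  refine lintegral_mono_ae ?_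
  filter_upwards [hF.prodMk_left] with x hx
  have h1 : ‖∫ y, F (x, y) ∂μ‖ₑ ≤ eLpNorm (fun y => F (x, y)) p μ := by
    refine (enorm_integral_le_lintegral_enorm _).trans ?_
    rw [← eLpNorm_one_eq_lintegral_enorm]
    exact eLpNorm_le_eLpNorm_of_exponent_le hp hx
  refine (ENNReal.rpow_le_rpow h1 hpos.le).trans ?_
  rw [eLpNorm_eq_lintegral_rpow_enorm_toReal hp0 hpt, ← ENNReal.rpow_mul,
    one_div_mul_cancel hpos.ne', ENNReal.rpow_one]

end

end OPL

open OPL

variable {Ω : Type u} [NormedAddCommGroup Ω] [NormedSpace ℝ Ω] [CompleteSpace Ω]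
  [SecondCountableTopology Ω] [MeasurableSpace Ω] [BorelSpace Ω]
  (μ : Measure Ω) [IsGaussian μ]
variable (E : Type v) [NormedAddCommGroup E] [NormedSpace ℝ E]

theorem opl_thm (hMP : S_MP μ) : S_OPL E μ := by
  intro p hp hpt t ht
  have hφ : MeasurePreserving (rot (Ω := Ω) (Real.arccos (Real.exp (-t)))) (μ.prod μ) μ :=
    hMP.1 _
  refine ⟨?_, ?_, ?_, ?_⟩
  · intro f hf
    have hF : MemLp (fun z => f (rot (Real.arccos (Real.exp (-t))) z)) p (μ.prod μ) :=
      hf.comp_measurePreserving hφ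
    have hn : eLpNorm (fun z => f (rot (Real.arccos (Real.exp (-t))) z)) p (μ.prod μ)
        = eLpNorm f p μ := eLpNorm_comp_measurePreserving hf.1 hφ
    have hou : ou μ t f = fun x => ∫ y, f (rot (Real.arccos (Real.exp (-t))) (x, y)) ∂μ :=
      funext fun x => ou_eq μ t ht f x
    have hle0 := eLpNorm_int_le μ p hp hpt
      (fun z => f (rot (Real.arccos (Real.exp (-t))) z)) hF.1
    have hms0 : AEStronglyMeasurable
        (fun x => ∫ y, f (rot (Real.arccos (Real.exp (-t))) (x, y)) ∂μ) μ :=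
      hF.1.integral_prod_right'
    have hle : eLpNorm (ou μ t f) p μ ≤ eLpNorm f p μ :=
      (congrArg (fun h => eLpNorm h p μ) hou).le.trans (hle0.trans hn.le)
    have hms : AEStronglyMeasurable (ou μ t f) μ := by
      rw [hou]
      exact hms0
    exact ⟨⟨hms, lt_of_le_of_lt hle hf.2⟩, hle⟩
  · intro f g hfg
    have h1 := hφ.quasiMeasurePreserving.ae_eq_comp hfg
    filter_upwards [Measure.ae_ae_of_ae_prod h1] with x hx
    rw [ou_eq μ t ht, ou_eq μ t ht]
    exact integral_congr_ae hx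
  · intro f g hf hg
    have hF : Integrable (fun z => f (rot (Real.arccos (Real.exp (-t))) z)) (μ.prod μ) :=
      (hf.comp_measurePreserving hφ).integrable hp
    have hG : Integrable (fun z => g (rot (Real.arccos (Real.exp (-t))) z)) (μ.prod μ) :=
      (hg.comp_measurePreserving hφ).integrable hp
    filter_upwards [hF.prod_right_ae, hG.prod_right_ae] with x hx hy
    rw [ou_eq μ t ht, ou_eq μ t ht, ou_eq μ t ht]
    exact integral_add hx hy
  · intro c f
    funext x
    unfold ou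
    exact integral_smul c _

end Pool.Agent.R876.WM
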