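import Pool.Agent.R876.WM.Stm

/-!
# OPS: semigroup law of the Ornstein-Uhlenbeck semigroup
-/

open MeasureTheory ProbabilityTheory Set
open scoped ENNReal NNReal Topology

set_option linter.unusedSectionVars false

namespace Pool.Agent.R876.WM
universe u v

namespace Ops

theorem exp_two (t : ℝ) : Real.exp (-2 * t) = Real.exp (-t) ^ 2 := by
  rw [← Real.exp_nat_mul]
  congr 1
  push_cast
  ring

theorem cos_ang {t : ℝ} (ht : 0 ≤ t) :
    Real.cos (Real.arccos (Real.exp (-t))) = Real.exp (-t) :=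
  Real.cos_arccos (by have := Real.exp_pos (-t); linarith)
    (Real.exp_le_one_iff.2 (by linarith))

theorem sin_ang (t : ℝ) :
    Real.sin (Real.arccos (Real.exp (-t))) = Real.sqrt (1 - Real.exp (-2 * t)) := by
  rw [Real.sin_arccos, exp_two]

end Ops

open Ops

variable {Ω : Type u} [NormedAddCommGroup Ω] [NormedSpace ℝ Ω] [CompleteSpace Ω]
  [SecondCountableTopology Ω] [MeasurableSpace Ω] [BorelSpace Ω]
  (μ : Measure Ω) [IsGaussian μ]

theorem ops_thm (E : Type v) [NormedAddCommGroup E] [NormedSpace ℝ E] (hMP : S_MP μ) :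
    S_OPS E μ := by
  intro f hf s t hs ht
  have hst : 0 ≤ s + t := add_nonneg hs ht
  set c : ℝ := Real.sqrt (1 - Real.exp (-2 * (s + t))) with hc
  set b0 : ℝ := Real.sqrt (1 - Real.exp (-2 * s)) with hb0
  set b1 : ℝ := Real.sqrt (1 - Real.exp (-2 * t)) with hb1
  have hc2 : c ^ 2 = 1 - Real.exp (-s) ^ 2 * Real.exp (-t) ^ 2 := by
    rw [hc, Real.sq_sqrt (sub_nonneg.2 (Real.exp_le_one_iff.2 (by linarith))), exp_two]
    rw [show -(s + t) = -s + -t by ring, Real.exp_add]
    ring
  have hb02 : b0 ^ 2 = 1 - Real.exp (-s) ^ 2 := by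
    rw [hb0, Real.sq_sqrt (sub_nonneg.2 (Real.exp_le_one_iff.2 (by linarith))), exp_two]
  have hb12 : b1 ^ 2 = 1 - Real.exp (-t) ^ 2 := by
    rw [hb1, Real.sq_sqrt (sub_nonneg.2 (Real.exp_le_one_iff.2 (by linarith))), exp_two]
  have hb00 : 0 ≤ b0 := Real.sqrt_nonneg _
  have hb10 : 0 ≤ b1 := Real.sqrt_nonneg _
  have hc0 : 0 ≤ c := Real.sqrt_nonneg _
  have hes := Real.exp_pos (-s)
  have het := Real.exp_pos (-t)
  have hphi : ∃ φ : ℝ, c * Real.cos φ = Real.exp (-t) * b0 ∧ c * Real.sin φ = b1 := by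
    rcases eq_or_lt_of_le hc0 with h | h
    · refine ⟨0, ?_, ?_⟩
      · have h1 : (Real.exp (-t) * b0) ^ 2 + b1 ^ 2 = 0 := by
          have : (Real.exp (-t) * b0) ^ 2 + b1 ^ 2 = c ^ 2 := by
            rw [mul_pow, hb02, hb12, hc2]; ring
          rw [this, ← h]; norm_num
        have h2 : Real.exp (-t) * b0 = 0 := by
          have : (Real.exp (-t) * b0) ^ 2 = 0 := by
            nlinarith [sq_nonneg (Real.exp (-t) * b0), sq_nonneg b1]
          exact pow_eq_zero_iff (two_ne_zero) |>.1 this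
        rw [h2, ← h]; ring
      · have h1 : (Real.exp (-t) * b0) ^ 2 + b1 ^ 2 = 0 := by
          have : (Real.exp (-t) * b0) ^ 2 + b1 ^ 2 = c ^ 2 := by
            rw [mul_pow, hb02, hb12, hc2]; ring
          rw [this, ← h]; norm_num
        have h2 : b1 = 0 := by
          have : b1 ^ 2 = 0 := by
            nlinarith [sq_nonneg (Real.exp (-t) * b0), sq_nonneg b1]
          exact pow_eq_zero_iff (two_ne_zero) |>.1 this
        rw [h2, ← h]; ring
    · refine ⟨Real.arccos (Real.exp (-t) * b0 / c), ?_, ?_⟩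
      · rw [Real.cos_arccos]
        · field_simp
        · have : 0 ≤ Real.exp (-t) * b0 / c := by positivity
          linarith
        · rw [div_le_one h]
          refine le_of_sq_le_sq ?_ hc0
          rw [mul_pow, hb02, hc2]
          nlinarith [sq_nonneg b1]
      · rw [Real.sin_arccos]
        have h1 : 1 - (Real.exp (-t) * b0 / c) ^ 2 = (b1 / c) ^ 2 := by
          rw [div_pow, div_pow, mul_pow, hb02, hb12]
          field_simp
          rw [hc2]
          ring
        rw [h1, Real.sqrt_sq (by positivity)]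
        field_simp
  obtain ⟨φ, hφ1, hφ2⟩ := hphi
  set θ : ℝ := Real.arccos (Real.exp (-(s + t))) with hθ
  have hF : Integrable (fun z : Ω × Ω => f (Real.cos θ • z.1 + Real.sin θ • z.2)) (μ.prod μ) :=
    memLp_one_iff_integrable.1 (hf.comp_measurePreserving (hMP.1 θ))
  filter_upwards [hF.prod_right_ae] with x hx
  have hx' : Integrable (fun y => f (Real.exp (-(s + t)) • x + c • y)) μ := by
    rw [hθ, cos_ang hst, sin_ang] at hx
    exact hx
  have hmp := hMP.1 φ
  have h1 : ou μ (s + t) f x = ∫ z : Ω × Ω, f (Real.exp (-(s + t)) • x +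
      c • (Real.cos φ • z.1 + Real.sin φ • z.2)) ∂(μ.prod μ) := by
    unfold ou
    have h := integral_map (μ := μ.prod μ) (f := fun y => f (Real.exp (-(s + t)) • x + c • y))
      hmp.measurable.aemeasurable (by rw [hmp.map_eq]; exact hx'.1)
    rw [hmp.map_eq] at h
    exact h
  have h2 : Integrable (fun z : Ω × Ω => f (Real.exp (-(s + t)) • x +
      c • (Real.cos φ • z.1 + Real.sin φ • z.2))) (μ.prod μ) :=
    hmp.integrable_comp_of_integrable hx'
  rw [h1, integral_prod _ h2]
  unfold ou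
  refine integral_congr_ae (Filter.Eventually.of_forall fun y => ?_)
  refine integral_congr_ae (Filter.Eventually.of_forall fun z => ?_)
  show f _ = f _
  congr 1
  rw [smul_add, smul_add, smul_smul, smul_smul, smul_smul, smul_smul, hφ1, hφ2,
    show -(s + t) = -t + -s by ring, Real.exp_add]
  abel

end Pool.Agent.R876.WM
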