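import Pool.Agent.R876.WM.Stm

/-!
Project WM: the Ornstein-Uhlenbeck semigroup and `J = (1 - L)⁻¹` as operators on `L^p`.
-/

open MeasureTheory ProbabilityTheory Set
open scoped ENNReal NNReal Topology

namespace Pool.Agent.R876.WM

universe u v

variable {Ω : Type u} [NormedAddCommGroup Ω] [NormedSpace ℝ Ω] [CompleteSpace Ω]
  [SecondCountableTopology Ω] [MeasurableSpace Ω] [BorelSpace Ω]
  (μ : Measure Ω) [IsGaussian μ]
variable (E : Type v) [NormedAddCommGroup E] [InnerProductSpace ℝ E] [CompleteSpace E]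

set_option linter.unusedSectionVars false in
theorem oul_thm (h1 : S_OP E μ) (h2 : S_BOP.{max u v}) (h3 : S_BRI E μ) : S_OUL E μ := by
  intro p _ hp
  obtain ⟨T, hT, hou⟩ := h1 p hp
  obtain ⟨B, J, hJ, hJn, hB, -, hJm⟩ := h2 (Lp E p μ) T hT
  refine ⟨T, J, hT, hou, hJ, hJn, ?_⟩
  intro m U
  rcases Nat.eq_zero_or_pos m with hm | hm
  · subst hm
    have e : pot μ (2 * 0) (U : Ω → E) = U := by
      unfold pot
      rw [if_pos (by norm_num)]
    rw [e, pow_zero]
    exact Filter.EventuallyEq.rfl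
  · have hm' : (0 : ℝ) < m := by exact_mod_cast hm
    have e : pot μ (2 * m) (U : Ω → E) = bes μ (m : ℝ) U := by
      unfold pot
      rw [if_neg (by omega)]
      congr 1
      push_cast
      ring
    rw [e, hJm m hm, (hB m hm').2 U]
    exact h3 p hp T hT hou m hm' U

end Pool.Agent.R876.WM
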