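import Pool.Agent.R876.WM.Stm

/-!
WM-POT (MP_e701d5_pr): contraction and factorisation of the Bessel potentials.
-/

open MeasureTheory ProbabilityTheory Set
open scoped ENNReal NNReal Topology

universe u v

namespace Pool.Agent.R876.WM

variable {Ω : Type u} [NormedAddCommGroup Ω] [NormedSpace ℝ Ω] [CompleteSpace Ω]
  [SecondCountableTopology Ω] [MeasurableSpace Ω] [BorelSpace Ω]
  (μ : Measure Ω) [IsGaussian μ]
variable (E : Type v) [NormedAddCommGroup E] [InnerProductSpace ℝ E] [CompleteSpace E]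

namespace POTx

/-- the Mehler map -/
noncomputable def mm (t : ℝ) (x y : Ω) : Ω :=
  Real.exp (-t) • x + Real.sqrt (1 - Real.exp (-2 * t)) • y

omit [CompleteSpace Ω] [SecondCountableTopology Ω] [IsGaussian μ] [BorelSpace Ω] in
theorem mp_mm (hMP : S_MP μ) (t : ℝ) (ht : 0 ≤ t) :
    MeasurePreserving (fun z : Ω × Ω => mm t z.1 z.2) (μ.prod μ) μ := by
  have h1 := hMP.1 (Real.arccos (Real.exp (-t)))
  have h2 : Real.cos (Real.arccos (Real.exp (-t))) = Real.exp (-t) := by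
    refine Real.cos_arccos ?_ ?_
    · linarith [Real.exp_pos (-t)]
    · rw [Real.exp_le_one_iff]
      linarith
  have h3 : Real.sin (Real.arccos (Real.exp (-t))) = Real.sqrt (1 - Real.exp (-2 * t)) := by
    rw [Real.sin_arccos]
    congr 2
    rw [← Real.exp_nat_mul]
    congr 1
    push_cast
    ring
  rw [h2, h3] at h1
  exact h1

omit [CompleteSpace Ω] in
theorem bes_congr (hMP : S_MP μ) (a : ℝ) (U V : Ω → E) (h : U =ᵐ[μ] V) :
    bes μ a U =ᵐ[μ] bes μ a V := by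
  -- a measurable null set
  obtain ⟨N, hN1, hNm, hN0⟩ := exists_measurable_superset_of_null (ae_iff.1 h)
  have hgood : ∀ ω, ω ∉ N → U ω = V ω := by
    intro ω hω
    by_contra h'
    exact hω (hN1 h')
  set ν : Measure ℝ := volume.restrict (Set.Ioi (0 : ℝ)) with hν
  have hcont : Continuous (fun z : (ℝ × Ω) × Ω => mm z.1.1 z.1.2 z.2) := by
    unfold mm
    fun_prop
  have hA : MeasurableSet {z : (ℝ × Ω) × Ω | mm z.1.1 z.1.2 z.2 ∈ N} :=
    hcont.measurable hNm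
  have hB : MeasurableSet {q : ℝ × Ω | ∀ᵐ y ∂μ, mm q.1 q.2 y ∉ N} := by
    have h1 : Measurable (fun q : ℝ × Ω =>
        μ (Prod.mk q ⁻¹' {z : (ℝ × Ω) × Ω | mm z.1.1 z.1.2 z.2 ∈ N})) :=
      measurable_measure_prodMk_left hA
    have h2 : {q : ℝ × Ω | ∀ᵐ y ∂μ, mm q.1 q.2 y ∉ N} = (fun q : ℝ × Ω =>
        μ (Prod.mk q ⁻¹' {z : (ℝ × Ω) × Ω | mm z.1.1 z.1.2 z.2 ∈ N})) ⁻¹' {0} := by
      ext q
      simp only [Set.mem_ofPred_eq, Set.mem_preimage, Set.mem_singleton_iff]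
      rw [ae_iff]
      simp only [not_not]
      rfl
    rw [h2]
    exact h1 (measurableSet_singleton 0)
  have h1 : ∀ᵐ t ∂ν, ∀ᵐ x ∂μ, ∀ᵐ y ∂μ, mm t x y ∉ N := by
    rw [hν]
    refine (ae_restrict_mem measurableSet_Ioi).mono fun t ht => ?_
    have h2 := (mp_mm μ hMP t (le_of_lt ht)).quasiMeasurePreserving.ae
      (p := fun w => w ∉ N) (by
        rw [ae_iff]
        simp only [not_not]
        exact hN0)
    exact Measure.ae_ae_of_ae_prod h2
  have h2 : ∀ᵐ x ∂μ, ∀ᵐ t ∂ν, ∀ᵐ y ∂μ, mm t x y ∉ N :=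
    (Measure.ae_ae_comm (p := fun t x => ∀ᵐ y ∂μ, mm t x y ∉ N) hB).1 h1
  refine h2.mono fun x hx => ?_
  unfold bes
  refine integral_congr_ae ?_
  rw [← hν]
  refine hx.mono fun t ht => ?_
  show _ • ou μ t U x = _ • ou μ t V x
  congr 1
  unfold ou
  refine integral_congr_ae (ht.mono fun y hy => ?_)
  exact hgood _ hy

omit [CompleteSpace Ω] in
theorem pot_congr (hMP : S_MP μ) (r : ℕ) (U V : Ω → E) (h : U =ᵐ[μ] V) :
    pot μ r U =ᵐ[μ] pot μ r V := by
  unfold pot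
  split_ifs
  · exact h
  · exact bes_congr μ E hMP _ U V h

end POTx

open POTx in
theorem pot_thm (hMP : S_MP μ) (h1 : S_OP E μ) (h2 : S_BOP.{max u v}) (h3 : S_BRI E μ) :
    S_POT E μ := by
  intro p hp1 hp
  haveI : Fact (1 ≤ p) := ⟨hp1⟩
  obtain ⟨T, hT, hTou⟩ := h1 p hp
  obtain ⟨B, J, -, -, hBn, hBB, -⟩ := h2 (Lp E p μ) T hT
  have hbes : ∀ a, 0 < a → ∀ (U : Ω → E) (hU : MemLp U p μ),
      ((B a (hU.toLp U) : Lp E p μ) : Ω → E) =ᵐ[μ] bes μ a U := by
    intro a ha U hU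
    have h4 := h3 p hp T hT hTou a ha (hU.toLp U)
    rw [← (hBn a ha).2] at h4
    exact h4.trans (bes_congr μ E hMP a _ _ hU.coeFn_toLp)
  have hnorm : ∀ a, 0 < a → ∀ (U : Ω → E) (hU : MemLp U p μ),
      eLpNorm ((B a (hU.toLp U) : Lp E p μ) : Ω → E) p μ ≤ eLpNorm U p μ := by
    intro a ha U hU
    have h4 : ‖B a (hU.toLp U)‖ ≤ ‖hU.toLp U‖ := by
      refine ((B a).le_opNorm _).trans ?_
      calc ‖B a‖ * ‖hU.toLp U‖ ≤ 1 * ‖hU.toLp U‖ := by
            gcongr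
            exact (hBn a ha).1
        _ = ‖hU.toLp U‖ := one_mul _
    rw [← Lp.enorm_def, ← eLpNorm_congr_ae hU.coeFn_toLp, ← Lp.enorm_def]
    exact enorm_le_iff_norm_le.2 h4
  have hbesL : ∀ a, 0 < a → ∀ (U : Ω → E), MemLp U p μ → MemLp (bes μ a U) p μ ∧
      eLpNorm (bes μ a U) p μ ≤ eLpNorm U p μ := by
    intro a ha U hU
    have h4 := hbes a ha U hU
    refine ⟨(memLp_congr_ae h4).1 (Lp.memLp _), ?_⟩
    rw [← eLpNorm_congr_ae h4]
    exact hnorm a ha U hU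
  have hpotL : ∀ (r : ℕ) (U : Ω → E), MemLp U p μ → MemLp (pot μ r U) p μ ∧
      eLpNorm (pot μ r U) p μ ≤ eLpNorm U p μ := by
    intro r U hU
    unfold pot
    split_ifs with hr
    · exact ⟨hU, le_rfl⟩
    · refine hbesL _ ?_ U hU
      have : 0 < r := Nat.pos_of_ne_zero hr
      positivity
  refine ⟨fun r U V h => pot_congr μ E hMP r U V h, hpotL, ?_⟩
  intro r m hrm U hU
  rcases Nat.eq_zero_or_pos r with hr | hr
  · subst hr
    obtain ⟨h4, h5⟩ := hpotL (2 * m) U hU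
    refine ⟨pot μ (2 * m) U, h4, h5, ?_⟩
    have e : ∀ W : Ω → E, pot μ 0 W = W := fun W => by
      unfold pot
      rw [if_pos rfl]
    rw [e]
  rcases Nat.eq_or_lt_of_le hrm with hr2 | hr2
  · refine ⟨U, hU, le_rfl, ?_⟩
    rw [hr2]
  · have ha : 0 < (r : ℝ) / 2 := by positivity
    have hb : 0 < (m : ℝ) - (r : ℝ) / 2 := by
      have : (r : ℝ) < 2 * m := by exact_mod_cast hr2
      linarith
    have hm : 0 < m := by omega
    set W : Lp E p μ := B ((m : ℝ) - (r : ℝ) / 2) (hU.toLp U) with hW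
    refine ⟨(W : Ω → E), Lp.memLp _, hnorm _ hb U hU, ?_⟩
    have e1 : pot μ (2 * m) U = bes μ m U := by
      unfold pot
      rw [if_neg (by omega)]
      congr 1
      push_cast
      ring
    have e2 : pot μ r (W : Ω → E) = bes μ ((r : ℝ) / 2) (W : Ω → E) := by
      unfold pot
      rw [if_neg (by omega)]
    rw [e1, e2]
    have h4 := hbes (m : ℝ) (by positivity) U hU
    have h5 := hbes ((r : ℝ) / 2) ha (W : Ω → E) (Lp.memLp W)
    rw [Lp.toLp_coeFn] at h5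
    have h6 : B ((r : ℝ) / 2) W = B (m : ℝ) (hU.toLp U) := by
      rw [hW, ← ContinuousLinearMap.comp_apply, hBB _ _ ha hb]
      congr 2
      ring
    rw [h6] at h5
    exact h4.symm.trans h5

end Pool.Agent.R876.WM
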