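import Pool.Agent.R876.WM.Stm

/-!
Project WM (helper876), piece PROD: products of rotation smooth functions (helper711).
-/

set_option autoImplicit false

open MeasureTheory ProbabilityTheory Set
open scoped ENNReal NNReal Topology

namespace Pool.Agent.R876.WM

universe u v

variable {Ω : Type u} [NormedAddCommGroup Ω] [NormedSpace ℝ Ω] [CompleteSpace Ω]
  [SecondCountableTopology Ω] [MeasurableSpace Ω] [BorelSpace Ω]
  (μ : Measure Ω) [IsGaussian μ]
variable (E : Type v) [NormedAddCommGroup E] [InnerProductSpace ℝ E] [CompleteSpace E]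

namespace PROD

theorem triple (p : ℕ) (hp : 1 ≤ p) :
    ENNReal.HolderTriple ((2 * p : ℕ) : ℝ≥0∞) ((2 * p : ℕ) : ℝ≥0∞) (p : ℝ≥0∞) := by
  constructor
  have hp0 : (p : ℝ≥0∞) ≠ 0 := by
    have : p ≠ 0 := by omega
    exact_mod_cast this
  have h1 : ((2 * p : ℕ) : ℝ≥0∞)⁻¹ = 2⁻¹ * (p : ℝ≥0∞)⁻¹ := by
    rw [Nat.cast_mul, ENNReal.mul_inv]
    · norm_num
    · left; norm_num
    · left; norm_num
  rw [h1, ← add_mul, ENNReal.inv_two_add_inv_two, one_mul]

theorem holder {α : Type*} [MeasurableSpace α] (ν : Measure α) {E F : Type*}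
    [NormedAddCommGroup E] [NormedSpace ℝ E] [NormedAddCommGroup F] [NormedSpace ℝ F]
    (B : E →L[ℝ] E →L[ℝ] F) (hB : ∀ v w, ‖B v w‖ ≤ ‖v‖ * ‖w‖) (p : ℕ) (hp : 1 ≤ p)
    (f g : α → E) (hf : MemLp f ((2 * p : ℕ) : ℝ≥0∞) ν) (hg : MemLp g ((2 * p : ℕ) : ℝ≥0∞) ν) :
    MemLp (fun x => B (f x) (g x)) (p : ℝ≥0∞) ν ∧
    eLpNorm (fun x => B (f x) (g x)) (p : ℝ≥0∞) ν ≤
      eLpNorm f ((2 * p : ℕ) : ℝ≥0∞) ν * eLpNorm g ((2 * p : ℕ) : ℝ≥0∞) ν := by
  haveI := triple p hp
  have hb : ∀ᵐ x ∂ν, ‖B (f x) (g x)‖₊ ≤ (1 : ℝ≥0) * ‖f x‖₊ * ‖g x‖₊ := by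
    filter_upwards with x
    rw [one_mul]
    exact_mod_cast hB (f x) (g x)
  have hmeas : AEStronglyMeasurable (fun x => B (f x) (g x)) ν := by
    have hc : Continuous (fun q : E × E => B q.1 q.2) := by
      exact (B.continuous.comp continuous_fst).clm_apply continuous_snd
    exact hc.comp_aestronglyMeasurable (hf.1.prodMk hg.1)
  refine ⟨MemLp.of_bilin (fun v w => B v w) 1 hf hg hmeas hb, ?_⟩
  have h := eLpNorm_le_eLpNorm_mul_eLpNorm_of_nnnorm (p := ((2 * p : ℕ) : ℝ≥0∞))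
    (q := ((2 * p : ℕ) : ℝ≥0∞)) (r := (p : ℝ≥0∞)) hf.1 hg.1 (fun v w => B v w) 1 hb
  simpa using h

/-- the constants of `USm` for the orders up to `K`, with a bound valid for `a ≥ K1` -/
theorem unif_const {Ω : Type*} [NormedAddCommGroup Ω] [NormedSpace ℝ Ω] [MeasurableSpace Ω]
    {E : Type*} [NormedAddCommGroup E] [NormedSpace ℝ E]
    (μ : Measure Ω) (q : ℕ) (S : Set (Ω → E)) (h : USm μ q S) (j : ℕ) :
    ∃ K1 : ℕ, 1 ≤ K1 ∧ ∃ D : ℕ → ℝ, (∀ a, 0 ≤ D a) ∧ ∀ a, K1 ≤ a → ∀ V ∈ S, ∀ θ : ℝ, 0 < θ →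
      θ ≤ 1 / (2 * (a : ℝ)) →
      eLpNorm (dif a θ V) (q : ℝ≥0∞) (μ.prod μ) ≤ ENNReal.ofReal (D a * θ ^ j) := by
  obtain ⟨K0, hK⟩ := h j
  have h2 : ∀ a : ℕ, ∃ D : ℝ, 0 ≤ D ∧ (K0 ≤ a → ∀ V ∈ S, ∀ θ : ℝ, 0 < θ →
      θ ≤ 1 / (2 * (a : ℝ)) →
      eLpNorm (dif a θ V) (q : ℝ≥0∞) (μ.prod μ) ≤ ENNReal.ofReal (D * θ ^ j)) := by
    intro a
    by_cases ha : K0 ≤ a
    · obtain ⟨D, hD, h3⟩ := hK a ha
      exact ⟨D, hD, fun _ => h3⟩
    · exact ⟨0, le_refl 0, fun h3 => absurd h3 ha⟩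
  choose D hD hDD using h2
  exact ⟨max K0 1, le_max_right _ _, D, hD, fun a ha => hDD a (le_trans (le_max_left _ _) ha)⟩

end PROD

theorem prod_thm (F : Type v) [NormedAddCommGroup F] [InnerProductSpace ℝ F] [CompleteSpace F]
    (hMP : S_MP μ) (h1 : S_LEIB E F Ω) (h2 : S_DIFL E μ) : S_PROD E F μ := by
  intro B hB S p hp hUB hUS
  obtain ⟨D0, hD0, hS⟩ := hUB
  have hp1 : 1 ≤ p := by omega
  have hq : (1 : ℝ≥0∞) ≤ ((2 * p : ℕ) : ℝ≥0∞) := by
    have : 1 ≤ 2 * p := by omega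
    exact_mod_cast this
  have hpE : (1 : ℝ≥0∞) ≤ (p : ℝ≥0∞) := by exact_mod_cast hp1
  constructor
  · refine ⟨D0 * D0, by positivity, ?_⟩
    rintro W ⟨V, hV, rfl⟩
    obtain ⟨hm, hn⟩ := hS V hV
    obtain ⟨ha, hb⟩ := PROD.holder μ B hB p hp1 V V hm hm
    refine ⟨ha, hb.trans ?_⟩
    rw [ENNReal.ofReal_mul hD0]
    gcongr
  · intro j
    obtain ⟨K1, hK1, D, hD, hDD⟩ := PROD.unif_const μ (2 * p) S hUS j
    refine ⟨2 * K1, ?_⟩
    intro K hK
    have hKpos : 0 < K := by omega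
    set M : ℕ → ℝ := fun a => (D a + D (K - a)) * (2 ^ K * D0) with hM
    have hM0 : ∀ a, 0 ≤ M a := by
      intro a
      have := hD a
      have := hD (K - a)
      simp only [hM]
      positivity
    refine ⟨∑ a ∈ Finset.range (K + 1), (K.choose a : ℝ) * M a,
      Finset.sum_nonneg (fun a _ => mul_nonneg (by positivity) (hM0 a)), ?_⟩
    rintro W ⟨V, hV, rfl⟩ θ hθ hθK
    obtain ⟨hm, hn⟩ := hS V hV
    -- the rotations
    have hrot : ∀ a : ℕ, MeasurePreserving (fun z : Ω × Ω =>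
        (Real.cos (a * θ) • z.1 + Real.sin (a * θ) • z.2,
          -Real.sin (a * θ) • z.1 + Real.cos (a * θ) • z.2)) (μ.prod μ) (μ.prod μ) :=
      fun a => hMP.2 (a * θ)
    -- the factors
    set f : ℕ → Ω × Ω → E := fun a => dif a θ V with hf
    set g : ℕ → Ω × Ω → E := fun a z => dif (K - a) θ V
          (Real.cos (a * θ) • z.1 + Real.sin (a * θ) • z.2,
            -Real.sin (a * θ) • z.1 + Real.cos (a * θ) • z.2) with hg
    have hfm : ∀ a, MemLp (f a) ((2 * p : ℕ) : ℝ≥0∞) (μ.prod μ) :=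
      fun a => (h2 _ hq V hm a θ).1
    have hgm : ∀ a, MemLp (g a) ((2 * p : ℕ) : ℝ≥0∞) (μ.prod μ) :=
      fun a => (h2 _ hq V hm (K - a) θ).1.comp_measurePreserving (hrot a)
    have hgn : ∀ a, eLpNorm (g a) ((2 * p : ℕ) : ℝ≥0∞) (μ.prod μ) =
        eLpNorm (dif (K - a) θ V) ((2 * p : ℕ) : ℝ≥0∞) (μ.prod μ) := by
      intro a
      exact eLpNorm_comp_measurePreserving (h2 _ hq V hm (K - a) θ).1.1 (hrot a)
    have htriv : ∀ b, b ≤ K → eLpNorm (dif b θ V) ((2 * p : ℕ) : ℝ≥0∞) (μ.prod μ) ≤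
        ENNReal.ofReal (2 ^ K * D0) := by
      intro b hb
      refine (h2 _ hq V hm b θ).2.trans ?_
      rw [ENNReal.ofReal_mul (by positivity)]
      gcongr
      norm_num
    have hgood : ∀ b, K1 ≤ b → b ≤ K →
        eLpNorm (dif b θ V) ((2 * p : ℕ) : ℝ≥0∞) (μ.prod μ) ≤
        ENNReal.ofReal (D b * θ ^ j) := by
      intro b hb hbK
      refine hDD b hb V hV θ hθ (hθK.trans ?_)
      have hb0 : (0 : ℝ) < b := by
        have : 0 < b := by omega
        exact_mod_cast this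
      have hbK' : (b : ℝ) ≤ K := by exact_mod_cast hbK
      apply one_div_le_one_div_of_le (by positivity)
      linarith
    have hθj : 0 ≤ θ ^ j := by positivity
    have hprod : ∀ a ∈ Finset.range (K + 1),
        eLpNorm (fun z => B (f a z) (g a z)) (p : ℝ≥0∞) (μ.prod μ) ≤
          ENNReal.ofReal (M a * θ ^ j) := by
      intro a ha
      rw [Finset.mem_range] at ha
      refine (PROD.holder (μ.prod μ) B hB p hp1 (f a) (g a) (hfm a) (hgm a)).2.trans ?_
      rw [hgn a]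
      have hDa := hD a
      have hDb := hD (K - a)
      have hc : 0 ≤ 2 ^ K * D0 := by positivity
      by_cases hcase : K1 ≤ a
      · calc eLpNorm (f a) ((2 * p : ℕ) : ℝ≥0∞) (μ.prod μ) *
            eLpNorm (dif (K - a) θ V) ((2 * p : ℕ) : ℝ≥0∞) (μ.prod μ)
            ≤ ENNReal.ofReal (D a * θ ^ j) * ENNReal.ofReal (2 ^ K * D0) := by
              exact mul_le_mul' (hgood a hcase (by omega)) (htriv (K - a) (by omega))
          _ = ENNReal.ofReal (D a * θ ^ j * (2 ^ K * D0)) :=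
              (ENNReal.ofReal_mul (by positivity)).symm
          _ ≤ _ := by
              apply ENNReal.ofReal_le_ofReal
              simp only [hM]
              have : 0 ≤ D (K - a) * (2 ^ K * D0) * θ ^ j := by positivity
              nlinarith
      · calc eLpNorm (f a) ((2 * p : ℕ) : ℝ≥0∞) (μ.prod μ) *
            eLpNorm (dif (K - a) θ V) ((2 * p : ℕ) : ℝ≥0∞) (μ.prod μ)
            ≤ ENNReal.ofReal (2 ^ K * D0) * ENNReal.ofReal (D (K - a) * θ ^ j) := by
              exact mul_le_mul' (htriv a (by omega)) (hgood (K - a) (by omega) (by omega))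
          _ = ENNReal.ofReal (2 ^ K * D0 * (D (K - a) * θ ^ j)) :=
              (ENNReal.ofReal_mul (by positivity)).symm
          _ ≤ _ := by
              apply ENNReal.ofReal_le_ofReal
              simp only [hM]
              have : 0 ≤ D a * (2 ^ K * D0) * θ ^ j := by positivity
              nlinarith
    have heq : dif K θ (fun ω => B (V ω) (V ω)) =
        ∑ a ∈ Finset.range (K + 1), fun z => (K.choose a : ℝ) • B (f a z) (g a z) := by
      funext z
      rw [h1 B V K θ z, Finset.sum_apply]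
    rw [heq]
    calc eLpNorm (∑ a ∈ Finset.range (K + 1), fun z => (K.choose a : ℝ) • B (f a z) (g a z))
          (p : ℝ≥0∞) (μ.prod μ)
        ≤ ∑ a ∈ Finset.range (K + 1),
          eLpNorm (fun z => (K.choose a : ℝ) • B (f a z) (g a z)) (p : ℝ≥0∞) (μ.prod μ) := by
          apply eLpNorm_sum_le _ hpE
          intro a _
          exact (PROD.holder (μ.prod μ) B hB p hp1 (f a) (g a) (hfm a) (hgm a)).1.1.const_smul _
      _ ≤ ∑ a ∈ Finset.range (K + 1), ENNReal.ofReal ((K.choose a : ℝ) * M a * θ ^ j) := by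
          apply Finset.sum_le_sum
          intro a ha
          have e1 : eLpNorm (fun z => (K.choose a : ℝ) • B (f a z) (g a z)) (p : ℝ≥0∞)
              (μ.prod μ) = ENNReal.ofReal (K.choose a : ℝ) *
              eLpNorm (fun z => B (f a z) (g a z)) (p : ℝ≥0∞) (μ.prod μ) := by
            have e2 := eLpNorm_const_smul (K.choose a : ℝ) (fun z => B (f a z) (g a z))
              (p : ℝ≥0∞) (μ.prod μ)
            have e3 : ‖(K.choose a : ℝ)‖ₑ = ENNReal.ofReal (K.choose a : ℝ) := by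
              rw [Real.enorm_eq_ofReal (by positivity)]
            rw [e3] at e2
            exact e2
          rw [e1, mul_assoc, ENNReal.ofReal_mul (by positivity)]
          gcongr
          exact hprod a ha
      _ = ENNReal.ofReal ((∑ a ∈ Finset.range (K + 1), (K.choose a : ℝ) * M a) * θ ^ j) := by
          rw [← ENNReal.ofReal_sum_of_nonneg, Finset.sum_mul]
          intro a _
          have := hM0 a
          positivity

end Pool.Agent.R876.WM
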