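import Pool.Agent.R876.WM.Stm

/-! SLC (helper608 for helper876): the potentials commute with continuous linear maps. -/

open MeasureTheory ProbabilityTheory Set
open scoped ENNReal NNReal Topology

namespace Pool.Agent.R876.WM

universe u v

namespace SLCAux

variable {Ω : Type u} [NormedAddCommGroup Ω] [NormedSpace ℝ Ω]
  [SecondCountableTopology Ω] [MeasurableSpace Ω] [BorelSpace Ω]
  (μ : Measure Ω) [IsProbabilityMeasure μ]
variable (E : Type v) [NormedAddCommGroup E] [NormedSpace ℝ E] [CompleteSpace E]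
variable (F : Type v) [NormedAddCommGroup F] [NormedSpace ℝ F] [CompleteSpace F]

omit [SecondCountableTopology Ω] [BorelSpace Ω] [IsProbabilityMeasure μ] in
theorem mp_t (hMP : S_MP μ) {t : ℝ} (ht : 0 ≤ t) :
    MeasurePreserving (fun z : Ω × Ω => Real.exp (-t) • z.1 +
      Real.sqrt (1 - Real.exp (-2 * t)) • z.2) (μ.prod μ) μ := by
  have h := hMP.1 (Real.arccos (Real.exp (-t)))
  have h0 := Real.exp_pos (-t)
  have h1 : Real.exp (-t) ≤ 1 := Real.exp_le_one_iff.2 (by linarith)
  rw [Real.cos_arccos (by linarith) h1, Real.sin_arccos] at h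
  have h2 : Real.exp (-t) ^ 2 = Real.exp (-2 * t) := by
    rw [← Real.exp_nat_mul]
    congr 1
    push_cast
    ring
  rw [h2] at h
  exact h

/-- the joint map -/
noncomputable def Phi (q : ℝ × (Ω × Ω)) : Ω :=
  Real.exp (-q.1) • q.2.1 + Real.sqrt (1 - Real.exp (-2 * q.1)) • q.2.2

theorem Phi_meas : Measurable (Phi (Ω := Ω)) := by
  apply Continuous.measurable
  unfold Phi
  fun_prop

theorem Phi_qmp (hMP : S_MP μ) : Measure.QuasiMeasurePreserving (Phi (Ω := Ω))
    ((volume.restrict (Ioi (0 : ℝ))).prod (μ.prod μ)) μ := by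
  apply MeasureTheory.QuasiMeasurePreserving.prod_of_right Phi_meas
  filter_upwards [ae_restrict_mem measurableSet_Ioi] with t ht
  exact (mp_t μ hMP (le_of_lt ht)).quasiMeasurePreserving

theorem int1 (hMP : S_MP μ) (w : ℝ → ℝ) (hw : IntegrableOn w (Ioi 0)) {U : Ω → E}
    (hU : Integrable U μ) :
    Integrable (fun q : ℝ × (Ω × Ω) => w q.1 • U (Phi q))
      ((volume.restrict (Ioi (0 : ℝ))).prod (μ.prod μ)) := by
  have hm : AEStronglyMeasurable (fun q : ℝ × (Ω × Ω) => w q.1 • U (Phi q))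
      ((volume.restrict (Ioi (0 : ℝ))).prod (μ.prod μ)) :=
    (hw.aestronglyMeasurable.comp_fst).smul
      (hU.aestronglyMeasurable.comp_quasiMeasurePreserving (Phi_qmp μ hMP))
  rw [integrable_prod_iff hm]
  constructor
  · filter_upwards [ae_restrict_mem measurableSet_Ioi] with t ht
    exact (((mp_t μ hMP (le_of_lt ht)).integrable_comp hU.aestronglyMeasurable).2 hU).smul (w t)
  · have : ∀ᵐ t ∂(volume.restrict (Ioi (0 : ℝ))),
        ∫ z : Ω × Ω, ‖w (t, z).1 • U (Phi (t, z))‖ ∂(μ.prod μ) = |w t| * ∫ x, ‖U x‖ ∂μ := by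
      filter_upwards [ae_restrict_mem measurableSet_Ioi] with t ht
      have h1 := mp_t μ hMP (le_of_lt ht)
      have h2 : ∫ x, ‖U x‖ ∂μ = ∫ z : Ω × Ω, ‖U (Phi (t, z))‖ ∂(μ.prod μ) := by
        conv_lhs => rw [← h1.map_eq]
        rw [integral_map h1.measurable.aemeasurable]
        · rfl
        · rw [h1.map_eq]
          exact hU.aestronglyMeasurable.norm
      rw [h2, ← integral_const_mul]
      apply integral_congr_ae
      filter_upwards with z
      rw [norm_smul, Real.norm_eq_abs]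
    refine Integrable.congr ?_ (this.mono fun t ht => ht.symm)
    exact hw.norm.mul_const _

theorem main (hMP : S_MP μ) (w : ℝ → ℝ) (hw : IntegrableOn w (Ioi 0)) {U : Ω → E}
    (hU : Integrable U μ) (l : E →L[ℝ] F) :
    (fun x => l (∫ t in Ioi (0 : ℝ), w t • ou μ t U x)) =ᵐ[μ]
      fun x => ∫ t in Ioi (0 : ℝ), w t • ou μ t (fun ω => l (U ω)) x := by
  have h1 := int1 μ E hMP w hw hU
  -- reorder: `((t, x), y)`
  have h2 : Integrable (fun q : (ℝ × Ω) × Ω => w q.1.1 • U (Phi (q.1.1, (q.1.2, q.2))))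
      (((volume.restrict (Ioi (0 : ℝ))).prod μ).prod μ) := by
    have hmp : MeasurePreserving (MeasurableEquiv.prodAssoc : (ℝ × Ω) × Ω ≃ᵐ ℝ × (Ω × Ω))
        (((volume.restrict (Ioi (0 : ℝ))).prod μ).prod μ)
        ((volume.restrict (Ioi (0 : ℝ))).prod (μ.prod μ)) :=
      ⟨MeasurableEquiv.prodAssoc.measurable, Measure.prodAssoc_prod⟩
    exact (hmp.integrable_comp h1.aestronglyMeasurable).2 h1
  have h3 := h2.prod_right_ae
  have h4 := h2.integral_prod_left
  -- swap
  have h5 : ∀ᵐ x ∂μ, ∀ᵐ t ∂(volume.restrict (Ioi (0 : ℝ))),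
      Integrable (fun y => w t • U (Phi (t, (x, y)))) μ := by
    have := (Measure.measurePreserving_swap (μ := μ)
      (ν := volume.restrict (Ioi (0 : ℝ)))).quasiMeasurePreserving.ae h3
    exact Measure.ae_ae_of_ae_prod this
  have h6 := h4.swap.prod_right_ae
  filter_upwards [h5, h6] with x hx5 hx6
  have e1 : ∀ (t : ℝ) (V : Ω → E), w t • ou μ t V x = ∫ y, w t • V (Phi (t, (x, y))) ∂μ := by
    intro t V
    rw [integral_smul]
    rfl
  have hx6' : Integrable (fun t => w t • ou μ t U x) (volume.restrict (Ioi (0 : ℝ))) := by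
    refine hx6.congr (Filter.Eventually.of_forall fun t => ?_)
    exact (e1 t U).symm
  rw [← l.integral_comp_comm hx6']
  apply integral_congr_ae
  filter_upwards [hx5] with t ht
  rw [e1, ← l.integral_comp_comm ht]
  have e2 : w t • ou μ t (fun ω => l (U ω)) x = ∫ y, w t • l (U (Phi (t, (x, y)))) ∂μ := by
    rw [integral_smul]
    rfl
  rw [e2]
  simp only [map_smul]

end SLCAux

open SLCAux

variable {Ω : Type u} [NormedAddCommGroup Ω] [NormedSpace ℝ Ω] [CompleteSpace Ω]
  [SecondCountableTopology Ω] [MeasurableSpace Ω] [BorelSpace Ω]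
  (μ : Measure Ω) [IsGaussian μ]
variable (E : Type v) [NormedAddCommGroup E] [InnerProductSpace ℝ E] [CompleteSpace E]

theorem slc_thm (F : Type v) [NormedAddCommGroup F] [InnerProductSpace ℝ F] [CompleteSpace F]
    (hMP : S_MP μ) (_h : S_OPL E μ) : S_SLC E F μ := by
  intro p hp _ l r U hU
  have hU1 : Integrable U μ := hU.integrable hp
  unfold pot
  by_cases hr : r = 0
  · rw [if_pos hr, if_pos hr]
  · rw [if_neg hr, if_neg hr]
    have ha : (0 : ℝ) < (r : ℝ) / 2 := by
      have : 0 < r := Nat.pos_of_ne_zero hr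
      positivity
    have hw : IntegrableOn (fun t : ℝ => t ^ ((r : ℝ) / 2 - 1) * Real.exp (-t) /
        Real.Gamma ((r : ℝ) / 2)) (Ioi 0) := by
      have := (Real.GammaIntegral_convergent ha).div_const (Real.Gamma ((r : ℝ) / 2))
      refine this.congr (Filter.Eventually.of_forall fun t => ?_)
      simp only
      rw [mul_comm (Real.exp (-t))]
    exact main μ E F hMP _ hw hU1 l

end Pool.Agent.R876.WM
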