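import Pool.Agent.R876.WM.Stm

/-! Project WM, piece SMD (helper207). -/

set_option autoImplicit false

open MeasureTheory ProbabilityTheory Set
open scoped ENNReal NNReal Topology

namespace Pool.Agent.R876.WM.SMD207

open Pool.Agent.R876.WM

universe u v

theorem cos_pos' {α : ℝ} (h0 : 0 ≤ α) (h1 : α ≤ 1) : 0 < Real.cos α :=
  Real.cos_pos_of_mem_Ioo ⟨by linarith [Real.pi_gt_three], by linarith [Real.pi_gt_three]⟩

theorem tau_nonneg {α : ℝ} (h0 : 0 ≤ α) (h1 : α ≤ 1) : 0 ≤ tau α := by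
  unfold tau
  have := Real.log_nonpos (cos_pos' h0 h1).le (Real.cos_le_one α)
  linarith

theorem tau_zero : tau 0 = 0 := by
  unfold tau
  rw [Real.cos_zero, Real.log_one, neg_zero]

theorem tau_cont : ContinuousOn tau (Icc 0 1) :=
  (Real.continuous_cos.continuousOn.log fun _ hx => (cos_pos' hx.1 hx.2).ne').neg

section Ab

variable {X : Type*} [NormedAddCommGroup X] [NormedSpace ℝ X]

theorem cont_path {T : ℝ → X →L[ℝ] X} (hT : Semi T) (g : X) (i : ℕ) (ε : ℝ) (hε : 0 < ε)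
    (hi : 2 * i * ε ≤ 1) : ContinuousOn (fun θ : ℝ => T (tau (i * θ)) g) (Icc ε (2 * ε)) := by
  have h1 : ContinuousOn (fun θ : ℝ => tau (i * θ)) (Icc ε (2 * ε)) := by
    refine tau_cont.comp (continuous_const.mul continuous_id).continuousOn fun θ hθ => ?_
    exact ⟨mul_nonneg (Nat.cast_nonneg _) (by linarith [hθ.1]), by
      have : (i : ℝ) * θ ≤ i * (2 * ε) := mul_le_mul_of_nonneg_left hθ.2 (Nat.cast_nonneg _)
      show (i : ℝ) * θ ≤ 1
      linarith⟩
  refine (hT.cont g).comp h1 fun θ hθ => ?_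
  refine tau_nonneg (mul_nonneg (Nat.cast_nonneg _) (by linarith [hθ.1])) ?_
  have : (i : ℝ) * θ ≤ i * (2 * ε) := mul_le_mul_of_nonneg_left hθ.2 (Nat.cast_nonneg _)
  linarith

theorem int_path {T : ℝ → X →L[ℝ] X} (hT : Semi T) (g : X) (i : ℕ) (ε : ℝ) (hε : 0 < ε)
    (hi : 2 * i * ε ≤ 1) : IntervalIntegrable (fun θ : ℝ => T (tau (i * θ)) g) volume ε (2 * ε) := by
  refine ContinuousOn.intervalIntegrable ?_
  rw [uIcc_of_le (by linarith)]
  exact cont_path hT g i ε hε hi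

theorem norm_path {T : ℝ → X →L[ℝ] X} (hT : Semi T) (g : X) (i : ℕ) (ε : ℝ) (hε : 0 < ε)
    (hi : 2 * i * ε ≤ 1) : ‖(1 / ε) • ∫ θ in ε..(2 * ε), T (tau (i * θ)) g‖ ≤ ‖g‖ := by
  have h1 : ‖∫ θ in ε..(2 * ε), T (tau (i * θ)) g‖ ≤ ‖g‖ * |2 * ε - ε| := by
    refine intervalIntegral.norm_integral_le_of_norm_le_const fun θ hθ => ?_
    rw [uIoc_of_le (by linarith)] at hθ
    have h2 : 0 ≤ tau (i * θ) := by
      refine tau_nonneg (mul_nonneg (Nat.cast_nonneg _) (by linarith [hθ.1])) ?_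
      have : (i : ℝ) * θ ≤ i * (2 * ε) := mul_le_mul_of_nonneg_left hθ.2 (Nat.cast_nonneg _)
      linarith
    exact ((T _).le_of_opNorm_le (hT.norm_le _ h2) g).trans (by rw [one_mul])
  have hε1 : (0 : ℝ) < 1 / ε := by positivity
  rw [show 2 * ε - ε = ε by ring, abs_of_pos hε] at h1
  rw [norm_smul, Real.norm_eq_abs, abs_of_pos hε1]
  calc 1 / ε * ‖∫ θ in ε..(2 * ε), T (tau (i * θ)) g‖ ≤ 1 / ε * (‖g‖ * ε) :=
        mul_le_mul_of_nonneg_left h1 (by positivity)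
    _ = ‖g‖ := by field_simp

/-- the coefficients -/
def cf (K i : ℕ) : ℝ := (-1) ^ i * (K.choose (i + 1) : ℝ)

theorem sum_cf (K : ℕ) : ∑ i ∈ Finset.range K, |cf K i| ≤ 2 ^ K := by
  have h1 : ∀ i, |cf K i| = (K.choose (i + 1) : ℝ) := by
    intro i
    unfold cf
    rw [abs_mul, abs_pow, abs_neg, abs_one, one_pow, one_mul, Nat.abs_cast]
  have h2 := Nat.sum_range_choose K
  rw [Finset.sum_range_succ'] at h2
  have h3 : (∑ i ∈ Finset.range K, (K.choose (i + 1) : ℝ)) ≤ 2 ^ K := by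
    have h4 : ∑ i ∈ Finset.range K, K.choose (i + 1) ≤ 2 ^ K := by omega
    exact_mod_cast h4
  rw [Finset.sum_congr rfl fun i _ => h1 i]
  exact h3

theorem alt (K : ℕ) (y : ℕ → X) :
    y 0 - ∑ i ∈ Finset.range K, cf K i • y (i + 1) =
      ((-1 : ℝ) ^ K) • ∑ i ∈ Finset.range (K + 1), ((-1 : ℝ) ^ (K - i) * (K.choose i : ℝ)) • y i := by
  rw [Finset.sum_range_succ', smul_add, Finset.smul_sum, Nat.sub_zero, Nat.choose_zero_right,
    Nat.cast_one, mul_one, smul_smul, ← pow_add, ← two_mul, pow_mul, neg_one_sq, one_pow, one_smul,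
    sub_eq_add_neg, add_comm, ← Finset.sum_neg_distrib]
  congr 1
  refine Finset.sum_congr rfl fun i hi => ?_
  rw [Finset.mem_range] at hi
  rw [smul_smul, ← neg_smul]
  congr 1
  obtain ⟨r, hr⟩ : ∃ r, K = i + 1 + r := ⟨K - (i + 1), by omega⟩
  have h1 : K - (i + 1) = r := by omega
  rw [h1]
  unfold cf
  have h2 : (-1 : ℝ) ^ K * (-1) ^ r = -(-1) ^ i := by
    rw [hr, pow_add, mul_assoc, ← pow_add, ← two_mul, pow_mul, neg_one_sq, one_pow, mul_one,
      pow_succ]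
    ring
  rw [← mul_assoc, h2, neg_mul]

end Ab

section Main

variable {Ω : Type u} [NormedAddCommGroup Ω] [NormedSpace ℝ Ω] [MeasurableSpace Ω]
variable (μ : Measure Ω)
variable (E : Type v) [NormedAddCommGroup E] [NormedSpace ℝ E] [CompleteSpace E]

theorem dif_congr {μ : Measure Ω} {E : Type v} [NormedAddCommGroup E] [NormedSpace ℝ E]
    (hMP : S_MP μ) {f g : Ω → E} (h : f =ᵐ[μ] g) (K : ℕ) (θ : ℝ) :
    dif K θ f =ᵐ[μ.prod μ] dif K θ g := by
  have h1 : ∀ i : ℕ, ∀ᵐ z ∂(μ.prod μ), f (Real.cos (i * θ) • z.1 + Real.sin (i * θ) • z.2) =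
      g (Real.cos (i * θ) • z.1 + Real.sin (i * θ) • z.2) := fun i =>
    (hMP.1 (i * θ)).quasiMeasurePreserving.ae_eq_comp h
  filter_upwards [ae_all_iff.2 h1] with z hz
  unfold dif
  exact Finset.sum_congr rfl fun i _ => by rw [hz i]

theorem smd_aux (hMP : S_MP μ) (h1 : S_OUL E μ) (h2 : S_CE E μ) (h3 : S_AVG.{max u v})
    (h4 : S_ABS.{max u v}) : S_SMD E μ := by
  intro p hp hp' m K j hK hmj
  have : Fact (1 ≤ p) := ⟨hp⟩
  obtain ⟨T, J, hO⟩ := h1 p hp'
  obtain ⟨hJT, hA⟩ := h3 (Lp E p μ) T J hO.semi hO.isJ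
  obtain ⟨C', hC'0, hC'⟩ := h4 (2 ^ K * 160 * (K : ℝ) ^ 2) (2 ^ K) m j (by positivity)
    (by positivity) hmj
  refine ⟨C', hC'0, fun f D hD hf hdif => ?_⟩
  have hK0 : (0 : ℝ) < K := by exact_mod_cast hK
  have hK1 : (1 : ℝ) ≤ K := by exact_mod_cast hK
  obtain ⟨G, hG⟩ : ∃ G : Lp E p μ, G = hf.toLp f := ⟨_, rfl⟩
  have hGf : f =ᵐ[μ] (G : Ω → E) := by rw [hG]; exact hf.coeFn_toLp.symm
  obtain ⟨ε, hε⟩ : ∃ ε : ℕ → ℝ, ε = fun l : ℕ => 1 / (4 * (K : ℝ) * 2 ^ l) := ⟨_, rfl⟩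
  have hε0 : ∀ l, 0 < ε l := fun l => by rw [hε]; positivity
  have h2l : ∀ l : ℕ, (1 : ℝ) ≤ 2 ^ l := fun l => one_le_pow₀ (by norm_num)
  have hεi : ∀ l i : ℕ, i ≤ K → 2 * (i : ℝ) * ε l ≤ 1 := by
    intro l i hi
    have hi' : (i : ℝ) ≤ K := by exact_mod_cast hi
    rw [hε]
    show 2 * (i : ℝ) * (1 / (4 * K * 2 ^ l)) ≤ 1
    rw [mul_one_div, div_le_one (by positivity)]
    nlinarith [h2l l, mul_le_mul hi' (h2l l) zero_le_one hK0.le]
  have hε2 : ∀ l, 2 * ε l ≤ 1 / (2 * (K : ℝ)) := by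
    intro l
    rw [hε]
    show 2 * (1 / (4 * K * 2 ^ l)) ≤ 1 / (2 * (K : ℝ))
    rw [mul_one_div, div_le_div_iff₀ (by positivity) (by positivity)]
    nlinarith [h2l l]
  have hε3 : ∀ l, 2 * ε l ≤ 1 / 2 ^ l := by
    intro l
    rw [hε]
    show (2 : ℝ) * (1 / (4 * (K : ℝ) * 2 ^ l)) ≤ 1 / 2 ^ l
    rw [mul_one_div, div_le_div_iff₀ (by positivity) (by positivity)]
    nlinarith [h2l l]
  -- the operators
  have hex : ∀ (i l : ℕ), ∃ a : Lp E p μ →L[ℝ] Lp E p μ, i < K →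
      (‖a‖ ≤ 10 / ε l ^ 2 ∧
        (∀ g, J (a g) = (1 / ε l) • ∫ θ in (ε l)..(2 * ε l), T (tau (((i + 1 : ℕ) : ℝ) * θ)) g) ∧
        (∀ B : Lp E p μ →L[ℝ] Lp E p μ, (∀ t, 0 ≤ t → B.comp (T t) = (T t).comp B) →
          a.comp B = B.comp a)) := by
    intro i l
    by_cases hi : i < K
    · obtain ⟨a, ha⟩ := hA (i + 1) (ε l) (by omega) (hε0 l) (hεi l (i + 1) (by omega))
      exact ⟨a, fun _ => ha⟩
    · exact ⟨0, fun h => absurd h hi⟩
  choose aa haa using hex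
  obtain ⟨a, ha⟩ : ∃ a : ℕ → Lp E p μ →L[ℝ] Lp E p μ,
      a = fun l => ∑ i ∈ Finset.range K, cf K i • aa i l := ⟨_, rfl⟩
  have haapp : ∀ l g, a l g = ∑ i ∈ Finset.range K, cf K i • aa i l g := by
    intro l g
    rw [ha]
    simp only [FunLike.coe_sum, FunLike.coe_smul, Finset.sum_apply, Pi.smul_apply]
  have hJa : ∀ l g, J (a l g) = ∑ i ∈ Finset.range K, cf K i •
      ((1 / ε l) • ∫ θ in (ε l)..(2 * ε l), T (tau (((i + 1 : ℕ) : ℝ) * θ)) g) := by
    intro l g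
    rw [haapp, map_sum]
    refine Finset.sum_congr rfl fun i hi => ?_
    rw [map_smul, (haa i l (Finset.mem_range.1 hi)).2.1]
  have hTT : ∀ s, 0 ≤ s → ∀ t, 0 ≤ t → (T s).comp (T t) = (T t).comp (T s) := by
    intro s hs t ht
    rw [← hO.semi.add s t hs ht, ← hO.semi.add t s ht hs, add_comm]
  have haT : ∀ i l, i < K → ∀ t, 0 ≤ t → (aa i l).comp (T t) = (T t).comp (aa i l) :=
    fun i l hi t ht => (haa i l hi).2.2 (T t) fun s hs => hTT t ht s hs
  have haJ : ∀ l, J.comp (a l) = (a l).comp J := by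
    intro l
    ext1 g
    rw [ContinuousLinearMap.comp_apply, ContinuousLinearMap.comp_apply, haapp, haapp, map_sum]
    refine Finset.sum_congr rfl fun i hi => ?_
    have h5 := (haa i l (Finset.mem_range.1 hi)).2.2 J hJT
    have h6 := congrArg (fun S : Lp E p μ →L[ℝ] Lp E p μ => S g) h5
    simp only [ContinuousLinearMap.comp_apply] at h6
    rw [map_smul, h6]
  have haa2 : ∀ l k, (a l).comp (a k) = (a k).comp (a l) := by
    intro l k
    have h5 : ∀ i i', i < K → i' < K → ∀ g, aa i l (aa i' k g) = aa i' k (aa i l g) := by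
      intro i i' hi hi' g
      have h6 := (haa i l hi).2.2 (aa i' k) (haT i' k hi')
      have h7 := congrArg (fun S : Lp E p μ →L[ℝ] Lp E p μ => S g) h6
      simpa only [ContinuousLinearMap.comp_apply] using h7
    ext1 g
    rw [ContinuousLinearMap.comp_apply, ContinuousLinearMap.comp_apply, haapp, haapp k g,
      haapp k, haapp l g]
    simp only [map_sum, map_smul, Finset.smul_sum]
    rw [Finset.sum_comm]
    refine Finset.sum_congr rfl fun i' hi' => Finset.sum_congr rfl fun i hi => ?_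
    rw [h5 i i' (Finset.mem_range.1 hi) (Finset.mem_range.1 hi') g, smul_comm]
  have hna : ∀ l, ‖a l‖ ≤ 2 ^ K * 160 * (K : ℝ) ^ 2 * 4 ^ l := by
    intro l
    rw [ha]
    refine (norm_sum_le _ _).trans ?_
    have h5 : ∀ i ∈ Finset.range K, ‖cf K i • aa i l‖ ≤ |cf K i| * (10 / ε l ^ 2) := by
      intro i hi
      rw [norm_smul, Real.norm_eq_abs]
      exact mul_le_mul_of_nonneg_left (haa i l (Finset.mem_range.1 hi)).1 (abs_nonneg _)
    refine (Finset.sum_le_sum h5).trans ?_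
    rw [← Finset.sum_mul]
    have h6 : 10 / ε l ^ 2 = 160 * (K : ℝ) ^ 2 * 4 ^ l := by
      rw [hε]
      show 10 / (1 / (4 * (K : ℝ) * 2 ^ l)) ^ 2 = 160 * (K : ℝ) ^ 2 * 4 ^ l
      have h7 : (4 : ℝ) ^ l = (2 ^ l) ^ 2 := by rw [← pow_mul, mul_comm, pow_mul]; norm_num
      rw [h7]
      field_simp
      ring
    rw [h6]
    have h7 := mul_le_mul_of_nonneg_right (sum_cf K)
      (show 0 ≤ 160 * (K : ℝ) ^ 2 * 4 ^ l by positivity)
    refine h7.trans (le_of_eq ?_)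
    ring
  have hnJ : ∀ l, ‖J.comp (a l)‖ ≤ 2 ^ K := by
    intro l
    refine ContinuousLinearMap.opNorm_le_bound _ (by positivity) fun g => ?_
    rw [ContinuousLinearMap.comp_apply, hJa]
    refine (norm_sum_le _ _).trans ?_
    have h5 : ∀ i ∈ Finset.range K, ‖cf K i • ((1 / ε l) • ∫ θ in (ε l)..(2 * ε l),
        T (tau (((i + 1 : ℕ) : ℝ) * θ)) g)‖ ≤ |cf K i| * ‖g‖ := by
      intro i hi
      rw [norm_smul, Real.norm_eq_abs]
      refine mul_le_mul_of_nonneg_left ?_ (abs_nonneg _)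
      exact norm_path hO.semi g (i + 1) (ε l) (hε0 l)
        (hεi l (i + 1) (by have := Finset.mem_range.1 hi; omega))
    refine (Finset.sum_le_sum h5).trans ?_
    rw [← Finset.sum_mul]
    exact mul_le_mul_of_nonneg_right (sum_cf K) (norm_nonneg g)
  have hGa : ∀ l, ‖G - J (a l G)‖ ≤ D * (1 / 2 ^ l) ^ j := by
    intro l
    have hint : ∀ i ∈ Finset.range K, IntervalIntegrable
        (fun θ : ℝ => cf K i • T (tau (((i + 1 : ℕ) : ℝ) * θ)) G) volume (ε l) (2 * ε l) :=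
      fun i hi => (int_path hO.semi G (i + 1) (ε l) (hε0 l)
        (hεi l (i + 1) (by have := Finset.mem_range.1 hi; omega))).smul (cf K i)
    have hsum : IntervalIntegrable (fun θ : ℝ => ∑ i ∈ Finset.range K,
        cf K i • T (tau (((i + 1 : ℕ) : ℝ) * θ)) G) volume (ε l) (2 * ε l) := by
      have h := IntervalIntegrable.sum (Finset.range K) hint
      rwa [Finset.sum_fn] at h
    have h5 : G - J (a l G) = (1 / ε l) • ∫ θ in (ε l)..(2 * ε l),
        (G - ∑ i ∈ Finset.range K, cf K i • T (tau (((i + 1 : ℕ) : ℝ) * θ)) G) := by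
      rw [intervalIntegral.integral_sub intervalIntegrable_const hsum,
        intervalIntegral.integral_const, smul_sub, smul_smul,
        intervalIntegral.integral_finsetSum hint, Finset.smul_sum, hJa]
      have h6 : 1 / ε l * (2 * ε l - ε l) = 1 := by
        have := hε0 l
        field_simp
        ring
      rw [h6, one_smul]
      congr 1
      refine Finset.sum_congr rfl fun i _ => ?_
      rw [intervalIntegral.integral_smul, smul_comm]
    rw [h5]
    have h6 : ‖∫ θ in (ε l)..(2 * ε l),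
        (G - ∑ i ∈ Finset.range K, cf K i • T (tau (((i + 1 : ℕ) : ℝ) * θ)) G)‖ ≤
        D * (2 * ε l) ^ j * |2 * ε l - ε l| := by
      refine intervalIntegral.norm_integral_le_of_norm_le_const fun θ hθ => ?_
      rw [uIoc_of_le (by linarith [hε0 l])] at hθ
      have hθ0 : 0 < θ := (hε0 l).trans hθ.1
      have hθ1 : θ ≤ 1 / (2 * (K : ℝ)) := hθ.2.trans (hε2 l)
      have h7 := alt K fun i : ℕ => T (tau ((i : ℝ) * θ)) G
      have h8 : T (tau (((0 : ℕ) : ℝ) * θ)) G = G := by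
        rw [Nat.cast_zero, zero_mul, tau_zero, hO.semi.zero]
        rfl
      beta_reduce at h7
      rw [h8] at h7
      rw [h7, norm_smul, norm_pow, norm_neg, norm_one, one_pow, one_mul]
      have h9 := h2 p hp' T hO.ou_ae G K θ hK hθ0 hθ1
      have h10 : eLpNorm (dif K θ (G : Ω → E)) p (μ.prod μ) ≤ ENNReal.ofReal (D * θ ^ j) := by
        rw [← eLpNorm_congr_ae (dif_congr hMP hGf K θ)]
        exact hdif θ hθ0 hθ1
      have h11 := (ENNReal.ofReal_le_ofReal_iff (by positivity)).1 (h9.trans h10)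
      refine h11.trans ?_
      exact mul_le_mul_of_nonneg_left (pow_le_pow_left₀ hθ0.le hθ.2 j) hD
    rw [norm_smul, Real.norm_eq_abs, abs_of_pos (by have := hε0 l; positivity)]
    have h7 : |2 * ε l - ε l| = ε l := by
      rw [show 2 * ε l - ε l = ε l by ring, abs_of_pos (hε0 l)]
    rw [h7] at h6
    have h8 := mul_le_mul_of_nonneg_left h6 (show 0 ≤ 1 / ε l by have := hε0 l; positivity)
    refine h8.trans ?_
    have h9 : 1 / ε l * (D * (2 * ε l) ^ j * ε l) = D * (2 * ε l) ^ j := by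
      have := (hε0 l).ne'
      field_simp
    rw [h9]
    exact mul_le_mul_of_nonneg_left
      (pow_le_pow_left₀ (by have := hε0 l; positivity) (hε3 l) j) hD
  obtain ⟨U, hU1, hU2⟩ := hC' (Lp E p μ) J a G D hD hO.norm_le haJ haa2 hna hnJ hGa
  refine ⟨U, Lp.memLp U, ?_, ?_⟩
  · have h5 := hO.pot_ae m U
    rw [hU1] at h5
    exact hGf.trans h5
  · have h5 : ‖G‖ = (eLpNorm f p μ).toReal := by
      rw [hG, Lp.norm_toLp]
    rw [h5] at hU2
    rw [← ENNReal.ofReal_toReal (Lp.eLpNorm_ne_top U), ← Lp.norm_def]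
    exact ENNReal.ofReal_le_ofReal hU2

end Main

end Pool.Agent.R876.WM.SMD207

namespace Pool.Agent.R876.WM

universe u v

/-- SMD (uses also `hMP`) -/
theorem smd_thm {Ω : Type u} [NormedAddCommGroup Ω] [NormedSpace ℝ Ω] [MeasurableSpace Ω]
    (μ : Measure Ω) (E : Type v) [NormedAddCommGroup E] [NormedSpace ℝ E] [CompleteSpace E]
    (hMP : S_MP μ) (h1 : S_OUL E μ) (h2 : S_CE E μ) (h3 : S_AVG.{max u v})
    (h4 : S_ABS.{max u v}) : S_SMD E μ :=
  SMD207.smd_aux μ E hMP h1 h2 h3 h4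

end Pool.Agent.R876.WM
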