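import Pool.Agent.R876.WM.Stm

/-!
Project WM, piece TAY (helper731): Taylor expansion of a contraction semigroup.
-/

open MeasureTheory Set
open scoped Topology

universe u v

namespace Pool.Agent.R876.WM

namespace SB

variable {X : Type*} [NormedAddCommGroup X] [NormedSpace ℝ X] {T : ℝ → X →L[ℝ] X}
  {J : X →L[ℝ] X}

theorem norm_T_le (hT : Semi T) {t : ℝ} (ht : 0 ≤ t) (f : X) : ‖T t f‖ ≤ ‖f‖ := by
  have := (T t).le_of_opNorm_le (hT.norm_le t ht) f
  simpa using this

theorem cont_max (hT : Semi T) (f : X) : Continuous (fun t : ℝ => T (max t 0) f) := by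
  have h := hT.cont f
  exact h.comp_continuous (f := fun t : ℝ => max t 0) (by fun_prop) (fun x => by simp)

theorem cont_exp (hT : Semi T) (f : X) :
    Continuous (fun t : ℝ => Real.exp (-t) • T (max t 0) f) :=
  (Real.continuous_exp.comp continuous_neg).smul (cont_max hT f)

theorem intg (hT : Semi T) (f : X) (a : ℝ) :
    IntegrableOn (fun t : ℝ => Real.exp (-t) • T (max t 0) f) (Ioi a) := by
  refine Integrable.mono' (g := fun t => Real.exp (-t) * ‖f‖) ?_ ?_ ?_
  · exact (integrableOn_exp_neg_Ioi a).mul_const _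
  · exact (cont_exp hT f).aestronglyMeasurable
  · refine Filter.Eventually.of_forall fun t => ?_
    rw [norm_smul, Real.norm_eq_abs, abs_of_pos (Real.exp_pos _)]
    exact mul_le_mul_of_nonneg_left (norm_T_le hT (le_max_right _ _) f) (Real.exp_pos _).le

theorem J_eq (hJ : IsJ T J) (f : X) :
    J f = ∫ t in Ioi (0 : ℝ), Real.exp (-t) • T (max t 0) f := by
  rw [hJ f]
  refine setIntegral_congr_fun measurableSet_Ioi fun t ht => ?_
  have : max t 0 = t := max_eq_left (le_of_lt ht)
  simp only [this]

variable [CompleteSpace X]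

/-- `T_t J f = e^t (J f - ∫_0^t e^{-v} T_v f dv)` -/
theorem T_J (hT : Semi T) (hJ : IsJ T J) (f : X) {t : ℝ} (ht : 0 ≤ t) :
    T t (J f) = Real.exp t • (J f - ∫ v in (0 : ℝ)..t, Real.exp (-v) • T (max v 0) f) := by
  have h1 : T t (J f) = ∫ s in Ioi (0 : ℝ), T t (Real.exp (-s) • T (max s 0) f) := by
    rw [J_eq hJ f]
    exact ((T t).integral_comp_comm (intg hT f 0)).symm
  have h2 : (∫ s in Ioi (0 : ℝ), T t (Real.exp (-s) • T (max s 0) f)) =
      ∫ s in Ioi (0 : ℝ), (fun v => Real.exp t • (Real.exp (-v) • T (max v 0) f)) (t + s) := by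
    refine setIntegral_congr_fun measurableSet_Ioi fun s hs => ?_
    have hs' : (0 : ℝ) < s := hs
    have e1 : max s 0 = s := max_eq_left hs'.le
    have e2 : max (t + s) 0 = t + s := max_eq_left (by linarith)
    simp only [e1, e2, map_smul]
    rw [hT.add t s ht hs'.le, smul_smul, ← Real.exp_add]
    have : t + -(t + s) = -s := by ring
    rw [this]
    rfl
  have h3 : (∫ s in Ioi (0 : ℝ), (fun v => Real.exp t • (Real.exp (-v) • T (max v 0) f)) (t + s))
      = ∫ v in Ioi t, Real.exp t • (Real.exp (-v) • T (max v 0) f) := by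
    have := (measurePreserving_add_left (volume : Measure ℝ) t).setIntegral_preimage_emb
      (measurableEmbedding_addLeft t)
      (fun v => Real.exp t • (Real.exp (-v) • T (max v 0) f)) (Ioi t)
    rw [← this]
    congr 1
    congr 1
    ext x
    simp
  rw [h1, h2, h3, integral_smul]
  congr 1
  rw [J_eq hJ f]
  have h4 := intervalIntegral.integral_interval_add_Ioi (intg hT f 0) (intg hT f t)
  rw [← h4]
  simp

theorem J_comm (hT : Semi T) (hJ : IsJ T J) (f : X) {t : ℝ} (ht : 0 ≤ t) :
    J (T t f) = T t (J f) := by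
  rw [hJ (T t f), hJ f]
  have h0 : IntegrableOn (fun t : ℝ => Real.exp (-t) • T t f) (Ioi 0) := by
    refine (intg hT f 0).congr_fun (fun s hs => ?_) measurableSet_Ioi
    have : max s 0 = s := max_eq_left (le_of_lt hs)
    simp only [this]
  rw [← (T t).integral_comp_comm h0]
  refine setIntegral_congr_fun measurableSet_Ioi fun s hs => ?_
  have hs' : (0 : ℝ) < s := hs
  simp only [map_smul]
  have e1 := hT.add s t hs'.le ht
  have e2 := hT.add t s ht hs'.le
  rw [add_comm t s, e1] at e2
  have := congrArg (fun A : X →L[ℝ] X => A f) e2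
  simp only [ContinuousLinearMap.comp_apply] at this
  rw [this]

theorem hasDeriv_T_J (hT : Semi T) (hJ : IsJ T J) (f : X) {t : ℝ} (ht : 0 < t) :
    HasDerivAt (fun s => T s (J f)) (T t (J f) - T t f) t := by
  have hI : HasDerivAt (fun s : ℝ => ∫ v in (0 : ℝ)..s, Real.exp (-v) • T (max v 0) f)
      (Real.exp (-t) • T (max t 0) f) t :=
    intervalIntegral.integral_hasDerivAt_right ((cont_exp hT f).intervalIntegrable _ _)
      ((cont_exp hT f).stronglyMeasurableAtFilter _ _) (cont_exp hT f).continuousAt
  have hE : HasDerivAt (fun s : ℝ => Real.exp s) (Real.exp t) t := Real.hasDerivAt_exp t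
  have hP := hE.smul ((hasDerivAt_const t (J f)).sub hI)
  have he : (fun s => T s (J f)) =ᶠ[𝓝 t] fun s : ℝ =>
      Real.exp s • (J f - ∫ v in (0 : ℝ)..s, Real.exp (-v) • T (max v 0) f) := by
    filter_upwards [lt_mem_nhds ht] with s hs
    exact T_J hT hJ f hs.le
  refine (hP.congr_of_eventuallyEq he).congr_deriv ?_
  have e1 : max t 0 = t := max_eq_left ht.le
  rw [T_J hT hJ f ht.le, e1, zero_sub, smul_neg, smul_smul, ← Real.exp_add]
  simp only [add_neg_cancel, Real.exp_zero, one_smul]
  abel

theorem T_J_int (hT : Semi T) (hJ : IsJ T J) (f : X) {t : ℝ} (ht : 0 ≤ t) :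
    T t (J f) = J f + ∫ s in (0 : ℝ)..t, T (max s 0) (J f - f) := by
  have hc : ContinuousOn (fun s => T s (J f)) (Icc 0 t) :=
    (hT.cont (J f)).mono (fun x hx => hx.1)
  have h := intervalIntegral.integral_eq_sub_of_hasDerivAt_of_le ht hc
    (f' := fun s => T (max s 0) (J f - f)) (fun s hs => by
      have := hasDeriv_T_J hT hJ f hs.1
      have e1 : max s 0 = s := max_eq_left hs.1.le
      simp only [e1, map_sub]
      exact this) ((cont_max hT (J f - f)).intervalIntegrable _ _)
  rw [h, hT.zero]
  simp

end SB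

theorem tay_thm : S_TAY.{v} := by
  intro X _ _ _ T J hT hJ hJ1 M
  induction M with
  | zero =>
    intro U
    refine ⟨fun _ => 0, fun k => by simp, fun t ht => ?_⟩
    simpa using SB.norm_T_le hT ht U
  | succ M ih =>
    intro U
    obtain ⟨g, hg1, hg2⟩ := ih (J U - U)
    have hU' : ‖J U - U‖ ≤ 2 * ‖U‖ := by
      have h1 : ‖J U‖ ≤ ‖U‖ := by
        have := J.le_of_opNorm_le hJ1 U
        simpa using this
      have := norm_sub_le (J U) U
      linarith
    have hJp : ∀ n : ℕ, ∀ V : X, ‖(J ^ n) V‖ ≤ ‖V‖ := by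
      intro n
      induction n with
      | zero => intro V; simp
      | succ n ihn =>
        intro V
        rw [pow_succ]
        have h1 := ihn (J V)
        have h2 := J.le_of_opNorm_le hJ1 V
        have h3 : ((J ^ n * J : X →L[ℝ] X)) V = (J ^ n) (J V) := rfl
        rw [h3]
        linarith
    have hpow : (2 : ℝ) ^ M * ‖J U - U‖ ≤ 2 ^ (M + 1) * ‖U‖ := by
      rw [pow_succ, mul_assoc]
      exact mul_le_mul_of_nonneg_left hU' (by positivity)
    refine ⟨fun k => Nat.casesOn k ((J ^ (M + 1)) U) g, ?_, ?_⟩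
    · intro k
      cases k with
      | zero =>
        refine (hJp (M + 1) U).trans ?_
        have : (1 : ℝ) ≤ 2 ^ (M + 1) := one_le_pow₀ (by norm_num)
        nlinarith [norm_nonneg U]
      | succ k => exact (hg1 k).trans hpow
    · intro t ht
      have key : T t ((J ^ (M + 1)) U) = (J ^ (M + 1)) U +
          ∫ s in (0 : ℝ)..t, T (max s 0) ((J ^ M) (J U - U)) := by
        have e1 : (J ^ (M + 1)) U = J ((J ^ M) U) := by rw [pow_succ']; rfl
        have e2 : J ((J ^ M) U) - (J ^ M) U = (J ^ M) (J U - U) := by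
          rw [map_sub, ← e1, pow_succ]; rfl
        have := SB.T_J_int hT hJ ((J ^ M) U) ht
        rw [← e1] at this
        rw [this, e1, e2]
      have hs : ∑ k ∈ Finset.range M, (t ^ (k + 1) / ((k + 1).factorial : ℝ)) • g k =
          ∫ s in (0 : ℝ)..t, ∑ k ∈ Finset.range M, (s ^ k / (k.factorial : ℝ)) • g k := by
        rw [intervalIntegral.integral_finsetSum]
        · refine Finset.sum_congr rfl fun k _ => ?_
          rw [intervalIntegral.integral_smul_const]
          congr 1
          rw [intervalIntegral.integral_div, integral_pow, Nat.factorial_succ]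
          push_cast
          have : (k.factorial : ℝ) ≠ 0 := by positivity
          have h2 : (k : ℝ) + 1 ≠ 0 := by positivity
          field_simp
          simp
        · intro k _
          exact (Continuous.intervalIntegrable (by fun_prop) _ _)
      rw [Finset.sum_range_succ']
      simp only [pow_zero, Nat.factorial_zero, Nat.cast_one, div_one, one_smul]
      rw [hs, key]
      have e3 : (J ^ (M + 1)) U + (∫ s in (0 : ℝ)..t, T (max s 0) ((J ^ M) (J U - U))) -
          ((∫ s in (0 : ℝ)..t, ∑ k ∈ Finset.range M, (s ^ k / (k.factorial : ℝ)) • g k) +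
            (J ^ (M + 1)) U) =
          ∫ s in (0 : ℝ)..t, (T (max s 0) ((J ^ M) (J U - U)) -
            ∑ k ∈ Finset.range M, (s ^ k / (k.factorial : ℝ)) • g k) := by
        rw [intervalIntegral.integral_sub]
        · abel
        · exact (SB.cont_max hT _).intervalIntegrable _ _
        · exact (Continuous.intervalIntegrable (by fun_prop) _ _)
      change ‖(J ^ (M + 1)) U + (∫ s in (0 : ℝ)..t, T (max s 0) ((J ^ M) (J U - U))) -
          ((∫ s in (0 : ℝ)..t, ∑ k ∈ Finset.range M, (s ^ k / (k.factorial : ℝ)) • g k) +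
            (J ^ (M + 1)) U)‖ ≤ _
      rw [e3]
      have hb := intervalIntegral.norm_integral_le_of_norm_le (μ := volume) ht
        (f := fun s => (T (max s 0) ((J ^ M) (J U - U)) -
            ∑ k ∈ Finset.range M, (s ^ k / (k.factorial : ℝ)) • g k))
        (g := fun s => s ^ M / (M.factorial : ℝ) * (2 ^ (M + 1) * ‖U‖))
        (Filter.Eventually.of_forall fun s hs => by
          have hs0 : 0 ≤ s := hs.1.le
          have e1 : max s 0 = s := max_eq_left hs0
          rw [e1]
          refine (hg2 s hs0).trans ?_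
          exact mul_le_mul_of_nonneg_left hpow (by positivity))
        (Continuous.intervalIntegrable (by fun_prop) _ _)
      refine hb.trans (le_of_eq ?_)
      rw [intervalIntegral.integral_mul_const, intervalIntegral.integral_div, integral_pow,
        Nat.factorial_succ]
      push_cast
      have : (M.factorial : ℝ) ≠ 0 := by positivity
      have h2 : (M : ℝ) + 1 ≠ 0 := by positivity
      field_simp
      simp

end Pool.Agent.R876.WM
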