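import Pool.Agent.R876.WM.AMP

open MeasureTheory ProbabilityTheory Set
open scoped ENNReal NNReal Topology

namespace Pool.Agent.R876.WM

universe v

theorem ten_thm : S_TEN.{v} := by
  intro I
  have hS : ∀ v w : L2 I, HasSum (fun p : I × I => ‖(v : I → ℝ) p.1 * (w : I → ℝ) p.2‖ ^ 2)
      (‖v‖ ^ 2 * ‖w‖ ^ 2) := by
    intro v w
    have h1 := l2_hasSum v
    have h2 := l2_hasSum w
    have h3 : Summable (fun p : I × I => ‖(v : I → ℝ) p.1‖ ^ 2 * ‖(w : I → ℝ) p.2‖ ^ 2) :=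
      h1.summable.mul_of_nonneg h2.summable (fun i => by positivity) (fun i => by positivity)
    have h4 := h1.mul h2 h3
    have h5 : (fun p : I × I => ‖(v : I → ℝ) p.1 * (w : I → ℝ) p.2‖ ^ 2) =
        fun p : I × I => ‖(v : I → ℝ) p.1‖ ^ 2 * ‖(w : I → ℝ) p.2‖ ^ 2 := by
      funext p
      rw [norm_mul, mul_pow]
    rw [h5]
    exact h4
  let f : L2 I → L2 I → L2 (I × I) := fun v w =>
    ⟨fun p => (v : I → ℝ) p.1 * (w : I → ℝ) p.2, l2_mem _ (hS v w).summable⟩
  have hf : ∀ v w, ‖f v w‖ = ‖v‖ * ‖w‖ := by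
    intro v w
    have h1 : ‖f v w‖ ^ 2 = ‖v‖ ^ 2 * ‖w‖ ^ 2 := l2_norm_sq _ (hS v w)
    rw [← mul_pow] at h1
    exact (sq_eq_sq₀ (norm_nonneg _) (by positivity)).1 h1
  let L : L2 I →ₗ[ℝ] L2 I →ₗ[ℝ] L2 (I × I) := LinearMap.mk₂ ℝ f
    (by
      intro a b c
      apply lp.ext
      funext p
      simp [f, add_mul])
    (by
      intro c a b
      apply lp.ext
      funext p
      simp [f, mul_assoc])
    (by
      intro a b c
      apply lp.ext
      funext p
      simp [f, mul_add])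
    (by
      intro c a b
      apply lp.ext
      funext p
      simp [f, mul_left_comm])
  refine ⟨L.mkContinuous₂ 1 (fun v w => ?_), ?_, ?_⟩
  · rw [one_mul]
    exact (hf v w).le
  · intro v w i j
    rfl
  · intro v w
    exact hf v w

end Pool.Agent.R876.WM
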