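import Pool.Agent.R876.WM.Stm

open MeasureTheory ProbabilityTheory Set
open scoped ENNReal NNReal Topology

set_option linter.unusedSectionVars false

namespace Pool.Agent.R876.WM
universe u v
variable {Ω : Type u} [NormedAddCommGroup Ω] [NormedSpace ℝ Ω] [CompleteSpace Ω]
  [SecondCountableTopology Ω] [MeasurableSpace Ω] [BorelSpace Ω]
  (μ : Measure Ω) [IsGaussian μ]

theorem tena_thm
    (h1 : ∀ (I : Type v), S_H1 μ (L2 I)) (h2 : S_CONJ.{u, v} μ)
    (h3 : ∀ I : Type v, S_COMP μ (L2 I)) (h4 : S_CUR.{v}) (h5 : S_FLIP.{v}) (h6 : S_AMP.{v}) :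
    S_TENA.{u, v} μ := by
  intro I _ B hB A hA
  obtain ⟨e, he⟩ := h4 I I
  obtain ⟨fl, hfl⟩ := h5 I I
  choose T' hT' using fun T : L2 I →L[ℝ] L2 I => h6 I (L2 I) T
  have hA' : CtsD2 μ (fun ω => T' (A ω)) := h1 I I A hA _ (fun ω M k => hT' (A ω) M k)
  -- action on the second index
  have hA2 := (h2 (lp (fun _ : I => L2 I) 2) (L2 (I × I)) e.symm).2 _ hA'
  set A2 : Ω → (L2 (I × I) →L[ℝ] L2 (I × I)) := fun ω =>
    (e.symm.toContinuousLinearEquiv : lp (fun _ : I => L2 I) 2 →L[ℝ] L2 (I × I)).comp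
      ((T' (A ω)).comp (e.symm.symm.toContinuousLinearEquiv : L2 (I × I) →L[ℝ] _)) with hA2def
  have hA1 := (h2 (L2 (I × I)) (L2 (I × I)) fl).2 _ hA2
  set A1 : Ω → (L2 (I × I) →L[ℝ] L2 (I × I)) := fun ω =>
    (fl.toContinuousLinearEquiv : L2 (I × I) →L[ℝ] L2 (I × I)).comp
      ((A2 ω).comp (fl.symm.toContinuousLinearEquiv : L2 (I × I) →L[ℝ] _)) with hA1def
  have hc := h3 (I × I) A1 A2 hA1 hA2
  refine ⟨_, hc, ?_⟩
  -- the action of `A2` on tensors
  have hten2 : ∀ ω v w, A2 ω (B v w) = B v (A ω w) := by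
    intro ω v w
    have hslice : ∀ k : I, ((e (B v w) : I → L2 I) k) = (v : I → ℝ) k • w := by
      intro k
      ext i
      rw [he, hB]
      simp
    have : e (A2 ω (B v w)) = e (B v (A ω w)) := by
      have h7 : e (A2 ω (B v w)) = T' (A ω) (e (B v w)) := by
        simp [hA2def]
      rw [h7]
      ext k i
      rw [hT', hslice, he, hB]
      simp
    exact e.injective this
  have hflB : ∀ v w, fl (B v w) = B w v := by
    intro v w
    ext ⟨i, k⟩
    rw [hfl, hB, hB]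
    ring
  have hflB' : ∀ v w, fl.symm (B v w) = B w v := by
    intro v w
    rw [LinearIsometryEquiv.symm_apply_eq, hflB]
  have hten1 : ∀ ω v w, A1 ω (B v w) = B (A ω v) w := by
    intro ω v w
    have : A1 ω (B v w) = fl (A2 ω (fl.symm (B v w))) := by simp [hA1def]
    rw [this, hflB', hten2, hflB]
  intro ω v w
  have : ((A1 ω).comp (A2 ω)) (B v w) = A1 ω (A2 ω (B v w)) := rfl
  rw [this, hten2, hten1]

end Pool.Agent.R876.WM
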